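import Pool.Agent.U605.CZ.Two4

/-!
# Commutators with one of the variables
-/

set_option autoImplicit false

namespace Pool.Agent.U605.CZ

open Matrix Pool.Agent.H552R3.PC

/-- a matrix with zero diagonal and distinct eigenvalues -/
def HasHollow (L : Type*) [Field L] (k : ℕ) : Prop :=
  ∃ H : Matrix (Fin k) (Fin k) L, (∀ i, H i i = 0) ∧ ∃ r : Fin k → L, Function.Injective r ∧
    ∀ m : ℕ, (H ^ m).trace = ∑ i, r i ^ m

theorem blk_diag_zero {A : Type*} [CommRing A] {k : ℕ} {U : Matrix (Fin 2) (Fin 2) A}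
    {V : Matrix (Fin k) (Fin k) A} (hU : ∀ i, U i i = 0) (hV : ∀ i, V i i = 0)
    (i : Fin (2 + k)) : blk U V i i = 0 := by
  rw [blk, Matrix.reindex_apply, Matrix.submatrix_apply]
  rcases finSumFinEquiv.symm i with a | a
  · simpa using hU a
  · simpa using hV a

theorem hasHollow {L : Type*} [Field L] [Infinite L] (h2 : (2 : L) ≠ 0) (j : ℕ) :
    HasHollow L (2 * j + 1) := by
  classical
  induction j with
  | zero =>
    refine ⟨0, fun _ => rfl, fun _ => 0, fun i j _ => Fin.ext (by omega), fun m => ?_⟩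
    rcases Nat.eq_zero_or_pos m with rfl | hm
    · simp
    · rw [zero_pow hm.ne']
      simp [zero_pow hm.ne']
  | succ j ih =>
    have e : 2 * (j + 1) + 1 = 2 + (2 * j + 1) := by ring
    rw [e]
    obtain ⟨H, hH, r, hr, htr⟩ := ih
    obtain ⟨α, hα⟩ := Infinite.exists_notMem_finset
      (insert 0 (Finset.univ.image r ∪ Finset.univ.image fun i => -r i))
    simp only [Finset.mem_insert, Finset.mem_union, Finset.mem_image, Finset.mem_univ, true_and,
      not_or, not_exists] at hα
    obtain ⟨hα0, hα1, hα2⟩ := hα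
    refine ⟨blk !![0, α ^ 2; 1, 0] H, blk_diag_zero (by intro i; fin_cases i <;> simp) hH,
      Fin.append ![α, -α] r, ?_, fun m => ?_⟩
    · rw [Fin.append_injective_iff]
      refine ⟨?_, hr, ?_⟩
      · have hne : α ≠ -α := by
          intro h
          have : 2 * α = 0 := by linear_combination h
          exact hα0 ((mul_eq_zero.1 this).resolve_left h2)
        intro a b hab
        fin_cases a <;> fin_cases b
        · rfl
        · exact absurd hab hne
        · exact absurd hab.symm hne
        · rfl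
      · intro a b
        fin_cases a
        · exact fun h => hα1 b h.symm
        · intro h
          apply hα2 b
          have h' : -α = r b := h
          rw [← h', neg_neg]
    · rw [blk_pow, trace_blk, trace_pow_two (α := α) (β := -α) _ _ _ _ m, htr,
        Fin.sum_univ_add (fun i : Fin (2 + (2 * j + 1)) => Fin.append ![α, -α] r i ^ m)]
      · simp [Fin.append_left, Fin.append_right, Fin.sum_univ_two]
      · rw [Matrix.trace_fin_two, Matrix.det_fin_two]
        simp
      · rw [Matrix.trace_fin_two, Matrix.det_fin_two]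
        simp
      · rw [Matrix.trace_fin_two]
        simp

/-- commutators with one of the variables -/
theorem not_commutator2 {K : Type*} [Field K] {σ : Type*} {n : ℕ} [Infinite K] [DecidableEq σ]
    (hn : 3 ≤ n) (hodd : Odd n) (hnK : (n : K) ≠ 0)
    (h2K : (2 : K) ≠ 0) (x : σ) (h : FreeAlgebra K σ)
    (hh : h ∈ Algebra.adjoin K (FreeAlgebra.ι K '' {y | y ≠ x}))
    (X₀ : σ → Matrix (Fin n) (Fin n) K) (hX₀ : (FreeAlgebra.lift K X₀ h).charpoly.Separable)
    (δ : PF K σ n)
    (hδ : (gram (FreeAlgebra.lift K (CZ.gen K σ n)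
      (FreeAlgebra.ι K x * h - h * FreeAlgebra.ι K x))).det
      = MvPolynomial.C (nstar K n) * δ ^ 2) : False := by
  set Ω := AlgebraicClosure K
  have h2Ω : (2 : Ω) ≠ 0 := by
    have := (algebraMap K Ω).injective.ne h2K
    rwa [map_ofNat, map_zero] at this
  have : Infinite Ω := Infinite.of_injective (algebraMap K Ω) (algebraMap K Ω).injective
  set B : Matrix (Fin n) (Fin n) Ω := (Algebra.ofId K Ω).mapMatrix (FreeAlgebra.lift K X₀ h) with hB
  have hBs : B.charpoly.Separable := by
    have h1 := Matrix.charpoly_map (FreeAlgebra.lift K X₀ h) (algebraMap K Ω)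
    have h2 : B = (FreeAlgebra.lift K X₀ h).map (algebraMap K Ω) := rfl
    rw [h2, h1]
    exact hX₀.map
  obtain ⟨l, hl, hroot⟩ := distinct_roots B hBs
  obtain ⟨S, hS, hBS⟩ := exists_diag B l hl hroot
  obtain ⟨u, rfl⟩ := hS
  -- the model matrix
  obtain ⟨Z, hZ0, w, hw, hZd⟩ : ∃ Z : Matrix (Fin n) (Fin n) (Polynomial Ω), (∀ i, Z i i = 0) ∧
      ∃ w : Polynomial Ω, w ≠ 0 ∧ (gram Z).det = 4 * Polynomial.X * w ^ 2 := by
    obtain ⟨k, rfl, j, rfl⟩ : ∃ k, n = 2 + k ∧ Odd k := by
      obtain ⟨m, hm⟩ := hodd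
      exact ⟨n - 2, by omega, m - 1, by omega⟩
    obtain ⟨H, hH, r, hr, htr⟩ := hasHollow h2Ω j
    set P : Matrix (Fin 2) (Fin 2) (Polynomial Ω) := !![0, Polynomial.X; 1, 0] with hP
    have ht : P.trace = 0 := by rw [Matrix.trace_fin_two, hP]; simp
    have hd : P.det = -Polynomial.X := by rw [Matrix.det_fin_two, hP]; simp
    refine ⟨blk P (H.map Polynomial.C), blk_diag_zero (by intro i; fin_cases i <;> simp [hP])
      (fun i => by rw [Matrix.map_apply, hH, map_zero]),
      (Wm P fun i => Polynomial.C (r i)).det, ?_, ?_⟩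
    · refine Wm_det_ne P (fun c hc => ?_) _ (fun a b hab => hr (Polynomial.C_injective hab))
        fun i => ?_
      · have h1 := congrFun (congrFun hc 1) 0
        rw [hP] at h1
        simp at h1
      · rw [ht, hd, zero_mul, sub_zero]
        intro h1
        have h3 := congrArg (fun q => Polynomial.coeff q 1) h1
        simp only [← Polynomial.C_pow, Polynomial.coeff_add, Polynomial.coeff_neg,
          Polynomial.coeff_X_one, Polynomial.coeff_C_succ, Polynomial.coeff_zero, zero_add,
          neg_eq_zero, one_ne_zero] at h3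
    · rw [gram_blk P (fun i => Polynomial.C (r i)) _ fun m => ?_, disc2, ht, hd]
      · ring
      · rw [blk_pow, trace_blk]
        congr 1
        have h3 : H.map Polynomial.C ^ m =
            (Polynomial.C : Ω →+* Polynomial Ω).mapMatrix (H ^ m) := by
          rw [map_pow]
          rfl
        have h4 : ((Polynomial.C : Ω →+* Polynomial Ω).mapMatrix (H ^ m)).trace =
            Polynomial.C ((H ^ m).trace) := by
          rw [Matrix.trace, Matrix.trace, map_sum]
          rfl
        rw [h3, h4, htr, map_sum]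
        simp
  set φ : Matrix (Fin n) (Fin n) Ω →ₐ[Ω] Matrix (Fin n) (Fin n) (Polynomial Ω) :=
    (Algebra.ofId Ω (Polynomial Ω)).mapMatrix with hφ
  set U : (Matrix (Fin n) (Fin n) (Polynomial Ω))ˣ := Units.map (φ : _ →* _) u with hU
  set A' : Matrix (Fin n) (Fin n) (Polynomial Ω) :=
    Matrix.of fun i j => Polynomial.C ((l j - l i)⁻¹) * Z i j with hA'
  set L : Matrix (Fin n) (Fin n) (Polynomial Ω) := diagonal fun i => Polynomial.C (l i) with hL
  have hφL : φ (diagonal l) = L := by
    ext i j
    by_cases hij : i = j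
    · subst hij
      simp [hφ, hL, Algebra.ofId_apply]
    · simp [hφ, hL, Matrix.diagonal_apply_ne _ hij]
  have hAL : A' * L - L * A' = Z := by
    ext1 i j
    rw [Matrix.sub_apply, hL, Matrix.mul_diagonal, Matrix.diagonal_mul, hA', Matrix.of_apply]
    by_cases hij : i = j
    · subst hij
      rw [hZ0]
      ring
    · have h1 : l j - l i ≠ 0 := sub_ne_zero.2 (hl.ne (Ne.symm hij))
      have h2 : (Polynomial.C ((l j - l i)⁻¹) : Polynomial Ω) *
          (Polynomial.C (l j) - Polynomial.C (l i)) = 1 := by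
        rw [← Polynomial.C_sub, ← Polynomial.C_mul, inv_mul_cancel₀ h1, Polynomial.C_1]
      linear_combination (Z i j) * h2
  have hBU : φ B * (U : Matrix (Fin n) (Fin n) (Polynomial Ω)) = U * L := by
    have h1 := congrArg φ hBS
    rw [map_mul, map_mul, hφL] at h1
    exact h1
  set W : Matrix (Fin n) (Fin n) (Polynomial Ω) :=
    (U : Matrix (Fin n) (Fin n) (Polynomial Ω)) * A' *
      ((U⁻¹ : (Matrix (Fin n) (Fin n) (Polynomial Ω))ˣ) : Matrix (Fin n) (Fin n) (Polynomial Ω))
    with hW
  set Y : σ → Matrix (Fin n) (Fin n) (Polynomial Ω) := fun y =>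
    if y = x then W else (Algebra.ofId K (Polynomial Ω)).mapMatrix (X₀ y) with hY
  have hYh : FreeAlgebra.lift K Y h = φ B := by
    have h1 : FreeAlgebra.lift K Y h =
        FreeAlgebra.lift K (fun y => (Algebra.ofId K (Polynomial Ω)).mapMatrix (X₀ y)) h := by
      have h2 := AlgHom.adjoin_le_equalizer (FreeAlgebra.lift K Y)
        (FreeAlgebra.lift K (fun y => (Algebra.ofId K (Polynomial Ω)).mapMatrix (X₀ y)))
        (s := FreeAlgebra.ι K '' {y | y ≠ x}) (by
          rintro _ ⟨y, hy, rfl⟩
          rw [FreeAlgebra.lift_ι_apply, FreeAlgebra.lift_ι_apply, hY]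
          exact if_neg hy)
      exact h2 hh
    have h3 : ((Algebra.ofId K (Polynomial Ω)).mapMatrix (m := Fin n)).comp
        (FreeAlgebra.lift K X₀) =
        FreeAlgebra.lift K (fun y => (Algebra.ofId K (Polynomial Ω)).mapMatrix (X₀ y)) := by
      refine FreeAlgebra.hom_ext ?_
      funext s
      simp
    rw [h1, ← h3, hB, hφ]
    ext i j
    rfl
  have hYg : FreeAlgebra.lift K Y (FreeAlgebra.ι K x * h - h * FreeAlgebra.ι K x) *
      (U : Matrix (Fin n) (Fin n) (Polynomial Ω)) = U * Z := by
    rw [map_sub, map_mul, map_mul, FreeAlgebra.lift_ι_apply, hYh]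
    have h1 : Y x = W := if_pos rfl
    have h2 : W * (U : Matrix (Fin n) (Fin n) (Polynomial Ω)) = U * A' := by
      rw [hW, mul_assoc, U.inv_mul, mul_one]
    have h3 : W * φ B * (U : Matrix (Fin n) (Fin n) (Polynomial Ω)) = U * (A' * L) := by
      rw [mul_assoc, hBU, ← mul_assoc, h2, mul_assoc]
    have h4 : φ B * W * (U : Matrix (Fin n) (Fin n) (Polynomial Ω)) = U * (L * A') := by
      rw [mul_assoc, h2, ← mul_assoc, hBU, mul_assoc]
    rw [h1, sub_mul, h3, h4, ← mul_sub, hAL]
  have h1 := disc_alg hδ Y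
  rw [gram_conj U.isUnit hYg, nstar_C, hZd] at h1
  -- degrees
  have h4 : (4 : Ω) ≠ 0 := by
    have : (4 : Ω) = 2 * 2 := by norm_num
    rw [this]
    exact mul_ne_zero h2Ω h2Ω
  have h4C : (4 : Polynomial Ω) = Polynomial.C 4 := (map_ofNat Polynomial.C 4).symm
  have hη : ev Y δ ≠ 0 := by
    intro h0
    rw [h0, h4C] at h1
    have : Polynomial.C (4 : Ω) * Polynomial.X * w ^ 2 ≠ 0 :=
      mul_ne_zero (mul_ne_zero (Polynomial.C_ne_zero.2 h4) Polynomial.X_ne_zero)
        (pow_ne_zero _ hw)
    apply this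
    rw [h1]
    ring
  have hnΩ : (n : Ω) ≠ 0 := by
    have := (algebraMap K Ω).injective.ne hnK
    simpa using this
  have h5 := congrArg Polynomial.natDegree h1
  rw [h4C, Polynomial.natDegree_C_mul (nstar_ne hnΩ), Polynomial.natDegree_pow, mul_assoc,
    Polynomial.natDegree_C_mul h4, Polynomial.natDegree_mul Polynomial.X_ne_zero
    (pow_ne_zero _ hw), Polynomial.natDegree_X, Polynomial.natDegree_pow] at h5
  omega

end Pool.Agent.U605.CZ
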