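import Pool.Agent.U605.CZ.G12

/-!
# The Kummer matrix
-/

set_option autoImplicit false

namespace Pool.Agent.U605.CZ

open Matrix

universe u v w

section kum

variable {L : Type*} [Field L] {M : Type*} [Field M] [Algebra L M] {n : ℕ}

/-- the companion matrix of `T ^ n - d` -/
def kum (n : ℕ) (d : L) : Matrix (Fin n) (Fin n) L :=
  Matrix.of fun a b => if (a : ℕ) + 1 = b then 1 else
    if (a : ℕ) + 1 = n ∧ (b : ℕ) = 0 then d else 0

/-- the eigenvectors -/
def vdm (l : Fin n → M) : Matrix (Fin n) (Fin n) M := Matrix.of fun a i => l i ^ (a : ℕ)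

theorem kum_mul {d : L} {l : Fin n → M} (hl : ∀ i, l i ^ n = algebraMap L M d) :
    (kum n d).map (algebraMap L M) * vdm l = vdm l * diagonal l := by
  ext a i
  rw [Matrix.mul_diagonal, Matrix.mul_apply]
  have hn : 0 < n := lt_of_le_of_lt (Nat.zero_le _) a.2
  by_cases ha : (a : ℕ) + 1 < n
  · rw [Finset.sum_eq_single (⟨(a : ℕ) + 1, ha⟩ : Fin n)]
    · simp [kum, vdm, pow_succ]
    · intro b _ hb
      have h1 : ¬ (a : ℕ) + 1 = b := by
        intro h
        apply hb
        ext
        exact h.symm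
      have h2 : ¬ ((a : ℕ) + 1 = n ∧ (b : ℕ) = 0) := by
        rintro ⟨h, -⟩
        omega
      simp [kum, h1, h2]
    · intro h
      exact absurd (Finset.mem_univ _) h
  · have ha' : (a : ℕ) + 1 = n := by have := a.2; omega
    rw [Finset.sum_eq_single (⟨0, hn⟩ : Fin n)]
    · simp only [kum, vdm, Matrix.map_apply, Matrix.of_apply]
      rw [if_neg (by simp), if_pos ⟨ha', trivial⟩, pow_zero, mul_one, ← hl i, ← pow_succ, ha']
    · intro b _ hb
      have h1 : ¬ (a : ℕ) + 1 = b := by
        have := b.2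
        omega
      have h2 : ¬ ((a : ℕ) + 1 = n ∧ (b : ℕ) = 0) := by
        rintro ⟨-, h⟩
        apply hb
        ext
        exact h
      simp [kum, h1, h2]
    · intro h
      exact absurd (Finset.mem_univ _) h

theorem vdm_unit {l : Fin n → M} (hl : Function.Injective l) : IsUnit (vdm l) := by
  rw [Matrix.isUnit_iff_isUnit_det, isUnit_iff_ne_zero]
  have h1 : vdm l = (Matrix.vandermonde l)ᵀ := by
    ext a i
    simp [vdm, Matrix.vandermonde_apply]
  rw [h1, Matrix.det_transpose]
  exact Matrix.det_vandermonde_ne_zero_iff.2 hl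

theorem aeval_diag2 {D V : Matrix (Fin n) (Fin n) M} {l : Fin n → M} (h : D * V = V * diagonal l)
    (p : Polynomial L) :
    Polynomial.aeval D p * V = V * diagonal (fun i => Polynomial.aeval (l i) p) := by
  induction p using Polynomial.induction_on' with
  | add p q hp hq =>
    rw [map_add, add_mul, hp, hq, ← mul_add, Matrix.diagonal_add]
    congr 2
    funext i
    rw [map_add]
  | monomial m a =>
    have h1 : ∀ i, Polynomial.aeval (l i) (Polynomial.monomial m a) = a • l i ^ m := by
      intro i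
      rw [Polynomial.aeval_monomial, Algebra.smul_def]
    rw [Polynomial.aeval_monomial, mul_assoc, pow_diag h m]
    simp only [h1]
    rw [← Algebra.smul_def, ← Matrix.mul_smul, ← Matrix.diagonal_smul]
    rfl

theorem map_kum_aeval {d : L} {l : Fin n → M} (hl : ∀ i, l i ^ n = algebraMap L M d)
    (p : Polynomial L) :
    (Polynomial.aeval (kum n d) p).map (algebraMap L M) * vdm l =
      vdm l * diagonal (fun i => Polynomial.aeval (l i) p) := by
  have h1 := Polynomial.aeval_algHom_apply ((Algebra.ofId L M).mapMatrix (m := Fin n)) (kum n d) p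
  have h2 : (Polynomial.aeval (kum n d) p).map (algebraMap L M) =
      (Algebra.ofId L M).mapMatrix (Polynomial.aeval (kum n d) p) := rfl
  rw [h2, ← h1]
  exact aeval_diag2 (kum_mul hl) p

theorem charpoly_of_diag {G V : Matrix (Fin n) (Fin n) M} {r : Fin n → M} (hV : IsUnit V)
    (h : G * V = V * diagonal r) :
    G.charpoly = ∏ i, (Polynomial.X - Polynomial.C (r i)) := by
  obtain ⟨y, rfl⟩ := hV
  have h1 : G = (y : Matrix (Fin n) (Fin n) M) *
      diagonal r * ((y⁻¹ : (Matrix (Fin n) (Fin n) M)ˣ) : Matrix (Fin n) (Fin n) M) := by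
    rw [← h, mul_assoc, y.mul_inv, mul_one]
  rw [h1]
  have h3 := Matrix.charpoly_units_conj y (diagonal r)
  rw [Matrix.coe_units_inv, h3]
  exact Matrix.charpoly_diagonal r

end kum

theorem map_inj_of_field {L M : Type*} [Field L] [Field M] [Algebra L M] {n : ℕ}
    {A B : Matrix (Fin n) (Fin n) L} (h : A.map (algebraMap L M) = B.map (algebraMap L M)) :
    A = B := by
  ext i j
  exact (algebraMap L M).injective (congrFun (congrFun h i) j)

theorem kummer_hom {K : Type*} [Field K] {σ : Type*} {n : ℕ} (hn : n.Prime)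
    (hnK : (n : K) ≠ 0) {f : FreeAlgebra K σ} {c : PF K σ n}
    (hF : (FreeAlgebra.lift K (CZ.gen K σ n) f).charpoly = Polynomial.X ^ n - Polynomial.C c)
    {L : Type*} [Field L] [Algebra K L] (X Z : σ → Matrix (Fin n) (Fin n) L)
    (k : ℕ) (q : Polynomial L) (hq : q.eval 0 ≠ 0)
    (hcu : ev (line X Z) c = Polynomial.X ^ k * q)
    {M : Type*} [Field M] [Algebra L M] {ζ v : M} (hζ : IsPrimitiveRoot ζ n)
    (hv : v ^ n = algebraMap L M (q.eval 0)) :
    ∃ Φ : FreeAlgebra K σ → Matrix (Fin n) (Fin n) L,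
        (∀ g g', cm K n f g → cm K n f g' → Φ (g * g') = Φ g * Φ g') ∧
        (∀ g g', cm K n f g → cm K n f g' → Φ (g + g') = Φ g + Φ g') ∧
        (∀ a, Φ (algebraMap K (FreeAlgebra K σ) a) = algebraMap K _ a) ∧
        (∀ g, cm K n f g → Φ g ∈ Algebra.adjoin L {kum n (q.eval 0)}) ∧
        ∀ g, cm K n f g → (Φ g).charpoly = (FreeAlgebra.lift K X g).charpoly := by
  have hn0 : n ≠ 0 := hn.ne_zero
  set d := q.eval 0 with hd
  let _ : Algebra K M := ((algebraMap L M).comp (algebraMap K L)).toAlgebra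
  have : IsScalarTower K L M := IsScalarTower.of_algebraMap_eq fun _ => rfl
  obtain ⟨ρ, hρ1, hρ2, hρ3, hρ4, hρ5⟩ := curve_hom hn hnK hF X Z k q hq hcu hζ hv
  choose! h hh using hρ5
  set l : Fin n → M := fun i => ζ ^ (i : ℕ) * v with hl
  have hlv : ∀ i : Fin n, l i ^ n = algebraMap L M d := by
    intro i
    rw [hl, mul_pow, hv, ← pow_mul, mul_comm (i : ℕ) n, pow_mul, hζ.pow_eq_one, one_pow, one_mul]
  have hv0 : v ≠ 0 := by
    rintro rfl
    rw [zero_pow hn0] at hv
    exact hq ((algebraMap L M).injective (hv.symm.trans (map_zero _).symm))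
  have hlinj : Function.Injective l := by
    intro i j hij
    exact Fin.ext (hζ.pow_inj i.2 j.2 (mul_right_cancel₀ hv0 hij))
  have hV := vdm_unit hlinj
  obtain ⟨V', hV'⟩ := hV.exists_right_inv
  set Φ : FreeAlgebra K σ → Matrix (Fin n) (Fin n) L := fun g =>
    Polynomial.aeval (kum n d) (h g) with hΦ
  have hΦV : ∀ g, cm K n f g → (Φ g).map (algebraMap L M) * vdm l = vdm l * diagonal (ρ g) := by
    intro g hg
    rw [hΦ, map_kum_aeval hlv]
    congr 2
    funext i
    exact hh g hg i
  have hcancel : ∀ A B : Matrix (Fin n) (Fin n) L,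
      A.map (algebraMap L M) * vdm l = B.map (algebraMap L M) * vdm l → A = B := by
    intro A B hAB
    have h1 := congrArg (fun z => z * V') hAB
    simp only [mul_assoc, hV', mul_one] at h1
    exact map_inj_of_field h1
  refine ⟨Φ, ?_, ?_, ?_, ?_, ?_⟩
  · intro g g' hg hg'
    refine hcancel _ _ ?_
    rw [hΦV _ (hg.mul hg')]
    have h1 : (Φ g * Φ g').map (algebraMap L M) =
        (Φ g).map (algebraMap L M) * (Φ g').map (algebraMap L M) := by
      exact map_mul (algebraMap L M).mapMatrix (Φ g) (Φ g')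
    rw [h1, mul_assoc, hΦV g' hg', ← mul_assoc, hΦV g hg, mul_assoc,
      Matrix.diagonal_mul_diagonal]
    congr 2
    funext i
    exact hρ2 g g' hg hg' i
  · intro g g' hg hg'
    refine hcancel _ _ ?_
    rw [hΦV _ (hg.add hg')]
    have h1 : (Φ g + Φ g').map (algebraMap L M) =
        (Φ g).map (algebraMap L M) + (Φ g').map (algebraMap L M) := by
      exact map_add (algebraMap L M).mapMatrix (Φ g) (Φ g')
    rw [h1, add_mul, hΦV g' hg', hΦV g hg, ← mul_add, Matrix.diagonal_add]
    congr 2
    funext i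
    exact hρ3 g g' hg hg' i
  · intro a
    refine hcancel _ _ ?_
    rw [hΦV _ (cm_algebraMap f a)]
    have h1 : (algebraMap K (Matrix (Fin n) (Fin n) L) a).map (algebraMap L M) =
        diagonal fun _ => algebraMap K M a := by
      rw [Matrix.algebraMap_eq_diagonal, Matrix.diagonal_map (map_zero _)]
      congr 1
    rw [h1]
    have h2 : ρ (algebraMap K (FreeAlgebra K σ) a) = fun _ => algebraMap K M a := by
      funext i
      exact hρ4 a i
    rw [h2]
    have h4 := (Matrix.scalar_commute (algebraMap K M a) (fun _ => Commute.all _ _) (vdm l)).eq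
    rw [Matrix.scalar_apply] at h4
    exact h4.symm
  · intro g _
    exact Polynomial.aeval_mem_adjoin_singleton L _
  · intro g hg
    refine Polynomial.map_injective (algebraMap L M) (algebraMap L M).injective ?_
    rw [← Matrix.charpoly_map, charpoly_of_diag hV (hΦV g hg), hρ1 g hg]

theorem kummer_spec {K : Type u} [Field K] [Infinite K] {σ : Type v} {n : ℕ} (hn : n.Prime)
    (hnK : (n : K) ≠ 0) {f : FreeAlgebra K σ} {c : PF K σ n} (hc : c ≠ 0)
    (hF : (FreeAlgebra.lift K (CZ.gen K σ n) f).charpoly = Polynomial.X ^ n - Polynomial.C c)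
    {L : Type w} [Field L] [Algebra K L] (X : σ → Matrix (Fin n) (Fin n) L) :
    ∃ d : L, d ≠ 0 ∧
      (∃ Φ : FreeAlgebra K σ → Matrix (Fin n) (Fin n) L,
        (∀ g g', cm K n f g → cm K n f g' → Φ (g * g') = Φ g * Φ g') ∧
        (∀ g g', cm K n f g → cm K n f g' → Φ (g + g') = Φ g + Φ g') ∧
        (∀ a, Φ (algebraMap K (FreeAlgebra K σ) a) = algebraMap K _ a) ∧
        (∀ g, cm K n f g → Φ g ∈ Algebra.adjoin L {kum n d}) ∧
        ∀ g, cm K n f g → (Φ g).charpoly = (FreeAlgebra.lift K X g).charpoly) ∧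
      ∀ g : FreeAlgebra K σ, cm K n f g →
      Group.IsSolvable (FreeAlgebra.lift K X g).charpoly.Gal ∧
      ∀ ζ : L, IsPrimitiveRoot ζ n → (FreeAlgebra.lift K X g).charpoly.Splits ∨
        (Irreducible (FreeAlgebra.lift K X g).charpoly ∧
          Nat.card (FreeAlgebra.lift K X g).charpoly.Gal = n) := by
  have hnL : (n : L) ≠ 0 := by
    have := (algebraMap K L).injective.ne hnK
    rwa [map_natCast, map_zero] at this
  obtain ⟨Z, k, q, hq, hcu⟩ := exists_curve hc X
  refine ⟨q.eval 0, hq, ?_, ?_⟩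
  · set d := q.eval 0 with hd
    obtain ⟨ζ, v, hζ, hv⟩ := exists_kummer hn hnL hq
    exact kummer_hom hn hnK hF X Z k q hq hcu hζ hv
  · intro g hg
    set d := q.eval 0 with hd
    have key : ∀ (M : Type w) [Field M] [Algebra L M] (ζ v : M), IsPrimitiveRoot ζ n →
        v ^ n = algebraMap L M d →
        ((FreeAlgebra.lift K X g).charpoly.map (algebraMap L M)).Splits := by
      intro M _ _ ζ v hζ hv
      let _ : Algebra K M := ((algebraMap L M).comp (algebraMap K L)).toAlgebra
      have : IsScalarTower K L M := IsScalarTower.of_algebraMap_eq fun _ => rfl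
      obtain ⟨ρ, hρ⟩ := roots_curve hn hnK hF X Z k q hq hcu hg hζ hv
      rw [hρ]
      exact Polynomial.Splits.prod fun i _ => Polynomial.Splits.X_sub_C _
    have hdeg : (FreeAlgebra.lift K X g).charpoly.natDegree = n := by
      rw [Matrix.charpoly_natDegree_eq_dim, Fintype.card_fin]
    have hsplit : ((FreeAlgebra.lift K X g).charpoly.map
        (algebraMap L (Polynomial.X ^ n - Polynomial.C d : Polynomial L).SplittingField)).Splits := by
      obtain ⟨ζ, v, hζ, hv⟩ := exists_kummer hn hnL hq
      exact key _ ζ v hζ hv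
    refine ⟨gal_isSolvable_of_splits ⟨hsplit⟩ (gal_X_pow_sub_C_isSolvable n d), ?_⟩
    intro ζ hζ
    by_cases hv : ∃ v : L, v ^ n = d
    · left
      obtain ⟨v, hv⟩ := hv
      have h1 := key L ζ v hζ hv
      rwa [Algebra.algebraMap_self, Polynomial.map_id] at h1
    · push Not at hv
      have hirr := X_pow_sub_C_irreducible_of_prime hn hv
      have hne : (primitiveRoots n L).Nonempty := ⟨ζ, (mem_primitiveRoots hn.pos).2 hζ⟩
      have : IsGalois L (Polynomial.X ^ n - Polynomial.C d : Polynomial L).SplittingField :=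
        isGalois_of_isSplittingField_X_pow_sub_C hne hirr _
      exact split_or_cyclic_of_finrank hn (Matrix.charpoly_monic _) hdeg _
        (finrank_of_isSplittingField_X_pow_sub_C hne hirr _) hsplit

end Pool.Agent.U605.CZ
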