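import Pool.Agent.U605.CZ.G6

/-!
# Tuples with an invariant subspace
-/

set_option autoImplicit false

namespace Pool.Agent.U605.CZ

open Matrix

section blocks

variable {K : Type*} [Field K] {σ : Type*} {A : Type*} [CommRing A] [Algebra K A] {ι κ : Type*}
  [Fintype ι] [Fintype κ] [DecidableEq ι] [DecidableEq κ]

theorem lift_upper (U : σ → Matrix ι ι A) (T : σ → Matrix ι κ A) (V : σ → Matrix κ κ A)
    (g : FreeAlgebra K σ) :
    ∃ W : Matrix ι κ A, FreeAlgebra.lift K (fun s => Matrix.fromBlocks (U s) (T s) 0 (V s)) g =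
      Matrix.fromBlocks (FreeAlgebra.lift K U g) W 0 (FreeAlgebra.lift K V g) := by
  induction g using FreeAlgebra.induction with
  | grade0 c =>
    refine ⟨0, ?_⟩
    rw [AlgHom.commutes, AlgHom.commutes, AlgHom.commutes]
    ext i j
    rcases i with i | i <;> rcases j with j | j <;>
      simp [Matrix.algebraMap_matrix_apply]
  | grade1 s =>
    exact ⟨T s, by rw [FreeAlgebra.lift_ι_apply, FreeAlgebra.lift_ι_apply, FreeAlgebra.lift_ι_apply]⟩
  | mul a b ha hb =>
    obtain ⟨Wa, ha⟩ := ha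
    obtain ⟨Wb, hb⟩ := hb
    refine ⟨FreeAlgebra.lift K U a * Wb + Wa * FreeAlgebra.lift K V b, ?_⟩
    rw [map_mul, map_mul, map_mul, ha, hb, Matrix.fromBlocks_multiply]
    simp
  | add a b ha hb =>
    obtain ⟨Wa, ha⟩ := ha
    obtain ⟨Wb, hb⟩ := hb
    refine ⟨Wa + Wb, ?_⟩
    rw [map_add, map_add, map_add, ha, hb, Matrix.fromBlocks_add]
    simp

end blocks

theorem exists_blocks {K : Type*} [Field K] {σ : Type*} {L : Type*} [Field L] [Algebra K L] {n : ℕ}
    (X : σ → Matrix (Fin n) (Fin n) L) (g : FreeAlgebra K σ) (W : Submodule L (Fin n → L))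
    (hW : ∀ s, ∀ w ∈ W, X s *ᵥ w ∈ W) (hW0 : W ≠ ⊥) (hW1 : W ≠ ⊤) :
    ∃ d e : ℕ, 0 < d ∧ 0 < e ∧ d + e = n ∧ ∃ (U : σ → Matrix (Fin d) (Fin d) L)
      (V : σ → Matrix (Fin e) (Fin e) L), (FreeAlgebra.lift K X g).charpoly =
        (FreeAlgebra.lift K U g).charpoly * (FreeAlgebra.lift K V g).charpoly := by
  obtain ⟨W', hcompl⟩ := W.exists_isCompl
  set d := Module.finrank L W with hd
  set e := Module.finrank L W' with he
  have hde : d + e = n := by
    have := Submodule.finrank_add_eq_of_isCompl hcompl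
    rw [Module.finrank_fin_fun] at this
    exact this
  have hd0 : 0 < d := by
    rw [hd]
    exact Submodule.one_le_finrank_iff.2 hW0
  have hdn : d < n := by
    have := Submodule.finrank_lt hW1
    rwa [Module.finrank_fin_fun] at this
  refine ⟨d, e, hd0, by omega, hde, ?_⟩
  let bW := Module.finBasis L W
  let bW' := Module.finBasis L W'
  let b : Module.Basis (Fin d ⊕ Fin e) L (Fin n → L) :=
    (bW.prod bW').map (Submodule.prodEquivOfIsCompl W W' hcompl)
  let Φ : Matrix (Fin n) (Fin n) L ≃ₐ[L] Matrix (Fin d ⊕ Fin e) (Fin d ⊕ Fin e) L :=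
    Matrix.toLinAlgEquiv'.trans (LinearMap.toMatrixAlgEquiv b)
  have hb : ∀ j : Fin d, b (Sum.inl j) = (bW j : Fin n → L) := by
    intro j
    simp [b]
  have hrepr : ∀ w ∈ W, ∀ i : Fin e, b.repr w (Sum.inr i) = 0 := by
    intro w hw i
    have h1 : (Submodule.prodEquivOfIsCompl W W' hcompl).symm w = (⟨w, hw⟩, 0) := by
      rw [LinearEquiv.symm_apply_eq]
      simp
    simp [b, Module.Basis.prod, h1]
  have hzero : ∀ s (i : Fin e) (j : Fin d), Φ (X s) (Sum.inr i) (Sum.inl j) = 0 := by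
    intro s i j
    have h1 : Φ (X s) (Sum.inr i) (Sum.inl j) =
        b.repr (Matrix.toLin' (X s) (b (Sum.inl j))) (Sum.inr i) := by
      simp only [Φ, AlgEquiv.trans_apply, LinearMap.toMatrixAlgEquiv_apply]
      rfl
    rw [h1, Matrix.toLin'_apply, hb]
    exact hrepr _ (hW s _ (bW j).2) i
  have hΦX : ∀ s, Φ (X s) = Matrix.fromBlocks (Φ (X s)).toBlocks₁₁ (Φ (X s)).toBlocks₁₂ 0
      (Φ (X s)).toBlocks₂₂ := by
    intro s
    conv_lhs => rw [← Matrix.fromBlocks_toBlocks (Φ (X s))]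
    congr 1
    ext i j
    exact hzero s i j
  refine ⟨fun s => (Φ (X s)).toBlocks₁₁, fun s => (Φ (X s)).toBlocks₂₂, ?_⟩
  obtain ⟨Y, hY⟩ := lift_upper (K := K) (fun s => (Φ (X s)).toBlocks₁₁)
    (fun s => (Φ (X s)).toBlocks₁₂) (fun s => (Φ (X s)).toBlocks₂₂) g
  have h1 : (fun s => Matrix.fromBlocks (Φ (X s)).toBlocks₁₁ (Φ (X s)).toBlocks₁₂ 0
      (Φ (X s)).toBlocks₂₂) = fun s => Φ (X s) := by
    funext s
    exact (hΦX s).symm
  rw [h1] at hY
  have h2 : Φ (FreeAlgebra.lift K X g) = FreeAlgebra.lift K (fun s => Φ (X s)) g :=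
    Pool.Agent.H552R3.PC.lift_map (Φ.toAlgHom.restrictScalars K) X g
  have h3 : (Φ (FreeAlgebra.lift K X g)).charpoly = (FreeAlgebra.lift K X g).charpoly := by
    have h4 : Φ (FreeAlgebra.lift K X g) =
        LinearMap.toMatrix b b (Matrix.toLin' (FreeAlgebra.lift K X g)) := rfl
    rw [h4, LinearMap.charpoly_toMatrix, Matrix.charpoly_toLin']
  rw [← h3, h2, hY, Matrix.charpoly_fromBlocks_zero₂₁]

/-- polynomials commuting with an `n`-central polynomial have inseparable characteristic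
polynomials at reducible tuples -/
theorem irreducible_of_separable {K : Type*} [Field K] [Infinite K] {σ : Type*} {n : ℕ}
    (hn : n.Prime) (hn2 : n ≠ 2) (hnK : (n : K) ≠ 0) (hnK1 : ((n - 1 : ℕ) : K) ≠ 0)
    {f g : FreeAlgebra K σ} {c : PF K σ n} (hc : c ≠ 0)
    (hF : (FreeAlgebra.lift K (CZ.gen K σ n) f).charpoly = Polynomial.X ^ n - Polynomial.C c)
    (hGF : FreeAlgebra.lift K (CZ.gen K σ n) g * FreeAlgebra.lift K (CZ.gen K σ n) f =
      FreeAlgebra.lift K (CZ.gen K σ n) f * FreeAlgebra.lift K (CZ.gen K σ n) g)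
    {L : Type*} [Field L] [Algebra K L] (X : σ → Matrix (Fin n) (Fin n) L)
    (hX : (FreeAlgebra.lift K X g).charpoly.Separable) (W : Submodule L (Fin n → L))
    (hW : ∀ s, ∀ w ∈ W, X s *ᵥ w ∈ W) : W = ⊥ ∨ W = ⊤ := by
  by_contra hcon
  push Not at hcon
  obtain ⟨d, e, hd0, he0, hde, U, V, hUV⟩ := exists_blocks X g W hW hcon.1 hcon.2
  rw [hUV] at hX
  set Ω := AlgebraicClosure L
  have hn3 : 3 ≤ n := by have := hn.two_le; omega
  have hKΩ : Function.Injective (algebraMap K Ω) := (algebraMap K Ω).injective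
  have hcastΩ : ∀ m : ℕ, (m : K) ≠ 0 → (m : Ω) ≠ 0 := by
    intro m hm
    have := hKΩ.ne hm
    rwa [map_natCast, map_zero] at this
  have key : ∀ (d e : ℕ), 2 ≤ d → 0 < e → d + e = n → (d : K) ≠ 0 →
      ∀ (U : σ → Matrix (Fin d) (Fin d) L) (V : σ → Matrix (Fin e) (Fin e) L),
      ((FreeAlgebra.lift K U g).charpoly * (FreeAlgebra.lift K V g).charpoly).Separable →
        False := by
    intro d e hd2 he0 hde hdK U V hsep
    subst hde
    have : NeZero d := ⟨by omega⟩
    obtain ⟨c', hc', hF', hGF'⟩ := gen_facts_L (L := Ω) hc hF hGF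
    refine core hd2 he0 hn (hcastΩ _ hnK) (hcastΩ _ hdK) hc' hF' hGF'
      (fun s => (U s).map (algebraMap L Ω)) (fun s => (V s).map (algebraMap L Ω)) ?_
    have h1 : ∀ {m : ℕ} (U : σ → Matrix (Fin m) (Fin m) L),
        (FreeAlgebra.lift K (fun s => (U s).map (algebraMap L Ω)) g).charpoly =
          (FreeAlgebra.lift K U g).charpoly.map (algebraMap L Ω) := by
      intro m U
      rw [← Matrix.charpoly_map]
      congr 1
      exact (Pool.Agent.H552R3.PC.lift_map
        (((Algebra.ofId L Ω).restrictScalars K).mapMatrix (m := Fin m)) U g).symm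
    rw [h1, h1, ← Polynomial.map_mul]
    exact hsep.map
  by_cases hd : 2 ≤ d ∧ (d : K) ≠ 0
  · exact key d e hd.1 he0 hde hd.2 U V hX
  · have he : 2 ≤ e ∧ (e : K) ≠ 0 := by
      by_cases hd1 : d = 1
      · subst hd1
        have : e = n - 1 := by omega
        rw [this]
        exact ⟨by omega, hnK1⟩
      · have hdK : (d : K) = 0 := by
          by_contra h
          exact hd ⟨by omega, h⟩
        have heK : (e : K) ≠ 0 := by
          intro h
          apply hnK
          rw [← hde]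
          push_cast
          rw [hdK, h, add_zero]
        refine ⟨?_, heK⟩
        by_contra h
        have : d = n - 1 := by omega
        rw [this] at hdK
        exact hnK1 hdK
    exact key e d he.1 hd0 (by omega) he.2 V U (by rw [mul_comm]; exact hX)

end Pool.Agent.U605.CZ
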