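import Mathlib

/-!
# Gram matrices of the powers of a matrix commuting with a Kummer element
-/

set_option autoImplicit false

namespace Pool.Agent.U605.CZ

open Matrix Polynomial

variable {n : ℕ}

/-- diagonalisation of a matrix with `n` distinct eigenvalues -/
theorem exists_diag {Ω : Type*} [Field Ω] (A : Matrix (Fin n) (Fin n) Ω) (l : Fin n → Ω)
    (hl : Function.Injective l) (h : ∀ i, A.charpoly.IsRoot (l i)) :
    ∃ S : Matrix (Fin n) (Fin n) Ω, IsUnit S ∧ A * S = S * diagonal l := by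
  have h1 : ∀ i, ∃ v : Fin n → Ω, v ≠ 0 ∧ A *ᵥ v = l i • v := by
    intro i
    have h2 : (Matrix.scalar (Fin n) (l i) - A).det = 0 := by
      have := h i
      rwa [IsRoot.def, Matrix.eval_charpoly] at this
    obtain ⟨v, hv, hv2⟩ := Matrix.exists_mulVec_eq_zero_iff.2 h2
    refine ⟨v, hv, ?_⟩
    rw [Matrix.sub_mulVec] at hv2
    rw [(sub_eq_zero.1 hv2).symm]
    ext j
    simp [Matrix.scalar_apply, Matrix.mulVec_diagonal]
  choose v hv0 hv using h1
  have hli : LinearIndependent Ω v := by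
    refine Module.End.eigenvectors_linearIndependent' (Matrix.toLin' A) l hl v fun i => ?_
    refine ⟨Module.End.mem_eigenspace_iff.2 ?_, hv0 i⟩
    rw [Matrix.toLin'_apply, hv i]
  refine ⟨(Matrix.of v)ᵀ, ?_, ?_⟩
  · rw [Matrix.isUnit_transpose]
    exact Matrix.linearIndependent_rows_iff_isUnit.1 hli
  · ext i j
    rw [Matrix.mul_diagonal, Matrix.mul_apply]
    have := congrFun (hv j) i
    rw [Matrix.mulVec, dotProduct] at this
    simp only [Matrix.transpose_apply, Matrix.of_apply]
    rw [this, Pi.smul_apply, smul_eq_mul, mul_comm]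

/-- a matrix commuting with a diagonalised matrix with distinct eigenvalues is diagonalised too -/
theorem comm_diag {Ω : Type*} [Field Ω] {F G S : Matrix (Fin n) (Fin n) Ω} {l : Fin n → Ω}
    (hl : Function.Injective l) (hS : IsUnit S) (hF : F * S = S * diagonal l)
    (hFG : G * F = F * G) : ∃ r : Fin n → Ω, G * S = S * diagonal r := by
  obtain ⟨u, rfl⟩ := hS
  set T : Matrix (Fin n) (Fin n) Ω := ↑u⁻¹ with hT
  have h1 : T * u = 1 := u.inv_mul
  have h2 : (u : Matrix (Fin n) (Fin n) Ω) * T = 1 := u.mul_inv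
  set D := T * (G * u) with hD
  have h3 : diagonal l = T * (F * u) := by rw [hF, ← mul_assoc, h1, one_mul]
  have h4 : diagonal l * D = D * diagonal l := by
    rw [hD, h3]
    calc T * (F * u) * (T * (G * u)) = T * F * (u * T) * G * u := by noncomm_ring
      _ = T * (G * F) * u := by rw [h2, hFG]; noncomm_ring
      _ = T * G * (u * T) * F * u := by rw [h2]; noncomm_ring
      _ = T * (G * u) * (T * (F * u)) := by noncomm_ring
  refine ⟨fun i => D i i, ?_⟩
  have h5 : D = diagonal fun i => D i i := by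
    ext i j
    by_cases hij : i = j
    · subst hij; simp
    · rw [Matrix.diagonal_apply_ne _ hij]
      have h6 := congrFun (congrFun h4 i) j
      rw [Matrix.diagonal_mul, Matrix.mul_diagonal] at h6
      have h7 : (l i - l j) * D i j = 0 := by rw [sub_mul, h6]; ring
      exact (mul_eq_zero.1 h7).resolve_left (sub_ne_zero.2 (hl.ne hij))
  rw [← h5, hD, ← mul_assoc, h2, one_mul]

theorem pow_diag {Ω : Type*} [CommRing Ω] {G S : Matrix (Fin n) (Fin n) Ω} {r : Fin n → Ω}
    (hG : G * S = S * diagonal r) (a : ℕ) : G ^ a * S = S * diagonal (fun i => r i ^ a) := by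
  induction a with
  | zero => simp [← Pi.one_def]
  | succ a ih =>
    rw [pow_succ, mul_assoc, hG, ← mul_assoc, ih, mul_assoc, Matrix.diagonal_mul_diagonal]
    congr 2
    funext i
    rw [pow_succ]

theorem mul_diag {Ω : Type*} [CommRing Ω] {F G S : Matrix (Fin n) (Fin n) Ω} {r s : Fin n → Ω}
    (hG : G * S = S * diagonal r) (hF : F * S = S * diagonal s) :
    G * F * S = S * diagonal (fun i => r i * s i) := by
  rw [mul_assoc, hF, ← mul_assoc, hG, mul_assoc, Matrix.diagonal_mul_diagonal]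

theorem trace_diag {Ω : Type*} [CommRing Ω] {G S : Matrix (Fin n) (Fin n) Ω} {r : Fin n → Ω}
    (hS : IsUnit S) (hG : G * S = S * diagonal r) : G.trace = ∑ i, r i := by
  obtain ⟨u, rfl⟩ := hS
  have h1 : G = u * diagonal r * (↑u⁻¹ : Matrix (Fin n) (Fin n) Ω) := by
    rw [← hG, mul_assoc, u.mul_inv, mul_one]
  rw [h1, Matrix.trace_mul_comm, ← mul_assoc, u.inv_mul, one_mul, Matrix.trace_diagonal]

theorem eq_of_diag {Ω : Type*} [CommRing Ω] {F G S : Matrix (Fin n) (Fin n) Ω}
    (hS : IsUnit S) (h : G * S = F * S) : G = F := by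
  obtain ⟨u, rfl⟩ := hS
  have := congrArg (· * (↑u⁻¹ : Matrix (Fin n) (Fin n) Ω)) h
  simpa [mul_assoc] using this

/-- orthogonality for the `n`-th roots of a number -/
theorem orth {Ω : Type*} [Field Ω] {l : Fin n → Ω} (hl : Function.Injective l) {c : Ω}
    (hc : ∀ i, l i ^ n = c) (i j : Fin n) :
    ∑ k : Fin n, l i ^ (n - (k : ℕ)) * l j ^ (k : ℕ) = if i = j then (n : Ω) * c else 0 := by
  split_ifs with hij
  · subst hij
    have : ∀ k : Fin n, l i ^ (n - (k : ℕ)) * l i ^ (k : ℕ) = c := by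
      intro k
      rw [← pow_add, Nat.sub_add_cancel k.2.le, hc]
    rw [Finset.sum_congr rfl fun k _ => this k, Finset.sum_const, Finset.card_univ,
      Fintype.card_fin, nsmul_eq_mul]
  · have h1 : ∑ k : Fin n, l i ^ (n - (k : ℕ)) * l j ^ (k : ℕ) =
        l i * ∑ k ∈ Finset.range n, l j ^ k * l i ^ (n - 1 - k) := by
      rw [Finset.mul_sum, Finset.sum_range]
      refine Finset.sum_congr rfl fun k _ => ?_
      have : n - (k : ℕ) = (n - 1 - (k : ℕ)) + 1 := by have := k.2; omega
      rw [this, pow_succ]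
      ring
    rw [h1]
    have h2 : (∑ k ∈ Finset.range n, l j ^ k * l i ^ (n - 1 - k)) * (l j - l i) = 0 := by
      rw [(Commute.all (l j) (l i)).geom_sum₂_mul, hc, hc, sub_self]
    rw [(mul_eq_zero.1 h2).resolve_right (sub_ne_zero.2 (hl.ne (Ne.symm hij))), mul_zero]

/-- the Gram matrix of the powers of `G` for the trace form -/
def gram {R : Type*} [CommRing R] (G : Matrix (Fin n) (Fin n) R) : Matrix (Fin n) (Fin n) R :=
  Matrix.of fun a b => (G ^ ((a : ℕ) + b)).trace

/-- the mixed Gram matrix -/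
def mixed {R : Type*} [CommRing R] (G F : Matrix (Fin n) (Fin n) R) : Matrix (Fin n) (Fin n) R :=
  Matrix.of fun a k => (G ^ (a : ℕ) * F ^ (n - (k : ℕ))).trace

theorem expand_field {Ω : Type*} [Field Ω] {F G S : Matrix (Fin n) (Fin n) Ω} {l r : Fin n → Ω}
    (hl : Function.Injective l) {c : Ω} (hc : ∀ i, l i ^ n = c) (hS : IsUnit S)
    (hF : F * S = S * diagonal l) (hG : G * S = S * diagonal r) :
    ((n : Ω) * c) • G = ∑ k : Fin n, (G * F ^ (n - (k : ℕ))).trace • F ^ (k : ℕ) := by
  refine eq_of_diag hS ?_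
  have h1 : ∀ k : Fin n, (G * F ^ (n - (k : ℕ))).trace = ∑ j, r j * l j ^ (n - (k : ℕ)) :=
    fun k => trace_diag hS (mul_diag hG (pow_diag hF _))
  rw [Matrix.smul_mul, hG, Finset.sum_mul]
  have h2 : ∀ k : Fin n, ((G * F ^ (n - (k : ℕ))).trace • F ^ (k : ℕ)) * S =
      S * diagonal (fun i => (∑ j, r j * l j ^ (n - (k : ℕ))) * l i ^ (k : ℕ)) := by
    intro k
    rw [Matrix.smul_mul, pow_diag hF, h1, ← Matrix.mul_smul, ← Matrix.diagonal_smul]
    rfl
  rw [Finset.sum_congr rfl fun k _ => h2 k, ← Finset.mul_sum, ← Matrix.mul_smul,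
    ← Matrix.diagonal_smul]
  congr 1
  ext i j
  rw [Matrix.sum_apply]
  by_cases hij : i = j
  · subst hij
    simp only [Matrix.diagonal_apply_eq, Pi.smul_apply, smul_eq_mul]
    symm
    calc ∑ k : Fin n, (∑ j, r j * l j ^ (n - (k : ℕ))) * l i ^ (k : ℕ)
        = ∑ j, r j * ∑ k : Fin n, l j ^ (n - (k : ℕ)) * l i ^ (k : ℕ) := by
          simp only [Finset.sum_mul, Finset.mul_sum]
          rw [Finset.sum_comm]
          refine Finset.sum_congr rfl fun j _ => Finset.sum_congr rfl fun k _ => by ring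
      _ = ∑ j, r j * (if j = i then (n : Ω) * c else 0) := by
          refine Finset.sum_congr rfl fun j _ => by rw [orth hl hc]
      _ = (n : Ω) * c * r i := by
          simp [mul_comm]
  · simp [Matrix.diagonal_apply_ne _ hij]

theorem gram_field {Ω : Type*} [Field Ω] {F G S : Matrix (Fin n) (Fin n) Ω} {l r : Fin n → Ω}
    (hl : Function.Injective l) {c : Ω} (hc : ∀ i, l i ^ n = c) (hS : IsUnit S)
    (hF : F * S = S * diagonal l) (hG : G * S = S * diagonal r) :
    ((n : Ω) * c) ^ (2 * n) * (gram G).det = (mixed G F).det ^ 2 * (gram F).det := by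
  set P : Matrix (Fin n) (Fin n) Ω := Matrix.of fun a i => r i ^ (a : ℕ) with hP
  set Q : Matrix (Fin n) (Fin n) Ω := Matrix.of fun a i => l i ^ (a : ℕ) with hQ
  set Q' : Matrix (Fin n) (Fin n) Ω := Matrix.of fun a i => l i ^ (n - (a : ℕ)) with hQ'
  have e1 : gram G = P * Pᵀ := by
    ext a b
    rw [gram, Matrix.of_apply, trace_diag hS (pow_diag hG _), Matrix.mul_apply]
    refine Finset.sum_congr rfl fun i _ => ?_
    simp [hP, pow_add]
  have e2 : gram F = Q * Qᵀ := by
    ext a b
    rw [gram, Matrix.of_apply, trace_diag hS (pow_diag hF _), Matrix.mul_apply]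
    refine Finset.sum_congr rfl fun i _ => ?_
    simp [hQ, pow_add]
  have e3 : mixed G F = P * Q'ᵀ := by
    ext a b
    rw [mixed, Matrix.of_apply, trace_diag hS (mul_diag (pow_diag hG _) (pow_diag hF _)),
      Matrix.mul_apply]
    refine Finset.sum_congr rfl fun i _ => ?_
    simp [hP, hQ']
  have e4 : Q'ᵀ * Q = ((n : Ω) * c) • (1 : Matrix (Fin n) (Fin n) Ω) := by
    ext i j
    rw [Matrix.mul_apply]
    have := orth hl hc i j
    simp only [hQ, hQ', Matrix.transpose_apply, Matrix.of_apply]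
    rw [this, Matrix.smul_apply, Matrix.one_apply]
    split_ifs <;> simp
  have e5 : (Q'ᵀ).det * Q.det = ((n : Ω) * c) ^ n := by
    rw [← Matrix.det_mul, e4, Matrix.det_smul, Matrix.det_one, mul_one, Fintype.card_fin]
  rw [e1, e2, e3]
  simp only [Matrix.det_mul, Matrix.det_transpose]
  rw [Matrix.det_transpose] at e5
  calc ((n : Ω) * c) ^ (2 * n) * (P.det * P.det) = (Q'.det * Q.det) ^ 2 * (P.det * P.det) := by
        rw [e5, ← pow_mul, mul_comm n 2]
    _ = (P.det * Q'.det) ^ 2 * (Q.det * Q.det) := by ring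

end Pool.Agent.U605.CZ
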