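import Pool.Agent.U605.CZ.Dom
import Pool.Agent.H552R3.PC.Quant3

/-!
# Generic matrices
-/

set_option autoImplicit false

namespace Pool.Agent.U605.CZ

open Matrix

universe u v

variable {K : Type u} [Field K] {σ : Type v} {n : ℕ}

/-- the polynomial functions on tuples of matrices -/
abbrev PF (K : Type u) [Field K] (σ : Type v) (n : ℕ) := MvPolynomial (σ × Fin n × Fin n) K

/-- the generic matrices -/
noncomputable def gen (K : Type u) [Field K] (σ : Type v) (n : ℕ) (s : σ) :
    Matrix (Fin n) (Fin n) (PF K σ n) :=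
  Matrix.of fun i j => MvPolynomial.X (s, i, j)

/-- the value of a polynomial function at a tuple of matrices over a commutative algebra -/
noncomputable def ev {A : Type*} [CommRing A] [Algebra K A] (X : σ → Matrix (Fin n) (Fin n) A) :
    PF K σ n →ₐ[K] A :=
  MvPolynomial.aeval fun q => X q.1 q.2.1 q.2.2

theorem ev_gen {A : Type*} [CommRing A] [Algebra K A] (X : σ → Matrix (Fin n) (Fin n) A)
    (p : FreeAlgebra K σ) :
    (ev X).mapMatrix (FreeAlgebra.lift K (gen K σ n) p) = FreeAlgebra.lift K X p := by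
  have h : ((ev X).mapMatrix (m := Fin n)).comp (FreeAlgebra.lift K (gen K σ n)) =
      FreeAlgebra.lift K X := by
    refine FreeAlgebra.hom_ext ?_
    funext s
    ext i j
    simp [gen, ev]
  exact DFunLike.congr_fun h p

theorem ev_eval (X : σ → Matrix (Fin n) (Fin n) K) (r : PF K σ n) :
    ev X r = MvPolynomial.eval (fun q => X q.1 q.2.1 q.2.2) r := by
  exact DFunLike.congr_fun (MvPolynomial.coe_aeval_eq_eval _) r

theorem ev_smul {A : Type*} [CommRing A] [Algebra K A] (X : σ → Matrix (Fin n) (Fin n) A)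
    (t : PF K σ n) (M : Matrix (Fin n) (Fin n) (PF K σ n)) :
    (ev X).mapMatrix (t • M) = ev X t • (ev X).mapMatrix M := by
  ext i j
  simp

theorem eq_of_ev [Infinite K] {r s : PF K σ n}
    (h : ∀ X : σ → Matrix (Fin n) (Fin n) K, ev X r = ev X s) : r = s := by
  refine MvPolynomial.funext fun x => ?_
  have := h fun s => Matrix.of fun i j => x (s, i, j)
  rw [ev_eval, ev_eval] at this
  exact this

theorem mat_eq_of_ev [Infinite K] {M N : Matrix (Fin n) (Fin n) (PF K σ n)}
    (h : ∀ X : σ → Matrix (Fin n) (Fin n) K, (ev X).mapMatrix M = (ev X).mapMatrix N) :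
    M = N := by
  ext1 i j
  refine eq_of_ev fun X => ?_
  exact congrFun (congrFun (h X) i) j

/-- the constant `n* = (-1) ^ ((n - 1) / 2) n` -/
def nstar (R : Type*) [CommRing R] (n : ℕ) : R := (-1) ^ ((n - 1) / 2) * n

theorem main_gen [Infinite K] (hn : n.Prime) (hn2 : n ≠ 2) (hnK : (n : K) ≠ 0)
    (f g : FreeAlgebra K σ)
    (h : ∀ X : σ → Matrix (Fin n) (Fin n) K, ∀ Z : Matrix (Fin n) (Fin n) K,
      FreeAlgebra.lift K X (f ^ n) * Z = Z * FreeAlgebra.lift K X (f ^ n))
    (hne : ∃ X : σ → Matrix (Fin n) (Fin n) K, ∃ Z : Matrix (Fin n) (Fin n) K,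
      FreeAlgebra.lift K X f * Z ≠ Z * FreeAlgebra.lift K X f)
    (h0 : ∃ X : σ → Matrix (Fin n) (Fin n) K, FreeAlgebra.lift K X (f ^ n) ≠ 0)
    (hfg : ∀ X : σ → Matrix (Fin n) (Fin n) K,
      FreeAlgebra.lift K X g * FreeAlgebra.lift K X f =
        FreeAlgebra.lift K X f * FreeAlgebra.lift K X g) :
    (∀ X : σ → Matrix (Fin n) (Fin n) K,
      (FreeAlgebra.lift K X f ^ n).trace • FreeAlgebra.lift K X g =
        ∑ k : Fin n, (FreeAlgebra.lift K X g * FreeAlgebra.lift K X f ^ (n - (k : ℕ))).trace •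
          FreeAlgebra.lift K X f ^ (k : ℕ)) ∧
    ∃ δ : PF K σ n, (gram (FreeAlgebra.lift K (gen K σ n) g)).det =
      MvPolynomial.C (nstar K n) * δ ^ 2 := by
  have hodd : Odd n := hn.odd_of_ne_two hn2
  set F := FreeAlgebra.lift K (gen K σ n) f with hF
  set G := FreeAlgebra.lift K (gen K σ n) g with hG
  have hcoef : ∀ i, 0 < i → i < n → F.charpoly.coeff i = 0 := by
    intro i hi hin
    refine eq_of_ev fun X => ?_
    obtain ⟨d, hd⟩ := Pool.Agent.H552R3.PC.charpoly_of_ncentral hn hnK f h hne X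
    have h1 := Matrix.charpoly_map F ((ev X : PF K σ n →ₐ[K] K) : PF K σ n →+* K)
    have h2 : F.map ((ev X : PF K σ n →ₐ[K] K) : PF K σ n →+* K) = FreeAlgebra.lift K X f :=
      ev_gen X f
    rw [h2, hd] at h1
    have h3 := congrArg (fun q => Polynomial.coeff q i) h1
    simp only [Polynomial.coeff_map, Polynomial.coeff_sub, Polynomial.coeff_X_pow,
      Polynomial.coeff_C, if_neg hin.ne, if_neg hi.ne', sub_zero] at h3
    rw [map_zero]
    exact h3.symm
  set c : PF K σ n := -F.charpoly.coeff 0 with hc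
  have hchar : F.charpoly = Polynomial.X ^ n - Polynomial.C c := by
    have hdeg : F.charpoly.natDegree = n := by
      rw [Matrix.charpoly_natDegree_eq_dim, Fintype.card_fin]
    have hmon := Matrix.charpoly_monic F
    ext1 i
    rw [Polynomial.coeff_sub, Polynomial.coeff_X_pow, Polynomial.coeff_C]
    rcases Nat.eq_zero_or_pos i with rfl | hi
    · rw [if_neg hn.ne_zero.symm, if_pos rfl, hc]; ring
    · rw [if_neg hi.ne', sub_zero]
      rcases lt_trichotomy i n with h1 | h1 | h1
      · rw [hcoef i hi h1, if_neg h1.ne]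
      · rw [if_pos h1, h1]
        rw [Polynomial.Monic, Polynomial.leadingCoeff, hdeg] at hmon
        exact hmon
      · rw [if_neg h1.ne']
        exact Polynomial.coeff_eq_zero_of_natDegree_lt (by rw [hdeg]; exact h1)
  have hFn : F ^ n = c • (1 : Matrix (Fin n) (Fin n) (PF K σ n)) := by
    have h1 := Matrix.aeval_self_charpoly F
    rw [hchar, map_sub, map_pow, Polynomial.aeval_X, Polynomial.aeval_C, sub_eq_zero] at h1
    rw [h1, Algebra.algebraMap_eq_smul_one]
  have hc0 : c ≠ 0 := by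
    intro hz
    obtain ⟨X, hX⟩ := h0
    apply hX
    rw [map_pow, ← ev_gen X f, ← map_pow, ← hF, hFn, hz, zero_smul, map_zero]
  have hnR : (n : PF K σ n) ≠ 0 := by
    have := (MvPolynomial.C_injective (σ × Fin n × Fin n) K).ne hnK
    simpa using this
  have hGF : G * F = F * G := by
    refine mat_eq_of_ev fun X => ?_
    rw [map_mul, map_mul, hF, hG, ev_gen, ev_gen]
    exact hfg X
  obtain ⟨h1, h2, h3⟩ := main_dom hn.pos hnR hc0 hchar hGF
  refine ⟨fun X => ?_, ?_⟩
  · have h4 := congrArg (ev X).mapMatrix h1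
    rw [map_sum] at h4
    have h5 : (ev X).mapMatrix (((n : PF K σ n) * c) • G) =
        (FreeAlgebra.lift K X f ^ n).trace • FreeAlgebra.lift K X g := by
      have h6 : (FreeAlgebra.lift K X f ^ n).trace = (n : K) * ev X c := by
        rw [← ev_gen X f, ← map_pow, ← hF, hFn]
        simp [Matrix.trace, Matrix.smul_apply]
      rw [h6, ← ev_gen X g, ← hG]
      ext i j
      simp
    rw [h5] at h4
    rw [h4]
    refine Finset.sum_congr rfl fun k _ => ?_
    have h7 : (FreeAlgebra.lift K X g * FreeAlgebra.lift K X f ^ (n - (k : ℕ))).trace =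
        ev X (G * F ^ (n - (k : ℕ))).trace := by
      rw [← ev_gen X f, ← ev_gen X g, ← map_pow, ← map_mul, ← hF, ← hG, Matrix.trace,
        Matrix.trace, map_sum]
      rfl
    rw [h7, ev_smul, map_pow, hF, ev_gen]
  · rw [det_gram hodd hFn h3] at h2
    set M := (mixed G F).det
    set D := (gram G).det
    obtain ⟨m, hm⟩ := hodd
    have hm2 : n - 1 = m * 2 := by omega
    have hns : nstar K n ≠ 0 := by
      rw [nstar]
      exact mul_ne_zero (pow_ne_zero _ (neg_ne_zero.2 one_ne_zero)) hnK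
    have hnsC : MvPolynomial.C (σ := σ × Fin n × Fin n) (nstar K n) =
        (-1) ^ ((n - 1) / 2) * (n : PF K σ n) := by
      rw [nstar]
      simp
    have key : (((n : PF K σ n) * c) ^ n) ^ 2 * D =
        MvPolynomial.C (nstar K n) * (M * ((n : PF K σ n) * c) ^ m) ^ 2 := by
      rw [← pow_mul, mul_comm n 2, h2, hnsC, hm2, pow_mul]
      ring
    have hu : ((n : PF K σ n) * c) ^ n ≠ 0 := pow_ne_zero _ (mul_ne_zero hnR hc0)
    have hdvd : ((n : PF K σ n) * c) ^ n ∣ M * ((n : PF K σ n) * c) ^ m := by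
      rw [← IsIntegrallyClosed.pow_dvd_pow_iff (n := 2) two_ne_zero]
      refine ⟨MvPolynomial.C (nstar K n)⁻¹ * D, ?_⟩
      rw [mul_left_comm, key, ← mul_assoc, ← MvPolynomial.C_mul, inv_mul_cancel₀ hns,
        MvPolynomial.C_1, one_mul]
    obtain ⟨δ, hδ⟩ := hdvd
    refine ⟨δ, ?_⟩
    have h8 : (((n : PF K σ n) * c) ^ n) ^ 2 * D =
        (((n : PF K σ n) * c) ^ n) ^ 2 * (MvPolynomial.C (nstar K n) * δ ^ 2) := by
      rw [key, hδ]
      ring
    exact mul_left_cancel₀ (pow_ne_zero 2 hu) h8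

/-- the discriminant at matrices over an arbitrary commutative algebra -/
theorem disc_alg {g : FreeAlgebra K σ} {δ : PF K σ n}
    (h : (gram (FreeAlgebra.lift K (gen K σ n) g)).det = MvPolynomial.C (nstar K n) * δ ^ 2)
    {A : Type*} [CommRing A] [Algebra K A] (X : σ → Matrix (Fin n) (Fin n) A) :
    (gram (FreeAlgebra.lift K X g)).det = nstar A n * (ev X δ) ^ 2 := by
  have h1 : gram (FreeAlgebra.lift K X g) =
      ((ev X : PF K σ n →ₐ[K] A) : PF K σ n →+* A).mapMatrix
        (gram (FreeAlgebra.lift K (gen K σ n) g)) := by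
    rw [← map_gram]
    congr 1
    exact (ev_gen X g).symm
  rw [h1, ← RingHom.map_det, h, map_mul, map_pow]
  congr 1
  rw [nstar, nstar]
  simp

end Pool.Agent.U605.CZ
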