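import Pool.Agent.U605.CZ.Zm
import Pool.Agent.U605.CZ.Gen

/-!
# Polynomials whose discriminant is not a constant times a square
-/

set_option autoImplicit false

namespace Pool.Agent.U605.CZ

open Matrix

universe u v

variable {K : Type u} [Field K] {σ : Type v} {n : ℕ}

theorem trace_conj {A : Type*} [CommRing A] {G Z S : Matrix (Fin n) (Fin n) A} (hS : IsUnit S)
    (h : G * S = S * Z) : G.trace = Z.trace := by
  obtain ⟨u, rfl⟩ := hS
  have h1 : G = u * Z * (↑u⁻¹ : Matrix (Fin n) (Fin n) A) := by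
    rw [← h, mul_assoc, u.mul_inv, mul_one]
  rw [h1, Matrix.trace_mul_comm, ← mul_assoc, u.inv_mul, one_mul]

theorem pow_conj {A : Type*} [CommRing A] {G Z S : Matrix (Fin n) (Fin n) A}
    (h : G * S = S * Z) (m : ℕ) : G ^ m * S = S * Z ^ m := by
  induction m with
  | zero => simp
  | succ m ih => rw [pow_succ, mul_assoc, h, ← mul_assoc, ih, mul_assoc, ← pow_succ]

theorem gram_conj {A : Type*} [CommRing A] {G Z S : Matrix (Fin n) (Fin n) A} (hS : IsUnit S)
    (h : G * S = S * Z) : gram G = gram Z := by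
  ext a b
  rw [gram, Matrix.of_apply, gram, Matrix.of_apply, trace_conj hS (pow_conj h _)]

theorem nstar_C {Ω : Type*} [Field Ω] : nstar (Polynomial Ω) n = Polynomial.C (nstar Ω n) := by
  rw [nstar, nstar]
  simp

theorem distinct_roots {Ω : Type*} [Field Ω] [IsAlgClosed Ω] (B : Matrix (Fin n) (Fin n) Ω)
    (h : B.charpoly.Separable) :
    ∃ l : Fin n → Ω, Function.Injective l ∧ ∀ i, B.charpoly.IsRoot (l i) := by
  classical
  have h1 : Multiset.card B.charpoly.roots = n := by
    have := Polynomial.splits_iff_card_roots.1 (IsAlgClosed.splits B.charpoly)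
    rw [this, Matrix.charpoly_natDegree_eq_dim, Fintype.card_fin]
  have h2 : B.charpoly.roots.toFinset.card = n := by
    rw [Multiset.toFinset_card_of_nodup (Polynomial.nodup_roots h), h1]
  let e : Fin n ≃ B.charpoly.roots.toFinset := (Finset.equivFinOfCardEq h2).symm
  refine ⟨fun i => (e i : Ω), fun i j hij => e.injective (Subtype.ext hij), fun i => ?_⟩
  have h3 := (e i).2
  rw [Multiset.mem_toFinset] at h3
  exact Polynomial.isRoot_of_mem_roots h3

/-- commutators with one of the variables -/
theorem not_commutator [DecidableEq σ] (hn : 3 ≤ n) (hodd : Odd n)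
    (hnK : ((n - 1 : ℕ) : K) ≠ 0) (x : σ) (h : FreeAlgebra K σ)
    (hh : h ∈ Algebra.adjoin K (FreeAlgebra.ι K '' {y | y ≠ x}))
    (X₀ : σ → Matrix (Fin n) (Fin n) K) (hX₀ : (FreeAlgebra.lift K X₀ h).charpoly.Separable)
    (δ : PF K σ n)
    (hδ : (gram (FreeAlgebra.lift K (gen K σ n) (FreeAlgebra.ι K x * h - h * FreeAlgebra.ι K x))).det
      = MvPolynomial.C (nstar K n) * δ ^ 2) : False := by
  set Ω := AlgebraicClosure K
  have hnΩ : ((n - 1 : ℕ) : Ω) ≠ 0 := by
    have := (algebraMap K Ω).injective.ne hnK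
    simpa only [map_natCast, map_zero] using this
  set B : Matrix (Fin n) (Fin n) Ω := (Algebra.ofId K Ω).mapMatrix (FreeAlgebra.lift K X₀ h) with hB
  have hBs : B.charpoly.Separable := by
    have h1 := Matrix.charpoly_map (FreeAlgebra.lift K X₀ h) (algebraMap K Ω)
    have h2 : B = (FreeAlgebra.lift K X₀ h).map (algebraMap K Ω) := rfl
    rw [h2, h1]
    exact hX₀.map
  obtain ⟨l, hl, hroot⟩ := distinct_roots B hBs
  obtain ⟨S, hS, hBS⟩ := exists_diag B l hl hroot
  obtain ⟨u, rfl⟩ := hS
  set φ : Matrix (Fin n) (Fin n) Ω →ₐ[Ω] Matrix (Fin n) (Fin n) (Polynomial Ω) :=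
    (Algebra.ofId Ω (Polynomial Ω)).mapMatrix with hφ
  set U : (Matrix (Fin n) (Fin n) (Polynomial Ω))ˣ := Units.map (φ : _ →* _) u with hU
  set Z : Matrix (Fin n) (Fin n) (Polynomial Ω) := Zm n Polynomial.X with hZ
  set A' : Matrix (Fin n) (Fin n) (Polynomial Ω) :=
    Matrix.of fun i j => Polynomial.C ((l j - l i)⁻¹) * Z i j with hA'
  set L : Matrix (Fin n) (Fin n) (Polynomial Ω) := diagonal fun i => Polynomial.C (l i) with hL
  have hφL : φ (diagonal l) = L := by
    ext i j
    by_cases hij : i = j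
    · subst hij
      simp [hφ, hL, Algebra.ofId_apply]
    · simp [hφ, hL, Matrix.diagonal_apply_ne _ hij]
  have hAL : A' * L - L * A' = Z := by
    ext1 i j
    rw [Matrix.sub_apply, hL, Matrix.mul_diagonal, Matrix.diagonal_mul, hA', Matrix.of_apply]
    by_cases hij : i = j
    · subst hij
      rw [hZ, Zm_self hn]
      ring
    · have h1 : l j - l i ≠ 0 := sub_ne_zero.2 (hl.ne (Ne.symm hij))
      have h2 : (Polynomial.C ((l j - l i)⁻¹) : Polynomial Ω) *
          (Polynomial.C (l j) - Polynomial.C (l i)) = 1 := by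
        rw [← Polynomial.C_sub, ← Polynomial.C_mul, inv_mul_cancel₀ h1, Polynomial.C_1]
      linear_combination (Z i j) * h2
  have hBU : φ B * (U : Matrix (Fin n) (Fin n) (Polynomial Ω)) = U * L := by
    have h1 := congrArg φ hBS
    rw [map_mul, map_mul, hφL] at h1
    exact h1
  set W : Matrix (Fin n) (Fin n) (Polynomial Ω) :=
    (U : Matrix (Fin n) (Fin n) (Polynomial Ω)) * A' *
      ((U⁻¹ : (Matrix (Fin n) (Fin n) (Polynomial Ω))ˣ) : Matrix (Fin n) (Fin n) (Polynomial Ω))
    with hW
  set Y : σ → Matrix (Fin n) (Fin n) (Polynomial Ω) := fun y =>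
    if y = x then W else (Algebra.ofId K (Polynomial Ω)).mapMatrix (X₀ y) with hY
  have hYh : FreeAlgebra.lift K Y h = φ B := by
    have h1 : FreeAlgebra.lift K Y h =
        FreeAlgebra.lift K (fun y => (Algebra.ofId K (Polynomial Ω)).mapMatrix (X₀ y)) h := by
      have h2 := AlgHom.adjoin_le_equalizer (FreeAlgebra.lift K Y)
        (FreeAlgebra.lift K (fun y => (Algebra.ofId K (Polynomial Ω)).mapMatrix (X₀ y)))
        (s := FreeAlgebra.ι K '' {y | y ≠ x}) (by
          rintro _ ⟨y, hy, rfl⟩
          rw [FreeAlgebra.lift_ι_apply, FreeAlgebra.lift_ι_apply, hY]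
          exact if_neg hy)
      exact h2 hh
    have h3 : ((Algebra.ofId K (Polynomial Ω)).mapMatrix (m := Fin n)).comp
        (FreeAlgebra.lift K X₀) =
        FreeAlgebra.lift K (fun y => (Algebra.ofId K (Polynomial Ω)).mapMatrix (X₀ y)) := by
      refine FreeAlgebra.hom_ext ?_
      funext s
      simp
    rw [h1, ← h3, hB, hφ]
    ext i j
    rfl
  have hYg : FreeAlgebra.lift K Y (FreeAlgebra.ι K x * h - h * FreeAlgebra.ι K x) *
      (U : Matrix (Fin n) (Fin n) (Polynomial Ω)) = U * Z := by
    rw [map_sub, map_mul, map_mul, FreeAlgebra.lift_ι_apply, hYh]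
    have h1 : Y x = W := if_pos rfl
    have h2 : W * (U : Matrix (Fin n) (Fin n) (Polynomial Ω)) = U * A' := by
      rw [hW, mul_assoc, U.inv_mul, mul_one]
    have h3 : W * φ B * (U : Matrix (Fin n) (Fin n) (Polynomial Ω)) = U * (A' * L) := by
      rw [mul_assoc, hBU, ← mul_assoc, h2, mul_assoc]
    have h4 : φ B * W * (U : Matrix (Fin n) (Fin n) (Polynomial Ω)) = U * (L * A') := by
      rw [mul_assoc, h2, ← mul_assoc, hBU, mul_assoc]
    rw [h1, sub_mul, h3, h4, ← mul_sub, hAL]
  have h1 := disc_alg hδ Y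
  rw [gram_conj U.isUnit hYg, nstar_C] at h1
  obtain ⟨h2, h3⟩ := natDegree_gram (Ω := Ω) hn hnΩ
  refine parity hodd (P := 1) one_ne_zero h3 h2 (d := ev Y δ) (κ := nstar Ω n) ?_
  rw [one_pow, one_mul]
  exact h1

theorem aeval_diag {Ω : Type*} [Field Ω] {A S : Matrix (Fin n) (Fin n) Ω} {r : Fin n → Ω}
    (h : A * S = S * diagonal r) (G : Polynomial Ω) :
    Polynomial.aeval A G * S = S * diagonal (fun i => G.eval (r i)) := by
  induction G using Polynomial.induction_on' with
  | add p q hp hq =>
    rw [map_add, add_mul, hp, hq, ← mul_add, Matrix.diagonal_add]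
    simp
  | monomial m c =>
    rw [Polynomial.aeval_monomial, Algebra.algebraMap_eq_smul_one, Matrix.smul_mul, one_mul,
      Matrix.smul_mul, pow_diag h, ← Matrix.mul_smul, ← Matrix.diagonal_smul]
    congr 2
    funext i
    simp

theorem exists_values [Infinite K] (g : FreeAlgebra K σ) (a b : σ → K)
    (hab : FreeAlgebra.lift K a g ≠ FreeAlgebra.lift K b g) (n : ℕ) :
    ∃ t : Fin n → K, Function.Injective fun i =>
      FreeAlgebra.lift K (fun j => a j + t i * (b j - a j)) g := by
  set q : Polynomial K := FreeAlgebra.lift K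
    (fun j => Polynomial.C (a j) + Polynomial.X * Polynomial.C (b j - a j)) g with hq
  have hqe : ∀ t : K, q.eval t = FreeAlgebra.lift K (fun j => a j + t * (b j - a j)) g := by
    intro t
    have h1 : (Polynomial.aeval t).comp (FreeAlgebra.lift K
        (fun j => Polynomial.C (a j) + Polynomial.X * Polynomial.C (b j - a j))) =
        FreeAlgebra.lift K (fun j => a j + t * (b j - a j)) := by
      refine FreeAlgebra.hom_ext ?_
      funext s
      simp
    rw [← h1, ← Polynomial.coe_aeval_eq_eval, hq]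
    rfl
  have hinf : (Set.range fun t : K => q.eval t).Infinite := by
    intro hfin
    have : Finite (Set.range fun t : K => q.eval t) := hfin
    obtain ⟨⟨y, hy⟩, hy2⟩ := Finite.exists_infinite_fiber
      (fun t : K => (⟨q.eval t, t, rfl⟩ : Set.range fun t : K => q.eval t))
    have h1 : q - Polynomial.C y = 0 := by
      refine Polynomial.eq_zero_of_infinite_isRoot _ ?_
      refine (Set.infinite_coe_iff.1 hy2).mono fun t ht => ?_
      have h2 : q.eval t = y := congrArg Subtype.val ht
      simp [h2]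
    apply hab
    have h2 := hqe 0
    have h3 := hqe 1
    rw [sub_eq_zero.1 h1, Polynomial.eval_C] at h2 h3
    simp only [zero_mul, add_zero] at h2
    simp only [one_mul, add_sub_cancel] at h3
    exact h2.symm.trans h3
  let e := hinf.natEmbedding
  have h1 : ∀ i : Fin n, ∃ t : K, q.eval t = (e i : K) := fun i => (e (i : ℕ)).2
  choose t ht using h1
  refine ⟨t, fun i j hij => ?_⟩
  simp only at hij
  rw [← hqe, ← hqe, ht, ht] at hij
  exact Fin.ext (e.injective (Subtype.ext hij))

/-- polynomials which are not constant on scalars -/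
theorem not_nonconstant [Infinite K] (hn : 3 ≤ n) (hodd : Odd n)
    (hnK : ((n - 1 : ℕ) : K) ≠ 0) (g : FreeAlgebra K σ) (a b : σ → K)
    (hab : FreeAlgebra.lift K a g ≠ FreeAlgebra.lift K b g) (δ : PF K σ n)
    (hδ : (gram (FreeAlgebra.lift K (gen K σ n) g)).det = MvPolynomial.C (nstar K n) * δ ^ 2) :
    False := by
  set Ω := AlgebraicClosure K
  have hnΩ : ((n - 1 : ℕ) : Ω) ≠ 0 := by
    have := (algebraMap K Ω).injective.ne hnK
    simpa only [map_natCast, map_zero] using this
  obtain ⟨t, ht⟩ := exists_values g a b hab n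
  obtain ⟨r, hr, hr2⟩ := root_data' (Ω := Ω) hn hnΩ
  set τ : Polynomial Ω := Lagrange.interpolate Finset.univ r (fun i => algebraMap K Ω (t i)) with hτ
  have hτr : ∀ i, τ.eval (r i) = algebraMap K Ω (t i) := fun i =>
    Lagrange.eval_interpolate_at_node _ hr.injOn (Finset.mem_univ i)
  set p : σ → Polynomial Ω := fun j => Polynomial.C (algebraMap K Ω (a j)) +
    τ * Polynomial.C (algebraMap K Ω (b j - a j)) with hp
  set G : Polynomial Ω := FreeAlgebra.lift K p g with hG
  have hGr : ∀ i, G.eval (r i) = algebraMap K Ω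
      (FreeAlgebra.lift K (fun j => a j + t i * (b j - a j)) g) := by
    intro i
    have h1 : ((Polynomial.aeval (r i) : Polynomial Ω →ₐ[Ω] Ω).restrictScalars K).comp
        (FreeAlgebra.lift K p) = (Algebra.ofId K Ω).comp
        (FreeAlgebra.lift K (fun j => a j + t i * (b j - a j))) := by
      refine FreeAlgebra.hom_ext ?_
      funext s
      simp [hp, hτr, Algebra.ofId_apply, Polynomial.coe_aeval_eq_eval]
    have h2 := DFunLike.congr_fun h1 g
    simpa [Polynomial.coe_aeval_eq_eval, hG, Algebra.ofId_apply] using h2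
  have hGinj : Function.Injective fun i => G.eval (r i) := by
    intro i j hij
    simp only [hGr] at hij
    exact ht ((algebraMap K Ω).injective hij)
  set Z : Matrix (Fin n) (Fin n) (Polynomial Ω) := Zm n Polynomial.X with hZ
  set Y : σ → Matrix (Fin n) (Fin n) (Polynomial Ω) := fun j => Polynomial.aeval Z (p j) with hY
  have hYg : FreeAlgebra.lift K Y g = Polynomial.aeval Z G := by
    have h1 : ((Polynomial.aeval Z : Polynomial Ω →ₐ[Ω] _).restrictScalars K).comp
        (FreeAlgebra.lift K p) = FreeAlgebra.lift K Y := by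
      refine FreeAlgebra.hom_ext ?_
      funext s
      simp [hY]
    rw [← h1]
    rfl
  -- reduction modulo the characteristic polynomial
  set N : Matrix (Fin n) (Fin n) (Polynomial Ω) := Matrix.of fun a k =>
    (((G ^ (a : ℕ)).map Polynomial.C) %ₘ Z.charpoly).coeff k with hN
  have hpow : ∀ a : Fin n, Polynomial.aeval Z G ^ (a : ℕ) = ∑ k : Fin n, N a k • Z ^ (k : ℕ) := by
    intro a
    have h1 : Polynomial.aeval Z G ^ (a : ℕ) =
        Polynomial.aeval Z ((G ^ (a : ℕ)).map (Polynomial.C : Ω →+* Polynomial Ω)) := by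
      rw [← map_pow]
      exact (Polynomial.aeval_map_algebraMap (Polynomial Ω) Z (G ^ (a : ℕ))).symm
    rw [h1, ← Polynomial.aeval_modByMonic_eq_self_of_root (Matrix.aeval_self_charpoly Z),
      Polynomial.aeval_eq_sum_range' (n := n), Finset.sum_range]
    · rfl
    · have h2 := Polynomial.natDegree_modByMonic_lt
        ((G ^ (a : ℕ)).map (Polynomial.C : Ω →+* Polynomial Ω)) (Matrix.charpoly_monic Z) (by
          intro h3
          have h4 := congrArg Polynomial.natDegree h3
          rw [Matrix.charpoly_natDegree_eq_dim, Fintype.card_fin, Polynomial.natDegree_one] at h4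
          omega)
      rwa [Matrix.charpoly_natDegree_eq_dim, Fintype.card_fin] at h2
  have hgram : gram (Polynomial.aeval Z G) = N * gram Z * Nᵀ := by
    ext1 a b
    rw [gram, Matrix.of_apply, pow_add, hpow, hpow, Finset.sum_mul_sum, Matrix.trace_sum,
      Matrix.mul_apply]
    simp only [Matrix.mul_apply, Finset.sum_mul, Matrix.trace_sum, Matrix.transpose_apply, gram,
      Matrix.of_apply]
    rw [Finset.sum_comm]
    refine Finset.sum_congr rfl fun l _ => Finset.sum_congr rfl fun k _ => ?_
    rw [Matrix.smul_mul, Matrix.mul_smul, Matrix.trace_smul, Matrix.trace_smul, ← pow_add,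
      smul_eq_mul, smul_eq_mul]
    ring
  have hdet : (gram (Polynomial.aeval Z G)).det = N.det ^ 2 * (gram Z).det := by
    rw [hgram, Matrix.det_mul, Matrix.det_mul, Matrix.det_transpose]
    ring
  have hne : (gram (Polynomial.aeval Z G)).det ≠ 0 := by
    intro hz
    have h1 := gram_ne_zero (isUnit_vandermonde hr) (aeval_diag (Zm_vandermonde hn hr2) G) hGinj
    apply h1
    have h2 : Polynomial.aeval (Zm n (1 : Ω)) G =
        ((Polynomial.aeval (1 : Ω) : Polynomial Ω →ₐ[Ω] Ω) : Polynomial Ω →+* Ω).mapMatrix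
          (Polynomial.aeval Z G) := by
      have h3 := Polynomial.aeval_algHom_apply
        ((Polynomial.aeval (1 : Ω) : Polynomial Ω →ₐ[Ω] Ω).mapMatrix (m := Fin n)) Z G
      have h4 : ((Polynomial.aeval (1 : Ω) : Polynomial Ω →ₐ[Ω] Ω).mapMatrix (m := Fin n)) Z =
          Zm n (1 : Ω) := by
        have h5 := map_Zm (n := n)
          ((Polynomial.aeval (1 : Ω) : Polynomial Ω →ₐ[Ω] Ω) : Polynomial Ω →+* Ω) Polynomial.X
        rw [hZ]
        refine Eq.trans h5 ?_
        simp
      rw [h4] at h3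
      exact h3
    rw [h2, map_gram, ← RingHom.map_det, hz, map_zero]
  have h1 := disc_alg hδ Y
  rw [hYg, hdet, nstar_C] at h1
  obtain ⟨h2, h3⟩ := natDegree_gram (Ω := Ω) hn hnΩ
  have hN0 : N.det ≠ 0 := by
    intro hz
    rw [hdet, hz] at hne
    exact hne (by ring)
  exact parity hodd hN0 h3 h2 h1

end Pool.Agent.U605.CZ
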