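import Pool.Agent.U605.CZ.Two3

set_option autoImplicit false

namespace Pool.Agent.U605.CZ

open Matrix Pool.Agent.H552R3.PC

section conj

variable {A : Type*} [CommRing A] {K : Type*} [CommRing K] [Algebra K A] {z z' : A}

theorem conj_aux1 {B : Type*} [CommRing B] (M N : Matrix (Fin 2) (Fin 2) B)
    (e00 : M 0 0 = N 0 0) (e01 : M 0 1 = -N 0 1) (e10 : -M 1 0 = N 1 0) (e11 : M 1 1 = N 1 1) :
    !![1, 0; 0, -1] * M * !![1, 0; 0, -1] = N := by
  ext i j
  fin_cases i <;> fin_cases j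
  · simp [Matrix.mul_apply, Matrix.vecMul, dotProduct, Fin.sum_univ_two, e00]
  · simp [Matrix.mul_apply, Matrix.vecMul, dotProduct, Fin.sum_univ_two, e01]
  · simp [Matrix.mul_apply, Matrix.vecMul, dotProduct, Fin.sum_univ_two, e10]
  · simp [Matrix.mul_apply, Matrix.vecMul, dotProduct, Fin.sum_univ_two, e11]

theorem conj_aux2 {B : Type*} [CommRing B] (M N : Matrix (Fin 2) (Fin 2) B)
    (e00 : M 1 1 = N 0 0) (e01 : M 1 0 = N 0 1) (e10 : M 0 1 = N 1 0) (e11 : M 0 0 = N 1 1) :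
    !![0, 1; 1, 0] * M * !![0, 1; 1, 0] = N := by
  ext i j
  fin_cases i <;> fin_cases j
  · simp [Matrix.mul_apply, Matrix.vecMul, dotProduct, Fin.sum_univ_two, e00]
  · simp [Matrix.mul_apply, Matrix.vecMul, dotProduct, Fin.sum_univ_two, e01]
  · simp [Matrix.mul_apply, Matrix.vecMul, dotProduct, Fin.sum_univ_two, e10]
  · simp [Matrix.mul_apply, Matrix.vecMul, dotProduct, Fin.sum_univ_two, e11]

theorem conj_one {M : PQ 2 A} (hz : z = -1) (hM : M ∈ qpl (A := A) K z z' 2) :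
    !![1, 0; 0, -1] * M * !![1, 0; 0, -1] = M.map (scl ![1, z]) := by
  have h1 := hM.1
  have c0 : chi z (0 : Fin 2) = 1 := by rw [chi]; exact pow_zero z
  have c1 : chi z (1 : Fin 2) = -1 := by rw [chi, ← hz]; exact pow_one z
  have e00 := h1 0 0
  have e01 := h1 0 1
  have e10 := h1 1 0
  have e11 := h1 1 1
  rw [c0, map_one, one_mul, one_mul] at e00
  rw [c0, c1, map_one, map_neg, map_one, one_mul, neg_one_mul] at e01
  rw [c0, c1, map_one, map_neg, map_one, one_mul, neg_one_mul] at e10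
  rw [c1, map_neg, map_one, neg_one_mul, neg_one_mul, neg_inj] at e11
  exact conj_aux1 M _ e00 e01 e10 e11

theorem conj_two {M : PQ 2 A} (hM : M ∈ qpl (A := A) K z z' 2) :
    !![0, 1; 1, 0] * M * !![0, 1; 1, 0] = M.map (scl ![z', 1]) := by
  have h1 := hM.2
  exact conj_aux2 M _ (h1 1 1) (h1 1 0) (h1 0 1) (h1 0 0)

theorem U1_sq {L : Type*} [Field L] {ι : L} (hι : ι ^ 2 = -1) :
    (Matrix.diagonal ![1, ι] : Matrix (Fin 2) (Fin 2) L) ^ 2 = !![1, 0; 0, -1] := by
  rw [pow_two, Matrix.diagonal_mul_diagonal]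
  ext i j
  fin_cases i <;> fin_cases j <;> simp [← hι, pow_two]

theorem U2_sq {L : Type*} [Field L] {ι c : L} (hι : ι ^ 2 = -1) (hc2 : 2 * (c * c) = ι) :
    (!![c, -(c * ι); -(c * ι), c] : Matrix (Fin 2) (Fin 2) L) ^ 2 = !![0, 1; 1, 0] := by
  rw [pow_two]
  ext i j
  fin_cases i <;> fin_cases j <;> simp [Matrix.mul_apply, Fin.sum_univ_two]
  · linear_combination (c * c) * hι
  · linear_combination (-ι) * hc2 - hι
  · linear_combination (-ι) * hc2 - hι
  · linear_combination (c * c) * hι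

theorem S1_sq {L : Type*} [Field L] :
    (!![1, 0; 0, -1] : Matrix (Fin 2) (Fin 2) L) ^ 2 = 1 := by
  rw [pow_two]
  ext i j
  fin_cases i <;> fin_cases j <;> simp [Matrix.mul_apply, Fin.sum_univ_two]

theorem S2_sq {L : Type*} [Field L] :
    (!![0, 1; 1, 0] : Matrix (Fin 2) (Fin 2) L) ^ 2 = 1 := by
  rw [pow_two]
  ext i j
  fin_cases i <;> fin_cases j <;> simp [Matrix.mul_apply, Fin.sum_univ_two]

theorem S1_map {L B : Type*} [Field L] [CommRing B] (f : L →+* B) :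
    (!![1, 0; 0, -1] : Matrix (Fin 2) (Fin 2) L).map f = !![1, 0; 0, -1] := by
  ext i j
  fin_cases i <;> fin_cases j <;> simp

theorem S2_map {L B : Type*} [Field L] [CommRing B] (f : L →+* B) :
    (!![0, 1; 1, 0] : Matrix (Fin 2) (Fin 2) L).map f = !![0, 1; 1, 0] := by
  ext i j
  fin_cases i <;> fin_cases j <;> simp

end conj

end Pool.Agent.U605.CZ
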