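import Pool.Agent.U605.CZ.Alg

/-!
# The discriminant of a matrix commuting with a Kummer element
-/

set_option autoImplicit false

namespace Pool.Agent.U605.CZ

open Matrix Polynomial

variable {n : ℕ}

theorem root_data {Ω : Type*} [Field Ω] [IsAlgClosed Ω] (hn : 0 < n) (hnΩ : (n : Ω) ≠ 0) {c : Ω}
    (hc : c ≠ 0) : ∃ l : Fin n → Ω, Function.Injective l ∧ (∀ i, l i ^ n = c) ∧
      ∀ j : ℕ, ¬ n ∣ j → ∑ i, l i ^ j = 0 := by
  obtain ⟨ζ, hζ⟩ : ∃ ζ : Ω, IsPrimitiveRoot ζ n := by
    have : NeZero (n : Ω) := ⟨hnΩ⟩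
    obtain ⟨x, hx⟩ := IsAlgClosed.exists_root (Polynomial.cyclotomic n Ω)
      (Polynomial.degree_cyclotomic_pos n Ω hn).ne'
    exact ⟨x, Polynomial.isRoot_cyclotomic_iff.mp hx⟩
  obtain ⟨t, ht⟩ := IsAlgClosed.exists_pow_nat_eq c hn
  have ht0 : t ≠ 0 := by
    rintro rfl
    rw [zero_pow hn.ne'] at ht
    exact hc ht.symm
  refine ⟨fun i => t * ζ ^ (i : ℕ), ?_, ?_, ?_⟩
  · intro i j hij
    have h1 := mul_left_cancel₀ ht0 hij
    exact Fin.ext (hζ.pow_inj i.2 j.2 h1)
  · intro i
    rw [mul_pow, ht, ← pow_mul, mul_comm (i : ℕ) n, pow_mul, hζ.pow_eq_one, one_pow, mul_one]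
  · intro j hj
    have h1 : ζ ^ j ≠ 1 := fun h => hj (hζ.dvd_of_pow_eq_one j h)
    have h2 : ∑ i ∈ Finset.range n, (ζ ^ j) ^ i = 0 := by
      have h3 : (∑ i ∈ Finset.range n, (ζ ^ j) ^ i) * (ζ ^ j - 1) = 0 := by
        rw [geom_sum_mul, ← pow_mul, mul_comm j n, pow_mul, hζ.pow_eq_one, one_pow, sub_self]
      exact (mul_eq_zero.1 h3).resolve_right (sub_ne_zero.2 h1)
    have h4 : ∑ i : Fin n, (t * ζ ^ (i : ℕ)) ^ j = t ^ j * ∑ i ∈ Finset.range n, (ζ ^ j) ^ i := by
      rw [Finset.mul_sum, Finset.sum_range]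
      refine Finset.sum_congr rfl fun i _ => ?_
      rw [mul_pow, ← pow_mul, ← pow_mul, mul_comm (i : ℕ) j]
    rw [h4, h2, mul_zero]

theorem map_gram {R A : Type*} [CommRing R] [CommRing A] (φ : R →+* A)
    (G : Matrix (Fin n) (Fin n) R) : gram (φ.mapMatrix G) = φ.mapMatrix (gram G) := by
  ext a b
  simp only [gram, Matrix.of_apply, RingHom.mapMatrix_apply, Matrix.map_apply]
  rw [← RingHom.mapMatrix_apply, ← map_pow, RingHom.mapMatrix_apply, Matrix.trace, Matrix.trace,
    map_sum]
  rfl

theorem map_mixed {R A : Type*} [CommRing R] [CommRing A] (φ : R →+* A)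
    (G F : Matrix (Fin n) (Fin n) R) :
    mixed (φ.mapMatrix G) (φ.mapMatrix F) = φ.mapMatrix (mixed G F) := by
  ext a b
  simp only [mixed, Matrix.of_apply, RingHom.mapMatrix_apply, Matrix.map_apply]
  rw [← RingHom.mapMatrix_apply, ← RingHom.mapMatrix_apply, ← map_pow, ← map_pow, ← map_mul,
    RingHom.mapMatrix_apply, Matrix.trace, Matrix.trace, map_sum]
  rfl

section

variable {R : Type*} [CommRing R] [IsDomain R] {F G : Matrix (Fin n) (Fin n) R} {c : R}

theorem main_dom (hn : 0 < n) (hnR : (n : R) ≠ 0) (hc : c ≠ 0)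
    (hF : F.charpoly = X ^ n - C c) (hFG : G * F = F * G) :
    ((n : R) * c) • G = ∑ k : Fin n, (G * F ^ (n - (k : ℕ))).trace • F ^ (k : ℕ) ∧
    ((n : R) * c) ^ (2 * n) * (gram G).det = (mixed G F).det ^ 2 * (gram F).det ∧
    ∀ j : ℕ, ¬ n ∣ j → (F ^ j).trace = 0 := by
  set Ω := AlgebraicClosure (FractionRing R)
  set φ : R →+* Ω := (algebraMap (FractionRing R) Ω).comp (algebraMap R (FractionRing R)) with hφ
  have hinj : Function.Injective φ := by
    rw [hφ, RingHom.coe_comp]
    exact (algebraMap (FractionRing R) Ω).injective.comp (IsFractionRing.injective R _)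
  have hnΩ : (n : Ω) ≠ 0 := by
    have := hinj.ne hnR
    simpa using this
  have hcΩ : φ c ≠ 0 := by
    have := hinj.ne hc
    simpa using this
  obtain ⟨l, hl, hlc, hls⟩ := root_data hn hnΩ hcΩ
  have hF' : (φ.mapMatrix F).charpoly = X ^ n - C (φ c) := by
    rw [RingHom.mapMatrix_apply, Matrix.charpoly_map, hF]
    simp
  obtain ⟨S, hS, hFS⟩ := exists_diag (φ.mapMatrix F) l hl fun i => by
    rw [hF', IsRoot.def]
    simp [hlc i]
  have hFG' : φ.mapMatrix G * φ.mapMatrix F = φ.mapMatrix F * φ.mapMatrix G := by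
    rw [← map_mul, hFG, map_mul]
  obtain ⟨r, hGS⟩ := comm_diag hl hS hFS hFG'
  refine ⟨?_, ?_, ?_⟩
  · have h1 := expand_field hl hlc hS hFS hGS
    have hM : Function.Injective (φ.mapMatrix (m := Fin n)) := by
      intro A B hAB
      ext i j
      have := congrFun (congrFun hAB i) j
      exact hinj this
    apply hM
    rw [map_sum]
    have h2 : φ.mapMatrix (((n : R) * c) • G) = ((n : Ω) * φ c) • φ.mapMatrix G := by
      ext i j
      simp [RingHom.mapMatrix_apply]
    rw [h2, h1]
    refine Finset.sum_congr rfl fun k _ => ?_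
    have h3 : (φ.mapMatrix G * φ.mapMatrix F ^ (n - (k : ℕ))).trace =
        φ (G * F ^ (n - (k : ℕ))).trace := by
      rw [← map_pow, ← map_mul, RingHom.mapMatrix_apply, Matrix.trace, Matrix.trace, map_sum]
      rfl
    rw [h3]
    ext i j
    simp only [RingHom.mapMatrix_apply, Matrix.smul_apply, Matrix.map_apply, smul_eq_mul, map_mul]
    rw [← RingHom.mapMatrix_apply, ← map_pow]
    rfl
  · have h1 := gram_field hl hlc hS hFS hGS
    apply hinj
    rw [map_gram, map_mixed, map_gram, ← RingHom.map_det, ← RingHom.map_det,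
      ← RingHom.map_det] at h1
    simpa using h1
  · intro j hj
    apply hinj
    have h1 : φ (F ^ j).trace = (φ.mapMatrix F ^ j).trace := by
      rw [← map_pow, RingHom.mapMatrix_apply, Matrix.trace, Matrix.trace, map_sum]
      rfl
    rw [h1, trace_diag hS (pow_diag hFS j), hls j hj, map_zero]

end

theorem sign_neg [NeZero n] (hn : Odd n) :
    (Equiv.Perm.sign (Equiv.neg (Fin n)) : ℤˣ) = (-1) ^ ((n - 1) / 2) := by
  classical
  set σ : Equiv.Perm (Fin n) := Equiv.neg (Fin n) with hσ
  by_cases hn1 : n = 1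
  · subst hn1
    have : σ = 1 := Subsingleton.elim _ _
    rw [this]
    simp
  have hsq : σ ^ 2 = 1 := by
    ext x
    rw [pow_two, Equiv.Perm.mul_apply]
    simp [hσ]
  have hfix : ∀ x : Fin n, σ x = x ↔ x = 0 := by
    intro x
    constructor
    · intro h
      have h1 : (-x : Fin n) = x := h
      have h2 := congrArg Fin.val h1
      rw [Fin.val_neg'] at h2
      by_contra hx
      have hx0 : (x : ℕ) ≠ 0 := fun h => hx (Fin.ext (by simpa using h))
      have hlt := x.2
      rw [Nat.mod_eq_of_lt (by omega)] at h2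
      obtain ⟨m, hm⟩ := hn
      omega
    · rintro rfl
      simp [hσ]
  have hne : σ ≠ 1 := by
    intro h
    have hn2 : 1 < n := by have := NeZero.pos n; omega
    have h1 := (hfix ⟨1, hn2⟩).1 (by rw [h]; rfl)
    have h2 := congrArg Fin.val h1
    simp at h2
  have hord : orderOf σ = 2 := by
    have h1 := orderOf_dvd_of_pow_eq_one hsq
    rcases (Nat.dvd_prime Nat.prime_two).1 h1 with h | h
    · exact absurd (orderOf_eq_one_iff.1 h) hne
    · exact h
  have hp : (orderOf σ).Prime := by rw [hord]; exact Nat.prime_two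
  obtain ⟨m, hm⟩ := Equiv.Perm.cycleType_prime_order hp
  rw [hord] at hm
  have hsupp : σ.support = Finset.univ.erase (0 : Fin n) := by
    ext x
    rw [Equiv.Perm.mem_support, Finset.mem_erase]
    simp only [Finset.mem_univ, and_true]
    exact not_congr (hfix x)
  have hcard : σ.support.card = n - 1 := by
    rw [hsupp, Finset.card_erase_of_mem (Finset.mem_univ _), Finset.card_univ, Fintype.card_fin]
  have hsum := Equiv.Perm.sum_cycleType σ
  rw [hm, hcard, Multiset.sum_replicate, smul_eq_mul] at hsum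
  rw [Equiv.Perm.sign_of_cycleType, hm, Multiset.sum_replicate, Multiset.card_replicate,
    smul_eq_mul]
  have h3 : (n - 1) / 2 = m + 1 := by omega
  rw [h3, pow_add, mul_comm (m + 1) 2, pow_mul]
  simp

theorem det_gram {R : Type*} [CommRing R] {F : Matrix (Fin n) (Fin n) R} {c : R} (hn : Odd n)
    (hF : F ^ n = (c : R) • (1 : Matrix (Fin n) (Fin n) R))
    (ht : ∀ j : ℕ, ¬ n ∣ j → (F ^ j).trace = 0) :
    (gram F).det = (-1) ^ ((n - 1) / 2) * n * ((n : R) * c) ^ (n - 1) := by
  have hn0 : NeZero n := ⟨hn.pos.ne'⟩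
  set w : Fin n → R := fun a => if a = 0 then (n : R) else n * c with hw
  have h1 : gram F = (diagonal w).submatrix id (Equiv.neg (Fin n)) := by
    ext a b
    rw [gram, Matrix.of_apply, Matrix.submatrix_apply, id, Matrix.diagonal_apply]
    have hab : a = Equiv.neg (Fin n) b ↔ ((a : ℕ) + b) % n = 0 := by
      rw [Equiv.neg_apply, eq_neg_iff_add_eq_zero, Fin.ext_iff, Fin.val_add]
      simp
    split_ifs with h
    · rw [hab] at h
      by_cases ha : a = 0
      · have hb : (b : ℕ) = 0 := by
          rw [ha] at h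
          simp only [Fin.val_zero, zero_add] at h
          rwa [Nat.mod_eq_of_lt b.2] at h
        rw [hw]
        simp [ha, hb]
      · have ha0 : (a : ℕ) ≠ 0 := fun h => ha (Fin.ext (by simpa using h))
        have hs : (a : ℕ) + b = n := by
          obtain ⟨q, hq⟩ := Nat.dvd_of_mod_eq_zero h
          have h1 := a.2
          have h2 := b.2
          have h3 : q = 1 := by
            rcases Nat.lt_trichotomy q 1 with h4 | h4 | h4
            · have : q = 0 := by omega
              rw [this] at hq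
              omega
            · exact h4
            · have : n * 2 ≤ n * q := Nat.mul_le_mul_left _ h4
              omega
          rw [h3] at hq
          omega
        rw [hs, hF, hw]
        simp [ha, Matrix.trace_smul, mul_comm]
    · rw [hab] at h
      exact ht _ fun hd => h (Nat.mod_eq_zero_of_dvd hd)
  rw [h1, Matrix.det_permute', Matrix.det_diagonal, sign_neg hn]
  have h2 : ∏ i, w i = n * ((n : R) * c) ^ (n - 1) := by
    rw [← Finset.mul_prod_erase Finset.univ w (Finset.mem_univ 0)]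
    have h3 : ∀ i ∈ Finset.univ.erase (0 : Fin n), w i = n * c := by
      intro i hi
      rw [hw]
      simp [Finset.ne_of_mem_erase hi]
    rw [Finset.prod_congr rfl h3, Finset.prod_const, Finset.card_erase_of_mem (Finset.mem_univ _),
      Finset.card_univ, Fintype.card_fin]
    simp [hw]
  rw [h2]
  push_cast
  ring

end Pool.Agent.U605.CZ
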