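import Pool.Agent.U605.CZ.Dom

/-!
# The cyclic Galois action on the eigenvalues of a matrix commuting with a Kummer element
-/

set_option autoImplicit false

namespace Pool.Agent.U605.CZ

open Matrix Polynomial

variable {n : ℕ}

theorem root_data2 {Ω : Type*} [Field Ω] [IsAlgClosed Ω] [NeZero n] {c ζ : Ω} (hc : c ≠ 0)
    (hζ : IsPrimitiveRoot ζ n) : ∃ l : Fin n → Ω, Function.Injective l ∧ (∀ i, l i ^ n = c) ∧
      ∀ i m, l (i + m) = ζ ^ (m : ℕ) * l i := by
  have hn : 0 < n := NeZero.pos n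
  obtain ⟨t, ht⟩ := IsAlgClosed.exists_pow_nat_eq c hn
  have ht0 : t ≠ 0 := by
    rintro rfl
    rw [zero_pow hn.ne'] at ht
    exact hc ht.symm
  refine ⟨fun i => t * ζ ^ (i : ℕ), ?_, ?_, ?_⟩
  · intro i j hij
    have h1 := mul_left_cancel₀ ht0 hij
    exact Fin.ext (hζ.pow_inj i.2 j.2 h1)
  · intro i
    rw [mul_pow, ht, ← pow_mul, mul_comm (i : ℕ) n, pow_mul, hζ.pow_eq_one, one_pow, mul_one]
  · intro i m
    show t * ζ ^ ((i + m : Fin n) : ℕ) = _
    rw [Fin.val_add, ← pow_eq_pow_mod _ hζ.pow_eq_one, pow_add]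
    ring

section

variable {R : Type*} [CommRing R] {F G : Matrix (Fin n) (Fin n) R}

/-- the numerators of the coefficients -/
def Wnum (ζ : R) (F G : Matrix (Fin n) (Fin n) R) (m a : Fin n) : R :=
  ∑ k : Fin n, ζ ^ ((m : ℕ) * (k : ℕ)) * (G * F ^ (n - (k : ℕ))).trace *
    (G ^ (a : ℕ) * F ^ (k : ℕ)).trace

theorem map_trace' {A : Type*} [CommRing A] (φ : R →+* A) (M : Matrix (Fin n) (Fin n) R) :
    φ M.trace = (φ.mapMatrix M).trace := by
  rw [Matrix.trace, Matrix.trace, map_sum]
  rfl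

theorem Wnum_eq {Ω : Type*} [Field Ω] {F G S : Matrix (Fin n) (Fin n) Ω} {l r : Fin n → Ω}
    (hl : Function.Injective l) {c ζ : Ω} (hc : ∀ i, l i ^ n = c) (hS : IsUnit S)
    (hF : F * S = S * diagonal l) (hG : G * S = S * diagonal r)
    (hlz : ∀ i m, l (i + m) = ζ ^ (m : ℕ) * l i) (m a : Fin n) :
    Wnum ζ F G m a = ((n : Ω) * c) * ∑ i, r (i + m) * r i ^ (a : ℕ) := by
  have h1 : ∀ k : Fin n, (G * F ^ (n - (k : ℕ))).trace = ∑ j, r j * l j ^ (n - (k : ℕ)) :=
    fun k => trace_diag hS (mul_diag hG (pow_diag hF _))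
  have h2 : ∀ k : Fin n, (G ^ (a : ℕ) * F ^ (k : ℕ)).trace = ∑ i, r i ^ (a : ℕ) * l i ^ (k : ℕ) :=
    fun k => trace_diag hS (mul_diag (pow_diag hG _) (pow_diag hF _))
  rw [Wnum]
  simp only [h1, h2]
  calc ∑ k : Fin n, ζ ^ ((m : ℕ) * (k : ℕ)) * (∑ j, r j * l j ^ (n - (k : ℕ))) *
        ∑ i, r i ^ (a : ℕ) * l i ^ (k : ℕ)
      = ∑ i, r i ^ (a : ℕ) * ∑ j, r j * ∑ k : Fin n, l j ^ (n - (k : ℕ)) * l (i + m) ^ (k : ℕ) := by
        simp only [Finset.mul_sum, Finset.sum_mul, hlz, mul_pow, ← pow_mul]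
        rw [Finset.sum_comm]
        refine Finset.sum_congr rfl fun i _ => ?_
        rw [Finset.sum_comm]
        refine Finset.sum_congr rfl fun j _ => Finset.sum_congr rfl fun k _ => by ring
    _ = ∑ i, r i ^ (a : ℕ) * (r (i + m) * ((n : Ω) * c)) := by
        refine Finset.sum_congr rfl fun i _ => ?_
        congr 1
        have h3 : ∀ j, r j * ∑ k : Fin n, l j ^ (n - (k : ℕ)) * l (i + m) ^ (k : ℕ) =
            if j = i + m then r (i + m) * ((n : Ω) * c) else 0 := by
          intro j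
          rw [orth hl hc]
          split_ifs with h
          · rw [h]
          · ring
        rw [Finset.sum_congr rfl fun j _ => h3 j, Finset.sum_ite_eq' Finset.univ (i + m)]
        simp
    _ = _ := by
        rw [Finset.mul_sum]
        refine Finset.sum_congr rfl fun i _ => by ring

theorem map_Wnum {A : Type*} [CommRing A] (φ : R →+* A) (ζ : R)
    (F G : Matrix (Fin n) (Fin n) R) (m a : Fin n) :
    φ (Wnum ζ F G m a) = Wnum (φ ζ) (φ.mapMatrix F) (φ.mapMatrix G) m a := by
  rw [Wnum, Wnum, map_sum]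
  refine Finset.sum_congr rfl fun k _ => ?_
  rw [map_mul, map_mul, map_pow, map_trace', map_trace']
  simp only [map_mul, map_pow]

/-- The data attached to a matrix commuting with a Kummer element, over an integrally closed
domain. -/
theorem galois_data [IsDomain R] [IsIntegrallyClosed R] [NeZero n] {c ζ : R} (hnR : (n : R) ≠ 0)
    (hc : c ≠ 0) (hζ : IsPrimitiveRoot ζ n) (hF : F.charpoly = X ^ n - C c) (hFG : G * F = F * G)
    (hD : (gram G).det ≠ 0) :
    ∃ b : Fin n → Fin n → R,
      (∀ m, ∃ w : Fin n → R, b m = (gram G).adjugate *ᵥ w ∧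
        ∀ a, ((n : R) * c) * w a = Wnum ζ F G m a) ∧
      ∃ r : Fin n → AlgebraicClosure (FractionRing R), Function.Injective r ∧
        G.charpoly.map (algebraMap R (AlgebraicClosure (FractionRing R))) =
          ∏ i, (X - C (r i)) ∧
        ∀ m i, ∑ a, algebraMap R (AlgebraicClosure (FractionRing R)) (b m a) * r i ^ (a : ℕ) =
          algebraMap R (AlgebraicClosure (FractionRing R)) (gram G).det * r (i + m) := by
  set Ω := AlgebraicClosure (FractionRing R)
  set φ : R →+* Ω := algebraMap R Ω with hφ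
  have hinj : Function.Injective φ := by
    rw [hφ, IsScalarTower.algebraMap_eq R (FractionRing R) Ω, RingHom.coe_comp]
    exact (algebraMap (FractionRing R) Ω).injective.comp (IsFractionRing.injective R _)
  have hnΩ : (n : Ω) ≠ 0 := by
    have := hinj.ne hnR
    simpa using this
  have hcΩ : φ c ≠ 0 := by
    have := hinj.ne hc
    simpa using this
  have hζΩ : IsPrimitiveRoot (φ ζ) n := hζ.map_of_injective hinj
  obtain ⟨l, hl, hlc, hlz⟩ := root_data2 hcΩ hζΩ
  have hF' : (φ.mapMatrix F).charpoly = X ^ n - C (φ c) := by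
    rw [RingHom.mapMatrix_apply, Matrix.charpoly_map, hF]
    simp
  obtain ⟨S, hS, hFS⟩ := exists_diag (φ.mapMatrix F) l hl fun i => by
    rw [hF', IsRoot.def]
    simp [hlc i]
  have hFG' : φ.mapMatrix G * φ.mapMatrix F = φ.mapMatrix F * φ.mapMatrix G := by
    rw [← map_mul, hFG, map_mul]
  obtain ⟨r, hGS⟩ := comm_diag hl hS hFS hFG'
  have hchar : G.charpoly.map φ = ∏ i, (X - C (r i)) := by
    rw [← Matrix.charpoly_map]
    obtain ⟨u, rfl⟩ := hS
    have h1 : G.map φ = (u : Matrix (Fin n) (Fin n) Ω) * diagonal r *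
        ((u⁻¹ : (Matrix (Fin n) (Fin n) Ω)ˣ) : Matrix (Fin n) (Fin n) Ω) := by
      have h2 : φ.mapMatrix G = G.map φ := rfl
      rw [← h2, ← hGS, mul_assoc, u.mul_inv, mul_one]
    rw [h1]
    have h3 := Matrix.charpoly_units_conj u (diagonal r)
    rw [Matrix.coe_units_inv, h3]
    exact Matrix.charpoly_diagonal r
  set V : Matrix (Fin n) (Fin n) Ω := Matrix.of fun a i => r i ^ (a : ℕ) with hV
  have hgramV : φ.mapMatrix (gram G) = V * Vᵀ := by
    rw [← map_gram]
    ext a b
    rw [gram, Matrix.of_apply, trace_diag hS (pow_diag hGS _), Matrix.mul_apply]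
    refine Finset.sum_congr rfl fun i _ => ?_
    simp [hV, pow_add]
  have hVdet : V.det ≠ 0 := by
    intro h0
    apply hD
    apply hinj
    rw [RingHom.map_det, hgramV, Matrix.det_mul, h0, zero_mul, map_zero]
  have hr : Function.Injective r := by
    have h1 : V = (Matrix.vandermonde r)ᵀ := by
      ext a i
      simp [hV, Matrix.vandermonde_apply]
    rw [h1, Matrix.det_transpose] at hVdet
    exact Matrix.det_vandermonde_ne_zero_iff.1 hVdet
  have hrint : ∀ i, IsIntegral R (r i) := by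
    intro i
    refine ⟨G.charpoly, Matrix.charpoly_monic G, ?_⟩
    rw [← Polynomial.eval_map, hchar, Polynomial.eval_prod]
    refine Finset.prod_eq_zero (Finset.mem_univ i) ?_
    simp
  have hw : ∀ m a : Fin n, ∃ w : R, φ w = ∑ i, r (i + m) * r i ^ (a : ℕ) ∧
      ((n : R) * c) * w = Wnum ζ F G m a := by
    intro m a
    set z : Ω := ∑ i, r (i + m) * r i ^ (a : ℕ) with hz
    have hzint : IsIntegral R z :=
      IsIntegral.sum _ fun i _ => (hrint _).mul ((hrint _).pow _)
    have hWz : φ (Wnum ζ F G m a) = φ ((n : R) * c) * z := by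
      rw [map_Wnum, Wnum_eq hl hlc hS hFS hGS hlz, map_mul, map_natCast]
    have hnc : (algebraMap R (FractionRing R)) ((n : R) * c) ≠ 0 := by
      intro h0
      have := IsFractionRing.injective R (FractionRing R) (h0.trans (map_zero _).symm)
      exact mul_ne_zero hnR hc this
    set y : FractionRing R := algebraMap R (FractionRing R) (Wnum ζ F G m a) /
      algebraMap R (FractionRing R) ((n : R) * c) with hy
    have hyz : algebraMap (FractionRing R) Ω y = z := by
      have h1 : φ ((n : R) * c) ≠ 0 := by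
        rw [map_mul, map_natCast]
        exact mul_ne_zero hnΩ hcΩ
      rw [hy, map_div₀, ← IsScalarTower.algebraMap_apply, ← IsScalarTower.algebraMap_apply,
        div_eq_iff (by exact h1)]
      rw [mul_comm]
      exact hWz
    have hyint : IsIntegral R y := by
      have h1 : IsIntegral R (algebraMap (FractionRing R) Ω y) := by rw [hyz]; exact hzint
      exact (isIntegral_algebraMap_iff (algebraMap (FractionRing R) Ω).injective).1 h1
    obtain ⟨w, hw⟩ := IsIntegrallyClosed.isIntegral_iff.1 hyint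
    have hwz : φ w = z := by
      rw [← hyz, ← hw, hφ, IsScalarTower.algebraMap_apply R (FractionRing R) Ω]
    refine ⟨w, hwz, hinj ?_⟩
    rw [map_mul, hwz, hWz]
  choose w hw1 hw2 using hw
  refine ⟨fun m => (gram G).adjugate *ᵥ w m, fun m => ⟨w m, rfl, hw2 m⟩, r, hr, hchar, ?_⟩
  intro m i
  set b : Fin n → R := (gram G).adjugate *ᵥ w m with hb
  set Λ : Fin n → Ω := fun i => r (i + m) with hΛ
  have hwV : (fun a => φ (w m a)) = V *ᵥ Λ := by
    funext a
    rw [hw1, Matrix.mulVec, dotProduct]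
    refine Finset.sum_congr rfl fun i _ => ?_
    simp [hV, hΛ, mul_comm]
  have hbφ : (fun a => φ (b a)) = (V * Vᵀ).adjugate *ᵥ (V *ᵥ Λ) := by
    rw [← hwV, ← hgramV, ← RingHom.map_adjugate]
    funext a
    rw [hb, Matrix.mulVec, dotProduct, map_sum, Matrix.mulVec, dotProduct]
    refine Finset.sum_congr rfl fun i _ => ?_
    rw [map_mul]
    rfl
  have hkey : Vᵀ *ᵥ (fun a => φ (b a)) = (V * Vᵀ).det • Λ := by
    have h1 : V *ᵥ (Vᵀ *ᵥ (fun a => φ (b a)) - (V * Vᵀ).det • Λ) = 0 := by
      rw [Matrix.mulVec_sub, Matrix.mulVec_mulVec, hbφ, Matrix.mulVec_mulVec,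
        Matrix.mul_adjugate, Matrix.mulVec_smul, Matrix.smul_mulVec, Matrix.one_mulVec, sub_self]
    exact sub_eq_zero.1 (Matrix.eq_zero_of_mulVec_eq_zero hVdet h1)
  have h2 := congrFun hkey i
  rw [Matrix.mulVec, dotProduct, ← hgramV, ← RingHom.map_det, Pi.smul_apply, smul_eq_mul] at h2
  rw [← h2]
  refine Finset.sum_congr rfl fun a _ => ?_
  simp only [hV, Matrix.transpose_apply, Matrix.of_apply]
  exact mul_comm _ _

end

end Pool.Agent.U605.CZ
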