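import Mathlib

/-!
# Roots of power series with constant term one
-/

set_option autoImplicit false

namespace Pool.Agent.U605.CZ

theorem ps_root {M : Type*} [Field M] {n : ℕ} (hn : (n : M) ≠ 0) (U : PowerSeries M)
    (hU : PowerSeries.constantCoeff U = 1) : ∃ w : PowerSeries M, w ^ n = U := by
  have step : ∀ (k : ℕ) (w : PowerSeries M), PowerSeries.constantCoeff w = 1 →
      (PowerSeries.X : PowerSeries M) ^ (k + 1) ∣ U - w ^ n →
      ∃ w' : PowerSeries M, PowerSeries.constantCoeff w' = 1 ∧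
        (PowerSeries.X : PowerSeries M) ^ (k + 2) ∣ U - w' ^ n ∧
        (PowerSeries.X : PowerSeries M) ^ (k + 1) ∣ w' - w := by
    rintro k w hw ⟨t, ht⟩
    set a : M := PowerSeries.constantCoeff t / n with ha
    refine ⟨w + PowerSeries.C a * PowerSeries.X ^ (k + 1), by simp [hw], ?_,
      ⟨PowerSeries.C a, by ring⟩⟩
    obtain ⟨q, hq⟩ := Polynomial.powAddExpansion w (PowerSeries.C a * PowerSeries.X ^ (k + 1)) n
    have h1 : U - (w + PowerSeries.C a * PowerSeries.X ^ (k + 1)) ^ n =
        PowerSeries.X ^ (k + 1) * (t - (n : PowerSeries M) * w ^ (n - 1) * PowerSeries.C a -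
          q * PowerSeries.C a ^ 2 * PowerSeries.X ^ (k + 1)) := by
      rw [hq]
      have : U = w ^ n + PowerSeries.X ^ (k + 1) * t := by rw [← ht]; ring
      rw [this]
      ring
    have h2 : (PowerSeries.X : PowerSeries M) ∣ (t - (n : PowerSeries M) * w ^ (n - 1) * PowerSeries.C a -
          q * PowerSeries.C a ^ 2 * PowerSeries.X ^ (k + 1)) := by
      rw [PowerSeries.X_dvd_iff]
      simp only [map_sub, map_mul, map_pow, map_natCast, hw, one_pow, PowerSeries.constantCoeff_C,
        PowerSeries.constantCoeff_X, ha]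
      rw [zero_pow (Nat.succ_ne_zero k), mul_zero, sub_zero, mul_one, mul_div_cancel₀ _ hn,
        sub_self]
    obtain ⟨e, he⟩ := h2
    rw [h1, he]
    exact ⟨e, by ring⟩
  choose! nx h1 h2 h3 using step
  let s : ℕ → PowerSeries M := fun k => Nat.rec 1 (fun k w => nx k w) k
  have hs : ∀ k, PowerSeries.constantCoeff (s k) = 1 ∧
      (PowerSeries.X : PowerSeries M) ^ (k + 1) ∣ U - s k ^ n := by
    intro k
    induction k with
    | zero =>
      refine ⟨map_one _, ?_⟩
      show (PowerSeries.X : PowerSeries M) ^ 1 ∣ U - 1 ^ n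
      rw [pow_one, one_pow, PowerSeries.X_dvd_iff, map_sub, hU, map_one, sub_self]
    | succ k ih => exact ⟨h1 k _ ih.1 ih.2, h2 k _ ih.1 ih.2⟩
  have hs' : ∀ k, (PowerSeries.X : PowerSeries M) ^ (k + 1) ∣ s (k + 1) - s k :=
    fun k => h3 k _ (hs k).1 (hs k).2
  have hst : ∀ m k, m ≤ k → PowerSeries.coeff m (s k) = PowerSeries.coeff m (s m) := by
    intro m k hmk
    induction k, hmk using Nat.le_induction with
    | base => rfl
    | succ k hk ih =>
      have h4 := (PowerSeries.X_pow_dvd_iff.1 (hs' k)) m (by omega)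
      rw [map_sub, sub_eq_zero] at h4
      rw [h4, ih]
  set w : PowerSeries M := PowerSeries.mk fun k => PowerSeries.coeff k (s k) with hw
  have hlim : ∀ k, (PowerSeries.X : PowerSeries M) ^ (k + 1) ∣ s k - w := by
    intro k
    rw [PowerSeries.X_pow_dvd_iff]
    intro m hm
    rw [map_sub, hw, PowerSeries.coeff_mk, hst m k (by omega), sub_self]
  refine ⟨w, ?_⟩
  ext m
  have h5 : (PowerSeries.X : PowerSeries M) ^ (m + 1) ∣ U - w ^ n := by
    have h6 : U - w ^ n = (U - s m ^ n) + (s m ^ n - w ^ n) := by ring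
    rw [h6]
    exact dvd_add (hs m).2 (dvd_trans (hlim m) (sub_dvd_pow_sub_pow _ _ n))
  have h7 := (PowerSeries.X_pow_dvd_iff.1 h5) m (by omega)
  rw [map_sub, sub_eq_zero] at h7
  exact h7.symm

end Pool.Agent.U605.CZ
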