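import Pool.Agent.U605.CZ.G8
import Pool.Agent.U605.CZ.G9

/-!
# Kummer extensions containing the eigenvalues of the values of the centraliser
-/

set_option autoImplicit false

namespace Pool.Agent.U605.CZ

open Matrix

section curve

variable {K : Type*} [Field K] {σ : Type*} {n : ℕ} {L : Type*} [Field L] [Algebra K L]

/-- the line through two tuples -/
noncomputable def line (X Z : σ → Matrix (Fin n) (Fin n) L) (s : σ) :
    Matrix (Fin n) (Fin n) (Polynomial L) :=
  Matrix.of fun i j => Polynomial.C (X s i j) + Polynomial.X * Polynomial.C (Z s i j - X s i j)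

theorem line_eval (X Z : σ → Matrix (Fin n) (Fin n) L) {A : Type*} [CommRing A] [Algebra L A]
    [Algebra K A] [IsScalarTower K L A] (t : A) (s : σ) :
    (((Polynomial.aeval t : Polynomial L →ₐ[L] A).restrictScalars K).mapMatrix (line X Z s)) =
      Matrix.of fun i j => algebraMap L A (X s i j) + t * algebraMap L A (Z s i j - X s i j) := by
  ext i j
  simp [line]

theorem exists_curve [Infinite K] {c : PF K σ n} (hc : c ≠ 0)
    (X : σ → Matrix (Fin n) (Fin n) L) :
    ∃ (Z : σ → Matrix (Fin n) (Fin n) L) (k : ℕ) (u : Polynomial L), u.eval 0 ≠ 0 ∧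
      ev (line X Z) c = Polynomial.X ^ k * u := by
  obtain ⟨Z₀, hZ₀⟩ : ∃ Z₀ : σ → Matrix (Fin n) (Fin n) K, ev Z₀ c ≠ 0 := by
    by_contra hcon
    push Not at hcon
    exact hc (eq_of_ev fun X => by rw [hcon X, map_zero])
  set Z : σ → Matrix (Fin n) (Fin n) L := fun s => (Algebra.ofId K L).mapMatrix (Z₀ s) with hZ
  have hZc : ev Z c ≠ 0 := by
    rw [hZ, ← ev_map]
    intro h0
    exact hZ₀ ((algebraMap K L).injective (h0.trans (map_zero _).symm))
  have h1 := ev_map ((Polynomial.aeval (1 : L) : Polynomial L →ₐ[L] L).restrictScalars K)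
    (line X Z) c
  have h2 : (fun s => ((Polynomial.aeval (1 : L) : Polynomial L →ₐ[L] L).restrictScalars
      K).mapMatrix (line X Z s)) = Z := by
    funext s
    rw [line_eval]
    ext i j
    simp
  rw [h2] at h1
  have h3 : ev (line X Z) c ≠ 0 := by
    intro h0
    rw [h0, map_zero] at h1
    exact hZc h1.symm
  obtain ⟨u, hu, hu2⟩ := Polynomial.exists_eq_pow_rootMultiplicity_mul_and_not_dvd _ h3 0
  rw [Polynomial.C_0, sub_zero] at hu
  exact ⟨Z, Polynomial.rootMultiplicity 0 (ev (line X Z) c), u,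
    fun h0 => hu2 (Polynomial.dvd_iff_isRoot.2 h0), hu⟩

end curve

section main

variable {K : Type*} [Field K] {σ : Type*} {n : ℕ} {L : Type*} [Field L] [Algebra K L]

/-- the constant coefficient as a homomorphism of algebras -/
noncomputable def ccA (K : Type*) [Field K] (M : Type*) [Field M] [Algebra K M] :
    PowerSeries M →ₐ[K] M :=
  { (PowerSeries.constantCoeff : PowerSeries M →+* M) with
    commutes' := fun r => by
      show PowerSeries.constantCoeff (algebraMap K (PowerSeries M) r) = algebraMap K M r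
      rw [PowerSeries.algebraMap_apply, PowerSeries.constantCoeff_C] }

theorem roots_curve (hn : n.Prime) (hnK : (n : K) ≠ 0) {f : FreeAlgebra K σ}
    {c : PF K σ n}
    (hF : (FreeAlgebra.lift K (CZ.gen K σ n) f).charpoly = Polynomial.X ^ n - Polynomial.C c)
    (X Z : σ → Matrix (Fin n) (Fin n) L) (k : ℕ) (u : Polynomial L) (hu : u.eval 0 ≠ 0)
    (hcu : ev (line X Z) c = Polynomial.X ^ k * u) {g : FreeAlgebra K σ}
    (hGF : FreeAlgebra.lift K (CZ.gen K σ n) g * FreeAlgebra.lift K (CZ.gen K σ n) f =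
      FreeAlgebra.lift K (CZ.gen K σ n) f * FreeAlgebra.lift K (CZ.gen K σ n) g)
    {M : Type*} [Field M] [Algebra L M] [Algebra K M] [IsScalarTower K L M] {ζ v : M}
    (hζ : IsPrimitiveRoot ζ n) (hv : v ^ n = algebraMap L M (u.eval 0)) :
    ∃ ρ : Fin n → M, (FreeAlgebra.lift K X g).charpoly.map (algebraMap L M) =
      ∏ i, (Polynomial.X - Polynomial.C (ρ i)) := by
  have hn0 : n ≠ 0 := hn.ne_zero
  have hnM : (n : M) ≠ 0 := by
    have := (algebraMap K M).injective.ne hnK
    rwa [map_natCast, map_zero] at this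
  have hd0 : algebraMap L M (u.eval 0) ≠ 0 := by
    intro h0
    exact hu ((algebraMap L M).injective (h0.trans (map_zero _).symm))
  set d : M := algebraMap L M (u.eval 0) with hd
  set S := PowerSeries M with hS
  set θ : Polynomial L →ₐ[L] S := Polynomial.aeval ((PowerSeries.X : S) ^ n) with hθ
  set XS : σ → Matrix (Fin n) (Fin n) S := fun s => (θ.restrictScalars K).mapMatrix (line X Z s)
    with hXS
  set U : S := θ u with hU
  have hUc : PowerSeries.constantCoeff U = d := by
    have h1 : ((ccA L M : S →ₐ[L] M).comp θ) = Polynomial.aeval (0 : M) := by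
      refine Polynomial.algHom_ext ?_
      rw [AlgHom.comp_apply, hθ, Polynomial.aeval_X, Polynomial.aeval_X]
      show PowerSeries.constantCoeff ((PowerSeries.X : S) ^ n) = 0
      rw [map_pow, PowerSeries.constantCoeff_X, zero_pow hn0]
    have h2 := DFunLike.congr_fun h1 u
    rw [AlgHom.comp_apply] at h2
    refine h2.trans ?_
    rw [hd, Polynomial.aeval_def, ← map_zero (algebraMap L M), Polynomial.eval₂_at_apply]
  obtain ⟨w, hw⟩ := ps_root hnM (PowerSeries.C d⁻¹ * U) (by
    rw [map_mul, PowerSeries.constantCoeff_C, hUc, inv_mul_cancel₀ hd0])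
  have hUw : U = PowerSeries.C d * w ^ n := by
    rw [hw, ← mul_assoc, ← map_mul, mul_inv_cancel₀ hd0, map_one, one_mul]
  have hU0 : U ≠ 0 := by
    intro h0
    rw [h0, map_zero] at hUc
    exact hd0 hUc.symm
  have hcS : ev XS c = (PowerSeries.X : S) ^ (n * k) * U := by
    have h1 := ev_map (θ.restrictScalars K) (line X Z) c
    rw [hcu] at h1
    have h2 : (θ.restrictScalars K) (Polynomial.X ^ k * u) = (PowerSeries.X : S) ^ (n * k) * U := by
      rw [AlgHom.restrictScalars_apply, map_mul, map_pow, hθ, Polynomial.aeval_X, pow_mul]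
    rw [h2] at h1
    exact h1.symm
  set t : S := PowerSeries.X ^ k * (PowerSeries.C v * w) with ht
  have htn : t ^ n = ev XS c := by
    rw [hcS, hUw, ht, mul_pow, mul_pow, ← map_pow, hv, ← pow_mul, mul_comm k n]
  have ht0 : t ≠ 0 := by
    intro h0
    rw [h0, zero_pow hn0, hcS] at htn
    exact mul_ne_zero (pow_ne_zero _ PowerSeries.X_ne_zero) hU0 htn.symm
  set N := FractionRing S with hN
  set φ : S →+* N := algebraMap S N with hφ
  have hφinj : Function.Injective φ := IsFractionRing.injective S N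
  set FS := FreeAlgebra.lift K XS f with hFS
  set GS := FreeAlgebra.lift K XS g with hGS
  have hFSe : (ev XS : PF K σ n →ₐ[K] S).mapMatrix (FreeAlgebra.lift K (CZ.gen K σ n) f) = FS :=
    ev_gen XS f
  have hGSe : (ev XS : PF K σ n →ₐ[K] S).mapMatrix (FreeAlgebra.lift K (CZ.gen K σ n) g) = GS :=
    ev_gen XS g
  have hcharFS : FS.charpoly = Polynomial.X ^ n - Polynomial.C (ev XS c) := by
    have h1 := Matrix.charpoly_map (FreeAlgebra.lift K (CZ.gen K σ n) f)
      ((ev XS : PF K σ n →ₐ[K] S) : PF K σ n →+* S)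
    have h2 : (FreeAlgebra.lift K (CZ.gen K σ n) f).map
        ((ev XS : PF K σ n →ₐ[K] S) : PF K σ n →+* S) = FS := hFSe
    rw [h2, hF] at h1
    rw [h1]
    simp
  have hcomm : GS * FS = FS * GS := by
    rw [← hFSe, ← hGSe, ← map_mul, hGF, map_mul]
  set l : Fin n → N := fun i => φ (PowerSeries.C (ζ ^ (i : ℕ)) * t) with hl
  have hlinj : Function.Injective l := by
    intro i j hij
    have h1 := mul_right_cancel₀ ht0 (hφinj hij)
    have h2 := PowerSeries.C_injective h1
    exact Fin.ext (hζ.pow_inj i.2 j.2 h2)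
  obtain ⟨T, hT, hFT⟩ := exists_diag (φ.mapMatrix FS) l hlinj fun i => by
    rw [RingHom.mapMatrix_apply, Matrix.charpoly_map, hcharFS, Polynomial.IsRoot.def,
      Polynomial.eval_map, Polynomial.eval₂_sub, Polynomial.eval₂_pow, Polynomial.eval₂_X,
      Polynomial.eval₂_C, hl, ← map_pow, ← map_sub, mul_pow, htn, ← map_pow, ← pow_mul,
      mul_comm (i : ℕ) n, pow_mul, hζ.pow_eq_one, one_pow, map_one, one_mul, sub_self, map_zero]
  obtain ⟨r, hGT⟩ := comm_diag (G := φ.mapMatrix GS) hlinj hT hFT
    (by rw [← map_mul, hcomm, map_mul])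
  have hchar : GS.charpoly.map φ = ∏ i, (Polynomial.X - Polynomial.C (r i)) := by
    rw [← Matrix.charpoly_map]
    obtain ⟨y, rfl⟩ := hT
    have h1 : GS.map φ = (y : Matrix (Fin n) (Fin n) N) * diagonal r *
        ((y⁻¹ : (Matrix (Fin n) (Fin n) N)ˣ) : Matrix (Fin n) (Fin n) N) := by
      have h2 : φ.mapMatrix GS = GS.map φ := rfl
      rw [← h2, ← hGT, mul_assoc, y.mul_inv, mul_one]
    rw [h1]
    have h3 := Matrix.charpoly_units_conj y (diagonal r)
    rw [Matrix.coe_units_inv, h3]
    exact Matrix.charpoly_diagonal r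
  have hrint : ∀ i, IsIntegral S (r i) := by
    intro i
    refine ⟨GS.charpoly, Matrix.charpoly_monic GS, ?_⟩
    rw [← Polynomial.eval_map, hchar, Polynomial.eval_prod]
    refine Finset.prod_eq_zero (Finset.mem_univ i) ?_
    simp
  choose ρ hρ using fun i => IsIntegrallyClosed.isIntegral_iff.1 (hrint i)
  have hcharS : GS.charpoly = ∏ i, (Polynomial.X - Polynomial.C (ρ i)) := by
    refine Polynomial.map_injective φ hφinj ?_
    rw [hchar, Polynomial.map_prod]
    refine Finset.prod_congr rfl fun i _ => ?_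
    rw [Polynomial.map_sub, Polynomial.map_X, Polynomial.map_C, ← hρ i]
  -- the constant terms
  have hXc : ∀ s, (ccA K M).mapMatrix (XS s) = (IsScalarTower.toAlgHom K L M).mapMatrix (X s) := by
    intro s
    rw [hXS]
    ext i j
    have h1 := congrFun (congrFun (line_eval (K := K) X Z ((PowerSeries.X : S) ^ n) s) i) j
    have h2 : ((θ.restrictScalars K).mapMatrix (line X Z s)) i j =
        algebraMap L S (X s i j) + (PowerSeries.X : S) ^ n * algebraMap L S (Z s i j - X s i j) := h1
    show PowerSeries.constantCoeff (((θ.restrictScalars K).mapMatrix (line X Z s)) i j) =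
      algebraMap L M (X s i j)
    rw [h2, map_add, map_mul, map_pow, PowerSeries.constantCoeff_X, zero_pow hn0, zero_mul,
      add_zero, PowerSeries.algebraMap_apply, PowerSeries.constantCoeff_C]
  have hGc : (ccA K M).mapMatrix GS =
      (IsScalarTower.toAlgHom K L M).mapMatrix (FreeAlgebra.lift K X g) := by
    rw [Pool.Agent.H552R3.PC.lift_map ((IsScalarTower.toAlgHom K L M).mapMatrix) X g, hGS,
      Pool.Agent.H552R3.PC.lift_map ((ccA K M).mapMatrix) XS g]
    congr 1
    simp only [hXc]
  refine ⟨fun i => ccA K M (ρ i), ?_⟩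
  have h4 : (FreeAlgebra.lift K X g).charpoly.map (algebraMap L M) =
      GS.charpoly.map ((ccA K M : S →ₐ[K] M) : S →+* M) := by
    rw [← Matrix.charpoly_map, ← Matrix.charpoly_map]
    congr 1
    exact hGc.symm
  rw [h4, hcharS, Polynomial.map_prod]
  refine Finset.prod_congr rfl fun i _ => ?_
  rw [Polynomial.map_sub, Polynomial.map_X, Polynomial.map_C]
  rfl

end main

end Pool.Agent.U605.CZ
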