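import Pool.Agent.U605.CZ.G10

/-!
# The common Kummer extension
-/

set_option autoImplicit false

namespace Pool.Agent.U605.CZ

open Matrix Polynomial

universe u v w x

theorem exists_kummer {L : Type*} [Field L] {n : ℕ} (hn : n.Prime) (hnL : (n : L) ≠ 0) {d : L}
    (hd : d ≠ 0) : ∃ ζ v : (X ^ n - C d : L[X]).SplittingField, IsPrimitiveRoot ζ n ∧
      v ^ n = algebraMap L (X ^ n - C d : L[X]).SplittingField d := by
  have hsp := Polynomial.SplittingField.splits (X ^ n - C d : L[X])
  have hsep : (X ^ n - C d : L[X]).Separable := Polynomial.separable_X_pow_sub_C d hnL hd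
  have hcard := Polynomial.card_rootSet_eq_natDegree hsep hsp
  rw [Polynomial.natDegree_X_pow_sub_C] at hcard
  obtain ⟨a, b, hab⟩ := Fintype.exists_pair_of_one_lt_card (by rw [hcard]; exact hn.one_lt)
  have hroot : ∀ a : (X ^ n - C d : L[X]).rootSet (X ^ n - C d : L[X]).SplittingField,
      (a : (X ^ n - C d : L[X]).SplittingField) ^ n = algebraMap L _ d := by
    intro a
    have h1 := Polynomial.aeval_eq_zero_of_mem_rootSet a.2
    rw [map_sub, map_pow, Polynomial.aeval_X, Polynomial.aeval_C, sub_eq_zero] at h1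
    exact h1
  have hd' : algebraMap L (X ^ n - C d : L[X]).SplittingField d ≠ 0 := by
    intro h0
    exact hd ((algebraMap L _).injective (h0.trans (map_zero _).symm))
  have hb0 : (b : (X ^ n - C d : L[X]).SplittingField) ≠ 0 := by
    intro h0
    have := hroot b
    rw [h0, zero_pow hn.ne_zero] at this
    exact hd' this.symm
  refine ⟨(a : (X ^ n - C d : L[X]).SplittingField) / b, b, ?_, hroot b⟩
  have : Fact n.Prime := ⟨hn⟩
  have h1 : orderOf ((a : (X ^ n - C d : L[X]).SplittingField) / b) = n := by
    refine orderOf_eq_prime ?_ ?_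
    · rw [div_pow, hroot a, hroot b, div_self hd']
    · intro h2
      rw [div_eq_one_iff_eq hb0] at h2
      exact hab (Subtype.ext h2)
  have h2 := IsPrimitiveRoot.orderOf ((a : (X ^ n - C d : L[X]).SplittingField) / b)
  rwa [h1] at h2

theorem split_or_cyclic_of_finrank {k : Type*} [Field k] {p : k[X]} {n : ℕ} (hn : n.Prime)
    (hpm : p.Monic) (hp : p.natDegree = n) (T : Type*) [Field T] [Algebra k T]
    [FiniteDimensional k T] [Algebra.IsSeparable k T] (hT : Module.finrank k T = n)
    (hsp : (p.map (algebraMap k T)).Splits) :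
    p.Splits ∨ (Irreducible p ∧ Nat.card p.Gal = n) := by
  by_cases hall : ∀ x : T, aeval x p = 0 → x ∈ (algebraMap k T).range
  · left
    refine Polynomial.Splits.of_splits_map (algebraMap k T) hsp fun x hx => hall x ?_
    have := Polynomial.isRoot_of_mem_roots hx
    rwa [Polynomial.IsRoot.def, Polynomial.eval_map, ← Polynomial.aeval_def] at this
  · right
    push Not at hall
    obtain ⟨x, hx, hxr⟩ := hall
    have hint : IsIntegral k x := ⟨p, hpm, hx⟩
    have h1 : (minpoly k x).natDegree ∣ n := by
      rw [← IntermediateField.adjoin.finrank hint, ← hT]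
      exact Dvd.intro _ (Module.finrank_mul_finrank k (IntermediateField.adjoin k {x}) T)
    have h2 : (minpoly k x).natDegree = n := by
      rcases (Nat.dvd_prime hn).1 h1 with h | h
      · exact absurd (minpoly.natDegree_eq_one_iff.1 h) hxr
      · exact h
    have h3 : p = minpoly k x :=
      Polynomial.eq_of_monic_of_dvd_of_natDegree_le (minpoly.monic hint) hpm
        (minpoly.dvd k x hx) (by rw [h2, hp])
    have hirr : Irreducible p := by
      rw [h3]
      exact minpoly.irreducible hint
    have hsep : p.Separable := by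
      rw [h3]
      exact Algebra.IsSeparable.isSeparable k x
    refine ⟨hirr, ?_⟩
    rw [Polynomial.Gal.card_of_separable hsep]
    refine le_antisymm ?_ ?_
    · rw [← hT]
      exact LinearMap.finrank_le_finrank_of_injective
        (f := (Polynomial.SplittingField.lift p hsp).toLinearMap)
        (Polynomial.SplittingField.lift p hsp).toRingHom.injective
    · have hd : (p.map (algebraMap k p.SplittingField)).degree ≠ 0 := by
        rw [Polynomial.degree_map, Polynomial.degree_eq_natDegree hpm.ne_zero, hp]
        exact_mod_cast hn.ne_zero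
      obtain ⟨y, hy⟩ := (Polynomial.SplittingField.splits p).exists_eval_eq_zero hd
      rw [Polynomial.eval_map, ← Polynomial.aeval_def] at hy
      have h4 := minpoly.eq_of_irreducible_of_monic hirr hy hpm
      have h5 := minpoly.natDegree_le (A := k) y
      rwa [← h4, hp] at h5

theorem kummer_values {K : Type u} [Field K] [Infinite K] {σ : Type v} {n : ℕ} (hn : n.Prime)
    (hnK : (n : K) ≠ 0) {f : FreeAlgebra K σ} {c : PF K σ n} (hc : c ≠ 0)
    (hF : (FreeAlgebra.lift K (CZ.gen K σ n) f).charpoly = Polynomial.X ^ n - Polynomial.C c)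
    {L : Type w} [Field L] [Algebra K L] (X : σ → Matrix (Fin n) (Fin n) L) :
    ∃ d : L, d ≠ 0 ∧ ∀ g : FreeAlgebra K σ,
      FreeAlgebra.lift K (CZ.gen K σ n) g * FreeAlgebra.lift K (CZ.gen K σ n) f =
        FreeAlgebra.lift K (CZ.gen K σ n) f * FreeAlgebra.lift K (CZ.gen K σ n) g →
      ((FreeAlgebra.lift K X g).charpoly.map
        (algebraMap L (Polynomial.X ^ n - Polynomial.C d : L[X]).SplittingField)).Splits ∧
      Group.IsSolvable (FreeAlgebra.lift K X g).charpoly.Gal ∧
      ∀ ζ : L, IsPrimitiveRoot ζ n → (FreeAlgebra.lift K X g).charpoly.Splits ∨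
        (Irreducible (FreeAlgebra.lift K X g).charpoly ∧
          Nat.card (FreeAlgebra.lift K X g).charpoly.Gal = n) := by
  have hnL : (n : L) ≠ 0 := by
    have := (algebraMap K L).injective.ne hnK
    rwa [map_natCast, map_zero] at this
  obtain ⟨Z, k, q, hq, hcu⟩ := exists_curve hc X
  refine ⟨q.eval 0, hq, fun g hGF => ?_⟩
  set d := q.eval 0 with hd
  have key : ∀ (M : Type w) [Field M] [Algebra L M] (ζ v : M), IsPrimitiveRoot ζ n →
      v ^ n = algebraMap L M d →
      ((FreeAlgebra.lift K X g).charpoly.map (algebraMap L M)).Splits := by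
    intro M _ _ ζ v hζ hv
    let _ : Algebra K M := ((algebraMap L M).comp (algebraMap K L)).toAlgebra
    have : IsScalarTower K L M := IsScalarTower.of_algebraMap_eq fun _ => rfl
    obtain ⟨ρ, hρ⟩ := roots_curve hn hnK hF X Z k q hq hcu hGF hζ hv
    rw [hρ]
    exact Polynomial.Splits.prod fun i _ => Polynomial.Splits.X_sub_C _
  have hdeg : (FreeAlgebra.lift K X g).charpoly.natDegree = n := by
    rw [Matrix.charpoly_natDegree_eq_dim, Fintype.card_fin]
  have hsplit : ((FreeAlgebra.lift K X g).charpoly.map
      (algebraMap L (Polynomial.X ^ n - Polynomial.C d : L[X]).SplittingField)).Splits := by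
    obtain ⟨ζ, v, hζ, hv⟩ := exists_kummer hn hnL hq
    exact key _ ζ v hζ hv
  refine ⟨hsplit, gal_isSolvable_of_splits ⟨hsplit⟩ (gal_X_pow_sub_C_isSolvable n d), ?_⟩
  intro ζ hζ
  by_cases hv : ∃ v : L, v ^ n = d
  · left
    obtain ⟨v, hv⟩ := hv
    have h1 := key L ζ v hζ hv
    rwa [Algebra.algebraMap_self, Polynomial.map_id] at h1
  · push Not at hv
    have hirr := X_pow_sub_C_irreducible_of_prime hn hv
    have hne : (primitiveRoots n L).Nonempty := ⟨ζ, (mem_primitiveRoots hn.pos).2 hζ⟩
    have : IsGalois L (Polynomial.X ^ n - Polynomial.C d : L[X]).SplittingField :=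
      isGalois_of_isSplittingField_X_pow_sub_C hne hirr _
    exact split_or_cyclic_of_finrank hn (Matrix.charpoly_monic _) hdeg _
      (finrank_of_isSplittingField_X_pow_sub_C hne hirr _) hsplit

end Pool.Agent.U605.CZ
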