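import Pool.Agent.U605.CZ.G11

/-!
# Specialisation of the centraliser to a Kummer algebra
-/

set_option autoImplicit false

namespace Pool.Agent.U605.CZ

open Matrix

section main

variable {K : Type*} [Field K] {σ : Type*} {n : ℕ} {L : Type*} [Field L] [Algebra K L]

/-- `g` commutes with `f` on the generic matrices -/
def cm (K : Type*) [Field K] {σ : Type*} (n : ℕ) (f g : FreeAlgebra K σ) : Prop :=
  FreeAlgebra.lift K (CZ.gen K σ n) g * FreeAlgebra.lift K (CZ.gen K σ n) f =
      FreeAlgebra.lift K (CZ.gen K σ n) f * FreeAlgebra.lift K (CZ.gen K σ n) g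

theorem cm.mul {f g g' : FreeAlgebra K σ} (h : cm K n f g) (h' : cm K n f g') :
    cm K n f (g * g') := by
  unfold cm at *
  rw [map_mul, mul_assoc, h', ← mul_assoc, h, mul_assoc]

theorem cm.add {f g g' : FreeAlgebra K σ} (h : cm K n f g) (h' : cm K n f g') :
    cm K n f (g + g') := by
  unfold cm at *
  rw [map_add, add_mul, h, h', mul_add]

theorem cm_algebraMap (f : FreeAlgebra K σ) (a : K) :
    cm K n f (algebraMap K (FreeAlgebra K σ) a) := by
  unfold cm
  rw [AlgHom.commutes]
  exact Algebra.commutes a _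

theorem curve_hom (hn : n.Prime) (hnK : (n : K) ≠ 0) {f : FreeAlgebra K σ}
    {c : PF K σ n}
    (hF : (FreeAlgebra.lift K (CZ.gen K σ n) f).charpoly = Polynomial.X ^ n - Polynomial.C c)
    (X Z : σ → Matrix (Fin n) (Fin n) L) (k : ℕ) (u : Polynomial L) (hu : u.eval 0 ≠ 0)
    (hcu : ev (line X Z) c = Polynomial.X ^ k * u)
    {M : Type*} [Field M] [Algebra L M] [Algebra K M] [IsScalarTower K L M] {ζ v : M}
    (hζ : IsPrimitiveRoot ζ n) (hv : v ^ n = algebraMap L M (u.eval 0)) :
    ∃ ρ : FreeAlgebra K σ → Fin n → M,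
      (∀ g, cm K n f g → (FreeAlgebra.lift K X g).charpoly.map (algebraMap L M) =
        ∏ i, (Polynomial.X - Polynomial.C (ρ g i))) ∧
      (∀ g g', cm K n f g → cm K n f g' → ∀ i, ρ (g * g') i = ρ g i * ρ g' i) ∧
      (∀ g g', cm K n f g → cm K n f g' → ∀ i, ρ (g + g') i = ρ g i + ρ g' i) ∧
      (∀ a i, ρ (algebraMap K (FreeAlgebra K σ) a) i = algebraMap K M a) ∧
      ∀ g, cm K n f g → ∃ h : Polynomial L, ∀ i : Fin n,
        Polynomial.aeval (ζ ^ (i : ℕ) * v) h = ρ g i := by
  have hn0 : n ≠ 0 := hn.ne_zero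
  have hnL : (n : L) ≠ 0 := by
    have := (algebraMap K L).injective.ne hnK
    rwa [map_natCast, map_zero] at this
  have hnM : (n : M) ≠ 0 := by
    have := (algebraMap K M).injective.ne hnK
    rwa [map_natCast, map_zero] at this
  set d : L := u.eval 0 with hd
  have hd0 : algebraMap L M d ≠ 0 := by
    intro h0
    exact hu ((algebraMap L M).injective (h0.trans (map_zero _).symm))
  set S₀ := PowerSeries L with hS₀
  set S := PowerSeries M with hS
  set μ : S₀ →ₐ[K] S := PowerSeries.mapAlgHom (IsScalarTower.toAlgHom K L M) with hμ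
  have hμC : ∀ a : L, μ (PowerSeries.C a) = PowerSeries.C (algebraMap L M a) := by
    intro a
    rw [hμ, PowerSeries.mapAlgHom_apply, PowerSeries.map_C]
    rfl
  have hμX : μ (PowerSeries.X : S₀) = (PowerSeries.X : S) := by
    rw [hμ, PowerSeries.mapAlgHom_apply, PowerSeries.map_X]
  have hμc : ∀ (m : ℕ) (p : S₀), PowerSeries.coeff m (μ p) =
      algebraMap L M (PowerSeries.coeff m p) := by
    intro m p
    rw [hμ, PowerSeries.mapAlgHom_apply, PowerSeries.coeff_map]
    rfl
  set θ : Polynomial L →ₐ[L] S₀ := Polynomial.aeval ((PowerSeries.X : S₀) ^ n) with hθ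
  set XS₀ : σ → Matrix (Fin n) (Fin n) S₀ := fun s => (θ.restrictScalars K).mapMatrix (line X Z s)
    with hXS₀
  set XS : σ → Matrix (Fin n) (Fin n) S := fun s => μ.mapMatrix (XS₀ s) with hXS
  set U : S₀ := θ u with hU
  have hUc : PowerSeries.constantCoeff U = d := by
    have h1 : ((ccA L L : S₀ →ₐ[L] L).comp θ) = Polynomial.aeval (0 : L) := by
      refine Polynomial.algHom_ext ?_
      rw [AlgHom.comp_apply, hθ, Polynomial.aeval_X, Polynomial.aeval_X]
      show PowerSeries.constantCoeff ((PowerSeries.X : S₀) ^ n) = 0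
      rw [map_pow, PowerSeries.constantCoeff_X, zero_pow hn0]
    have h2 := DFunLike.congr_fun h1 u
    rw [AlgHom.comp_apply] at h2
    refine h2.trans ?_
    rw [hd, Polynomial.coe_aeval_eq_eval]
  obtain ⟨w, hw⟩ := ps_root hnL (PowerSeries.C d⁻¹ * U) (by
    rw [map_mul, PowerSeries.constantCoeff_C, hUc, inv_mul_cancel₀ hu])
  have hUw : U = PowerSeries.C d * w ^ n := by
    rw [hw, ← mul_assoc, ← map_mul, mul_inv_cancel₀ hu, map_one, one_mul]
  have hU0 : U ≠ 0 := by
    intro h0
    rw [h0, map_zero] at hUc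
    exact hu hUc.symm
  have hwu : IsUnit w := by
    rw [PowerSeries.isUnit_iff_constantCoeff, isUnit_iff_ne_zero]
    intro h0
    rw [hUw, map_mul, map_pow, h0, zero_pow hn0, mul_zero] at hUc
    exact hu hUc.symm
  obtain ⟨w', hw'⟩ := hwu.exists_right_inv
  have hcS₀ : ev XS₀ c = (PowerSeries.X : S₀) ^ (n * k) * U := by
    have h1 := ev_map (θ.restrictScalars K) (line X Z) c
    rw [hcu] at h1
    have h2 : (θ.restrictScalars K) (Polynomial.X ^ k * u) =
        (PowerSeries.X : S₀) ^ (n * k) * U := by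
      rw [AlgHom.restrictScalars_apply, map_mul, map_pow, hθ, Polynomial.aeval_X, pow_mul]
    rw [h2] at h1
    exact h1.symm
  have hcS : ev XS c = (PowerSeries.X : S) ^ (n * k) * μ U := by
    have h1 := ev_map μ XS₀ c
    rw [hcS₀, map_mul, map_pow, hμX] at h1
    exact h1.symm
  set t : S := PowerSeries.X ^ k * (PowerSeries.C v * μ w) with ht
  have htn : t ^ n = ev XS c := by
    rw [hcS, hUw, ht, mul_pow, mul_pow, ← map_pow, hv, ← pow_mul, mul_comm k n, map_mul, hμC,
      map_pow]
  have ht0 : t ≠ 0 := by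
    intro h0
    rw [h0, zero_pow hn0, hcS] at htn
    refine mul_ne_zero (pow_ne_zero _ PowerSeries.X_ne_zero) ?_ htn.symm
    intro h1
    have h2 := hμc 0 U
    rw [h1, PowerSeries.coeff_zero_eq_constantCoeff_apply,
      PowerSeries.coeff_zero_eq_constantCoeff_apply, map_zero, hUc] at h2
    exact hd0 h2.symm
  set N := FractionRing S with hN
  set φ : S →+* N := algebraMap S N with hφ
  have hφinj : Function.Injective φ := IsFractionRing.injective S N
  have hgen : ∀ g : FreeAlgebra K σ, (ev XS : PF K σ n →ₐ[K] S).mapMatrix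
      (FreeAlgebra.lift K (CZ.gen K σ n) g) = FreeAlgebra.lift K XS g := fun g => ev_gen XS g
  set FS := FreeAlgebra.lift K XS f with hFS
  have hcharFS : FS.charpoly = Polynomial.X ^ n - Polynomial.C (ev XS c) := by
    have h1 := Matrix.charpoly_map (FreeAlgebra.lift K (CZ.gen K σ n) f)
      ((ev XS : PF K σ n →ₐ[K] S) : PF K σ n →+* S)
    have h2 : (FreeAlgebra.lift K (CZ.gen K σ n) f).map
        ((ev XS : PF K σ n →ₐ[K] S) : PF K σ n →+* S) = FS := hgen f
    rw [h2, hF] at h1
    rw [h1]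
    simp
  set l : Fin n → N := fun i => φ (PowerSeries.C (ζ ^ (i : ℕ)) * t) with hl
  have hlinj : Function.Injective l := by
    intro i j hij
    have h1 := mul_right_cancel₀ ht0 (hφinj hij)
    have h2 := PowerSeries.C_injective h1
    exact Fin.ext (hζ.pow_inj i.2 j.2 h2)
  obtain ⟨T, hT, hFT⟩ := exists_diag (φ.mapMatrix FS) l hlinj fun i => by
    rw [RingHom.mapMatrix_apply, Matrix.charpoly_map, hcharFS, Polynomial.IsRoot.def,
      Polynomial.eval_map, Polynomial.eval₂_sub, Polynomial.eval₂_pow, Polynomial.eval₂_X,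
      Polynomial.eval₂_C, hl, ← map_pow, ← map_sub, mul_pow, htn, ← map_pow, ← pow_mul,
      mul_comm (i : ℕ) n, pow_mul, hζ.pow_eq_one, one_pow, map_one, one_mul, sub_self, map_zero]
  have hex : ∀ g, cm K n f g → ∃ r : Fin n → N,
      φ.mapMatrix (FreeAlgebra.lift K XS g) * T = T * diagonal r := by
    intro g hg
    refine comm_diag hlinj hT hFT ?_
    rw [← map_mul, hFS, ← hgen, ← hgen, ← map_mul, hg, map_mul, map_mul]
  choose! r hr using hex
  have hchar : ∀ g, cm K n f g → (FreeAlgebra.lift K XS g).charpoly.map φ =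
      ∏ i, (Polynomial.X - Polynomial.C (r g i)) := by
    intro g hg
    rw [← Matrix.charpoly_map]
    obtain ⟨y, hy⟩ := hT
    have h1 : (FreeAlgebra.lift K XS g).map φ = (y : Matrix (Fin n) (Fin n) N) *
        diagonal (r g) * ((y⁻¹ : (Matrix (Fin n) (Fin n) N)ˣ) : Matrix (Fin n) (Fin n) N) := by
      have h2 : φ.mapMatrix (FreeAlgebra.lift K XS g) = (FreeAlgebra.lift K XS g).map φ := rfl
      have h3 := hr g hg
      rw [← hy] at h3
      rw [← h2, ← h3, mul_assoc, y.mul_inv, mul_one]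
    rw [h1]
    have h3 := Matrix.charpoly_units_conj y (diagonal (r g))
    rw [Matrix.coe_units_inv, h3]
    exact Matrix.charpoly_diagonal (r g)
  have hrint : ∀ g, cm K n f g → ∀ i, ∃ y : S, φ y = r g i := by
    intro g hg i
    refine IsIntegrallyClosed.isIntegral_iff.1
      ⟨(FreeAlgebra.lift K XS g).charpoly, Matrix.charpoly_monic _, ?_⟩
    rw [← Polynomial.eval_map, hchar g hg, Polynomial.eval_prod]
    refine Finset.prod_eq_zero (Finset.mem_univ i) ?_
    simp
  choose! ρ hρ using hrint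
  have hcharS : ∀ g, cm K n f g → (FreeAlgebra.lift K XS g).charpoly =
      ∏ i, (Polynomial.X - Polynomial.C (ρ g i)) := by
    intro g hg
    refine Polynomial.map_injective φ hφinj ?_
    rw [hchar g hg, Polynomial.map_prod]
    refine Finset.prod_congr rfl fun i _ => ?_
    rw [Polynomial.map_sub, Polynomial.map_X, Polynomial.map_C, ← hρ g hg i]
  -- the constant terms
  have hXc : ∀ s, (ccA K M).mapMatrix (XS s) = (IsScalarTower.toAlgHom K L M).mapMatrix (X s) := by
    intro s
    ext i j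
    have h1 := congrFun (congrFun (line_eval (K := K) X Z ((PowerSeries.X : S₀) ^ n) s) i) j
    have h2 : (XS₀ s) i j = algebraMap L S₀ (X s i j) +
      (PowerSeries.X : S₀) ^ n * algebraMap L S₀ (Z s i j - X s i j) := h1
    show PowerSeries.constantCoeff (μ ((XS₀ s) i j)) = algebraMap L M (X s i j)
    rw [← PowerSeries.coeff_zero_eq_constantCoeff_apply, hμc,
      PowerSeries.coeff_zero_eq_constantCoeff_apply, h2, map_add, map_mul, map_pow,
      PowerSeries.constantCoeff_X, zero_pow hn0, zero_mul,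
      add_zero, PowerSeries.algebraMap_apply, PowerSeries.constantCoeff_C]
    rfl
  have hGc : ∀ g, (ccA K M).mapMatrix (FreeAlgebra.lift K XS g) =
      (IsScalarTower.toAlgHom K L M).mapMatrix (FreeAlgebra.lift K X g) := by
    intro g
    rw [Pool.Agent.H552R3.PC.lift_map ((IsScalarTower.toAlgHom K L M).mapMatrix) X g,
      Pool.Agent.H552R3.PC.lift_map ((ccA K M).mapMatrix) XS g]
    congr 1
    simp only [hXc]
  obtain ⟨T', hT'⟩ := hT.exists_left_inv
  have hdiag : ∀ a b : Fin n → N, T * diagonal a = T * diagonal b → a = b := by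
    intro a b hab
    have h1 := congrArg (fun z => T' * z) hab
    simp only [← mul_assoc, hT', one_mul] at h1
    exact Matrix.diagonal_injective h1
  refine ⟨fun g i => ccA K M (ρ g i), ?_, ?_, ?_, ?_, ?_⟩
  · intro g hg
    have h4 : (FreeAlgebra.lift K X g).charpoly.map (algebraMap L M) =
        (FreeAlgebra.lift K XS g).charpoly.map ((ccA K M : S →ₐ[K] M) : S →+* M) := by
      rw [← Matrix.charpoly_map, ← Matrix.charpoly_map]
      congr 1
      exact (hGc g).symm
    rw [h4, hcharS g hg, Polynomial.map_prod]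
    refine Finset.prod_congr rfl fun i _ => ?_
    rw [Polynomial.map_sub, Polynomial.map_X, Polynomial.map_C]
    rfl
  · intro g g' hg hg' i
    have h1 : r (g * g') = fun i => r g i * r g' i := by
      refine hdiag _ _ ?_
      rw [← hr _ (hg.mul hg'), map_mul, map_mul, mul_assoc, hr g' hg', ← mul_assoc, hr g hg,
        mul_assoc, Matrix.diagonal_mul_diagonal]
    have h2 : ρ (g * g') i = ρ g i * ρ g' i := by
      apply hφinj
      rw [map_mul, hρ _ (hg.mul hg'), hρ g hg, hρ g' hg', h1]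
    show ccA K M (ρ (g * g') i) = _
    rw [h2, map_mul]
  · intro g g' hg hg' i
    have h1 : r (g + g') = fun i => r g i + r g' i := by
      refine hdiag _ _ ?_
      rw [← hr _ (hg.add hg'), map_add, map_add, add_mul, hr g' hg', hr g hg,
        ← mul_add, Matrix.diagonal_add]
    have h2 : ρ (g + g') i = ρ g i + ρ g' i := by
      apply hφinj
      rw [map_add, hρ _ (hg.add hg'), hρ g hg, hρ g' hg', h1]
    show ccA K M (ρ (g + g') i) = _
    rw [h2, map_add]
  · intro a i
    have h1 : r (algebraMap K (FreeAlgebra K σ) a) = fun _ => φ (algebraMap K S a) := by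
      refine hdiag _ _ ?_
      rw [← hr _ (cm_algebraMap f a), AlgHom.commutes]
      have h3 : φ.mapMatrix (algebraMap K (Matrix (Fin n) (Fin n) S) a) =
          diagonal fun _ => φ (algebraMap K S a) := by
        rw [RingHom.mapMatrix_apply, Matrix.algebraMap_eq_diagonal, Matrix.diagonal_map (map_zero _)]
        rfl
      rw [h3]
      have h4 := (Matrix.scalar_commute (φ (algebraMap K S a)) (fun _ => Commute.all _ _) T).eq
      rw [Matrix.scalar_apply] at h4
      exact h4
    have h2 : ρ (algebraMap K (FreeAlgebra K σ) a) i = algebraMap K S a := by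
      apply hφinj
      rw [hρ _ (cm_algebraMap f a), h1]
    show ccA K M (ρ (algebraMap K (FreeAlgebra K σ) a) i) = _
    rw [h2, AlgHom.commutes]
  · intro g hg
    -- the traces
    set GS₀ := FreeAlgebra.lift K XS₀ g with hGS₀
    set FS₀ := FreeAlgebra.lift K XS₀ f with hFS₀
    have hGm : μ.mapMatrix GS₀ = FreeAlgebra.lift K XS g :=
      Pool.Agent.H552R3.PC.lift_map (μ.mapMatrix) XS₀ g
    have hFm : μ.mapMatrix FS₀ = FS := Pool.Agent.H552R3.PC.lift_map (μ.mapMatrix) XS₀ f
    have htr : ∀ e : ℕ, μ ((GS₀ * FS₀ ^ e).trace) =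
        PowerSeries.X ^ (k * e) * (μ w ^ e * ∑ i, ρ g i * PowerSeries.C ((ζ ^ (i : ℕ) * v) ^ e)) := by
      intro e
      have h1 : μ ((GS₀ * FS₀ ^ e).trace) = ((FreeAlgebra.lift K XS g) * FS ^ e).trace := by
        have e1 : (FreeAlgebra.lift K XS g) * FS ^ e = μ.mapMatrix (GS₀ * FS₀ ^ e) := by
          rw [map_mul, map_pow, hGm, hFm]
        rw [e1]
        exact map_trace' (μ : S₀ →+* S) _
      rw [h1]
      apply hφinj
      rw [map_trace', map_mul, map_pow, trace_diag hT (mul_diag (hr g hg) (pow_diag hFT e)),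
        map_mul, map_mul, map_sum, Finset.mul_sum, Finset.mul_sum]
      refine Finset.sum_congr rfl fun i _ => ?_
      rw [← hρ g hg i, hl, ← map_pow, ← map_mul, ← map_mul, ← map_mul]
      congr 1
      rw [ht, map_pow PowerSeries.C (ζ ^ (i : ℕ) * v) e, map_mul PowerSeries.C, pow_mul]
      ring
    set a : ℕ → L := fun e => PowerSeries.coeff (k * e) ((GS₀ * FS₀ ^ e).trace * w' ^ e) with ha
    have hae : ∀ e, algebraMap L M (a e) = ∑ i, ccA K M (ρ g i) * (ζ ^ (i : ℕ) * v) ^ e := by
      intro e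
      rw [ha, ← hμc, map_mul, htr, map_pow]
      have h1 : (PowerSeries.X : S) ^ (k * e) * (μ w ^ e * ∑ i, ρ g i *
          PowerSeries.C ((ζ ^ (i : ℕ) * v) ^ e)) * μ w' ^ e =
          (PowerSeries.X : S) ^ (k * e) * ∑ i, ρ g i * PowerSeries.C ((ζ ^ (i : ℕ) * v) ^ e) := by
        have h2 : μ w ^ e * μ w' ^ e = 1 := by
          rw [← mul_pow, ← map_mul, hw', map_one, one_pow]
        calc _ = (PowerSeries.X : S) ^ (k * e) * (∑ i, ρ g i *
            PowerSeries.C ((ζ ^ (i : ℕ) * v) ^ e)) * (μ w ^ e * μ w' ^ e) := by ring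
          _ = _ := by rw [h2, mul_one]
      rw [h1]
      have h3 := PowerSeries.coeff_X_pow_mul
        (∑ i, ρ g i * PowerSeries.C ((ζ ^ (i : ℕ) * v) ^ e)) (k * e) 0
      rw [zero_add] at h3
      rw [h3, PowerSeries.coeff_zero_eq_constantCoeff_apply, map_sum]
      refine Finset.sum_congr rfl fun i _ => ?_
      rw [map_mul, PowerSeries.constantCoeff_C]
      rfl
    refine ⟨∑ j : Fin n, Polynomial.C (((n : L) * d)⁻¹ * a (n - (j : ℕ))) *
      Polynomial.X ^ (j : ℕ), fun i => ?_⟩
    have hlv : ∀ i : Fin n, (ζ ^ (i : ℕ) * v) ^ n = algebraMap L M d := by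
      intro i
      rw [mul_pow, hv, ← pow_mul, mul_comm (i : ℕ) n, pow_mul, hζ.pow_eq_one, one_pow, one_mul]
    have hv0 : v ≠ 0 := by
      rintro rfl
      rw [zero_pow hn0] at hv
      exact hd0 hv.symm
    have hlvinj : Function.Injective fun i : Fin n => ζ ^ (i : ℕ) * v := by
      intro i j hij
      exact Fin.ext (hζ.pow_inj i.2 j.2 (mul_right_cancel₀ hv0 hij))
    rw [map_sum]
    have h1 : ∀ j : Fin n, Polynomial.aeval (ζ ^ (i : ℕ) * v)
        (Polynomial.C (((n : L) * d)⁻¹ * a (n - (j : ℕ))) * Polynomial.X ^ (j : ℕ)) =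
        ((n : M) * algebraMap L M d)⁻¹ * ∑ i', ccA K M (ρ g i') *
          ((ζ ^ (i' : ℕ) * v) ^ (n - (j : ℕ)) * (ζ ^ (i : ℕ) * v) ^ (j : ℕ)) := by
      intro j
      rw [map_mul, Polynomial.aeval_C, map_pow, Polynomial.aeval_X, map_mul, map_inv₀, map_mul,
        map_natCast, hae, mul_assoc, Finset.sum_mul]
      congr 1
      refine Finset.sum_congr rfl fun i' _ => ?_
      rw [mul_assoc]
    rw [Finset.sum_congr rfl fun j _ => h1 j, ← Finset.mul_sum, Finset.sum_comm]
    have h2 : ∀ i' : Fin n, ∑ j : Fin n, ccA K M (ρ g i') *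
        ((ζ ^ (i' : ℕ) * v) ^ (n - (j : ℕ)) * (ζ ^ (i : ℕ) * v) ^ (j : ℕ)) =
        if i' = i then ccA K M (ρ g i') * ((n : M) * algebraMap L M d) else 0 := by
      intro i'
      rw [← Finset.mul_sum, orth hlvinj hlv i' i]
      split_ifs with h
      · rfl
      · rw [mul_zero]
    rw [Finset.sum_congr rfl fun i' _ => h2 i', Finset.sum_ite_eq' Finset.univ i]
    rw [if_pos (Finset.mem_univ i), mul_comm (ccA K M (ρ g i)), ← mul_assoc,
      inv_mul_cancel₀ (mul_ne_zero hnM hd0), one_mul]

end main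

end Pool.Agent.U605.CZ
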