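import Pool.Agent.U605.CZ.G1

/-!
# Specialisation of the cyclic Galois action
-/

set_option autoImplicit false

namespace Pool.Agent.U605.CZ

open Matrix Polynomial

variable {n : ℕ}

theorem galois_spec {R : Type*} [CommRing R] {Ω : Type*} [Field Ω] [NeZero n]
    {φ : R →+* Ω} (hφ : Function.Injective φ) {χ : R[X]} (hχ : χ.Monic) {D : R}
    {b : Fin n → Fin n → R} {r : Fin n → Ω} (hr : Function.Injective r)
    (hchar : χ.map φ = ∏ i, (X - C (r i)))
    (hb : ∀ m i, ∑ a, φ (b m a) * r i ^ (a : ℕ) = φ D * r (i + m))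
    {E : Type*} [CommRing E] (ψ : R →+* E) {x y : E}
    (hx : χ.eval₂ ψ x = 0) (hy : χ.eval₂ ψ y = 0) :
    ∏ m : Fin n, (ψ D * y - ∑ a : Fin n, ψ (b m a) * x ^ (a : ℕ)) = 0 := by
  set P : R[X][X] := (∏ m : Fin n, (C (C D * X) - ∑ a : Fin n, C (C (b m a)) * X ^ (a : ℕ))) -
    C (C (D ^ n) * χ) with hP
  have hdvd : χ.map (C : R →+* R[X]) ∣ P := by
    have hinj : Function.Injective (Polynomial.mapRingHom φ) := Polynomial.map_injective φ hφ
    rw [← Polynomial.map_dvd_map _ hinj (hχ.map _)]
    have h1 : (χ.map (C : R →+* R[X])).map (Polynomial.mapRingHom φ) =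
        ∏ i, (X - C (C (r i))) := by
      have h2 : (χ.map (C : R →+* R[X])).map (Polynomial.mapRingHom φ) =
          (χ.map φ).map (C : Ω →+* Polynomial Ω) := by
        rw [Polynomial.map_map, Polynomial.map_map]
        congr 1
        ext x
        simp
      rw [h2, hchar, Polynomial.map_prod]
      simp
    rw [h1]
    refine Finset.prod_dvd_of_coprime ?_ fun i _ => ?_
    · intro i _ j _ hij
      refine Polynomial.isCoprime_X_sub_C_of_isUnit_sub ?_
      rw [← C_sub]
      exact (Polynomial.isUnit_C).2 (isUnit_iff_ne_zero.2 (sub_ne_zero.2 (hr.ne hij)))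
    · rw [Polynomial.dvd_iff_isRoot, Polynomial.IsRoot.def]
      have h2 : (P.map (Polynomial.mapRingHom φ)).eval (C (r i)) =
          (∏ m : Fin n, (C (φ D) * X - C (∑ a : Fin n, φ (b m a) * r i ^ (a : ℕ)))) -
            C (φ D ^ n) * χ.map φ := by
        rw [hP]
        simp [Polynomial.map_prod, Polynomial.map_sum, Polynomial.eval_prod,
          Polynomial.eval_finsetSum]
      rw [h2, hchar]
      simp only [hb]
      have h3 : ∀ m : Fin n, C (φ D) * X - C (φ D * r (i + m)) = C (φ D) * (X - C (r (i + m))) := by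
        intro m
        rw [C_mul]
        ring
      have h4 : ∏ m : Fin n, (X - C (r (i + m))) = ∏ j : Fin n, (X - C (r j)) :=
        Equiv.prod_comp (Equiv.addLeft i) (fun j => X - C (r j))
      rw [Finset.prod_congr rfl fun m _ => h3 m, Finset.prod_mul_distrib, Finset.prod_const,
        Finset.card_univ, Fintype.card_fin, ← C_pow, h4, sub_self]
  obtain ⟨Q, hQ⟩ := hdvd
  set ev : R[X][X] →+* E := Polynomial.eval₂RingHom (Polynomial.eval₂RingHom ψ y) x with hev
  have h1 : ev (χ.map (C : R →+* R[X])) = 0 := by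
    rw [hev, Polynomial.coe_eval₂RingHom, Polynomial.eval₂_map]
    have : (Polynomial.eval₂RingHom ψ y).comp (C : R →+* R[X]) = ψ := by
      ext z
      simp
    rw [this, hx]
  have h2 : ev P = 0 := by rw [hQ, map_mul, h1, zero_mul]
  have h3 : ev P = (∏ m : Fin n, (ψ D * y - ∑ a : Fin n, ψ (b m a) * x ^ (a : ℕ))) -
      ψ D ^ n * χ.eval₂ ψ y := by
    have evC : ∀ p : R[X], ev (C p) = p.eval₂ ψ y := fun p => by
      rw [hev, Polynomial.coe_eval₂RingHom, Polynomial.eval₂_C]
      rfl
    have evX : ev X = x := by rw [hev, Polynomial.coe_eval₂RingHom, Polynomial.eval₂_X]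
    rw [hP, map_sub, map_prod, evC, Polynomial.eval₂_mul, Polynomial.eval₂_C, map_pow]
    congr 1
    refine Finset.prod_congr rfl fun m _ => ?_
    rw [map_sub, evC, map_sum, Polynomial.eval₂_mul, Polynomial.eval₂_C, Polynomial.eval₂_X]
    congr 1
    refine Finset.sum_congr rfl fun a _ => ?_
    rw [map_mul, map_pow, evC, evX, Polynomial.eval₂_C]
  rw [h3, hy, mul_zero, sub_zero] at h2
  exact h2

/-- A polynomial of prime degree which is reducible and all of whose roots are expressible by each
root splits. -/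
theorem roots_in_base {k E : Type*} [Field k] [Field E] [Algebra k E] [IsAlgClosed E]
    {χ : k[X]} {n d : ℕ} (hn : n.Prime) (hχ : χ.natDegree = n) {χ₁ : k[X]} (h1 : χ₁ ∣ χ)
    (hd0 : 0 < d) (hdn : d < n) (hd : χ₁.natDegree = d)
    (h : ∀ x y : E, Polynomial.aeval x χ = 0 → Polynomial.aeval y χ = 0 →
      ∃ q : k[X], y = Polynomial.aeval x q) {x : E} (hx : Polynomial.aeval x χ = 0) :
    x ∈ (algebraMap k E).range := by
  have hχ0 : χ ≠ 0 := by
    rintro rfl
    rw [Polynomial.natDegree_zero] at hχ
    exact hn.ne_zero hχ.symm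
  have hint : ∀ y : E, Polynomial.aeval y χ = 0 → IsIntegral k y := fun y hy =>
    (show IsAlgebraic k y from ⟨χ, hχ0, hy⟩).isIntegral
  have hle : ∀ x y : E, Polynomial.aeval x χ = 0 → Polynomial.aeval y χ = 0 →
      IntermediateField.adjoin k {y} ≤ IntermediateField.adjoin k {x} := by
    intro x y hx hy
    rw [IntermediateField.adjoin_simple_le_iff]
    obtain ⟨q, hq⟩ := h x y hx hy
    rw [hq]
    exact IntermediateField.algebra_adjoin_le_adjoin k {x}
      (Polynomial.aeval_mem_adjoin_singleton k x)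
  set m := (minpoly k x).natDegree with hm
  have hdeg : ∀ y : E, Polynomial.aeval y χ = 0 → (minpoly k y).natDegree = m := by
    intro y hy
    rw [hm, ← IntermediateField.adjoin.finrank (hint y hy), ← IntermediateField.adjoin.finrank
      (hint x hx), le_antisymm (hle x y hx hy) (hle y x hy hx)]
  have hdvd : ∀ N : ℕ, ∀ p : k[X], p.natDegree = N → p ∣ χ → m ∣ N := by
    intro N
    induction N using Nat.strong_induction_on with
    | _ N ih =>
      intro p hp hpχ
      rcases Nat.eq_zero_or_pos N with rfl | hN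
      · exact dvd_zero m
      · have hp0 : p ≠ 0 := by
          rintro rfl
          exact hχ0 (zero_dvd_iff.1 hpχ)
        have hpd : p.degree ≠ 0 := by
          intro h0
          have := Polynomial.natDegree_eq_zero_iff_degree_le_zero.2 h0.le
          omega
        obtain ⟨y, hy⟩ := IsAlgClosed.exists_aeval_eq_zero E p hpd
        have hyχ : Polynomial.aeval y χ = 0 := by
          obtain ⟨q, hq⟩ := hpχ
          rw [hq, map_mul, hy, zero_mul]
        obtain ⟨q, hq⟩ := minpoly.dvd k y hy
        have hq0 : q ≠ 0 := by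
          rintro rfl
          rw [mul_zero] at hq
          exact hp0 hq
        have hmp : minpoly k y ≠ 0 := minpoly.ne_zero (hint y hyχ)
        have h2 : N = m + q.natDegree := by
          rw [← hp, hq, Polynomial.natDegree_mul hmp hq0, hdeg y hyχ]
        have hmpos : 0 < m := by
          rw [← hdeg y hyχ]
          exact minpoly.natDegree_pos (hint y hyχ)
        have h3 := ih q.natDegree (by omega) q rfl
          (dvd_trans ⟨minpoly k y, by rw [hq, mul_comm]⟩ hpχ)
        rw [h2]
        exact dvd_add dvd_rfl h3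
  have h2 : m ∣ n := hdvd n χ hχ dvd_rfl
  have h3 : m ∣ d := hdvd d χ₁ hd h1
  have h4 : m = 1 := by
    rcases (Nat.dvd_prime hn).1 h2 with h | h
    · exact h
    · rw [h] at h3
      have := Nat.le_of_dvd hd0 h3
      omega
  have h5 := minpoly.natDegree_eq_one_iff.1 (hm.symm.trans h4)
  exact h5

end Pool.Agent.U605.CZ
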