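import Pool.Agent.U605.CZ.Conj

/-!
# Polynomials commuting with an `n`-central polynomial are scalar valued on matrices of size two
-/

set_option autoImplicit false

namespace Pool.Agent.U605.CZ

open Matrix Pool.Agent.H552R3.PC

section inv

variable {K : Type*} [Field K] {L : Type*} [Field L] [Algebra K L] {σ : Type*} {n : ℕ}

theorem ev_map {A A' : Type*} [CommRing A] [Algebra K A] [CommRing A'] [Algebra K A']
    (ψ : A →ₐ[K] A') (X : σ → Matrix (Fin n) (Fin n) A) (p : PF K σ n) :
    ψ (ev X p) = ev (fun s => ψ.mapMatrix (X s)) p := by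
  have h : ψ.comp (ev X) = ev (fun s => ψ.mapMatrix (X s)) := by
    refine MvPolynomial.algHom_ext fun q => ?_
    simp [ev]
  exact DFunLike.congr_fun h p

theorem nstar_ne (hnL : (n : L) ≠ 0) : nstar L n ≠ 0 := by
  rw [nstar]
  exact mul_ne_zero (pow_ne_zero _ (neg_ne_zero.2 one_ne_zero)) hnL

theorem nstar_alg {A : Type*} [CommRing A] [Algebra L A] :
    nstar A n = algebraMap L A (nstar L n) := by
  rw [nstar, nstar]
  simp

theorem lift_conj {R : Type*} [Ring R] [Algebra K R] {T T' : R} (h1 : T * T' = 1)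
    (h2 : T' * T = 1) (X : σ → R) (g : FreeAlgebra K σ) :
    FreeAlgebra.lift K (fun s => T * X s * T') g = T * FreeAlgebra.lift K X g * T' := by
  induction g using FreeAlgebra.induction with
  | grade0 c => rw [AlgHom.commutes, AlgHom.commutes, ← Algebra.commutes, mul_assoc, h1, mul_one]
  | grade1 s => rw [FreeAlgebra.lift_ι_apply, FreeAlgebra.lift_ι_apply]
  | mul a b ha hb =>
    rw [map_mul, map_mul, ha, hb]
    calc T * FreeAlgebra.lift K X a * T' * (T * FreeAlgebra.lift K X b * T')
        = T * FreeAlgebra.lift K X a * (T' * T) * FreeAlgebra.lift K X b * T' := by noncomm_ring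
      _ = _ := by rw [h2, mul_one, ← mul_assoc]
  | add a b ha hb => rw [map_add, map_add, ha, hb, mul_add, add_mul]

/-- conjugation by a square -/
theorem inv_sq {g : FreeAlgebra K σ} {δ : PF K σ n} (hnL : (n : L) ≠ 0)
    (hδ : (gram (FreeAlgebra.lift K (CZ.gen K σ n) g)).det =
      MvPolynomial.C (nstar K n) * δ ^ 2)
    (T : Matrix (Fin n) (Fin n) L) (hT : T ^ 4 = 1)
    {A : Type*} [CommRing A] [Algebra K A] [Algebra L A] [IsScalarTower K L A]
    (X : σ → Matrix (Fin n) (Fin n) A) :
    ev (fun s => T.map (algebraMap L A) ^ 2 * X s * T.map (algebraMap L A) ^ 2) δ = ev X δ := by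
  set TR : Matrix (Fin n) (Fin n) (PF L σ n) := T.map (algebraMap L (PF L σ n)) with hTR
  set TA : Matrix (Fin n) (Fin n) A := T.map (algebraMap L A) with hTA
  have hTR4 : TR ^ 4 = 1 := by
    have h1 := congrArg ((algebraMap L (PF L σ n)).mapMatrix) hT
    rw [map_pow, map_one] at h1
    exact h1
  have hTA4 : TA ^ 4 = 1 := by
    have h1 := congrArg ((algebraMap L A).mapMatrix) hT
    rw [map_pow, map_one] at h1
    exact h1
  have hR1 : TR * TR ^ 3 = 1 := by rw [← pow_succ', hTR4]
  have hR2 : TR ^ 3 * TR = 1 := by rw [← pow_succ, hTR4]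
  set δ1 : PF L σ n := ev (CZ.gen L σ n) δ with hδ1
  set δT : PF L σ n := ev (fun s => TR * CZ.gen L σ n s * TR ^ 3) δ with hδT
  have hconj := lift_conj (K := K) hR1 hR2 (CZ.gen L σ n) g
  have hgram : gram (FreeAlgebra.lift K (fun s => TR * CZ.gen L σ n s * TR ^ 3) g) =
      gram (FreeAlgebra.lift K (CZ.gen L σ n) g) := by
    refine gram_conj (S := TR) ⟨⟨TR, TR ^ 3, hR1, hR2⟩, rfl⟩ ?_
    rw [hconj, mul_assoc, hR2, mul_one]
  have hsq : δT ^ 2 = δ1 ^ 2 := by
    have e1 := disc_alg hδ (CZ.gen L σ n)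
    have e2 := disc_alg hδ (fun s => TR * CZ.gen L σ n s * TR ^ 3)
    rw [hgram, e1] at e2
    have h0 : nstar (PF L σ n) n ≠ 0 := by
      rw [nstar_alg (L := L)]
      intro h
      exact nstar_ne hnL ((algebraMap L (PF L σ n)).injective (by rw [h, map_zero]))
    exact (mul_left_cancel₀ h0 e2).symm
  have key : ∀ W : σ → Matrix (Fin n) (Fin n) A,
      ev (fun s => TA * W s * TA ^ 3) δ = (ev (K := L) W) δT ∧ ev W δ = (ev (K := L) W) δ1 := by
    intro W
    have hg : ∀ s, ((ev (K := L) W).restrictScalars K).mapMatrix (CZ.gen L σ n s) = W s := by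
      intro s
      ext i j
      simp [CZ.gen, ev]
    have hc : ((ev (K := L) W).restrictScalars K).mapMatrix TR = TA := by
      ext i j
      simp [hTR, hTA]
    constructor
    · have h1 := ev_map ((ev (K := L) W).restrictScalars K)
        (fun s => TR * CZ.gen L σ n s * TR ^ 3) δ
      simp only [map_mul, map_pow, hg, hc] at h1
      exact h1.symm
    · have h1 := ev_map ((ev (K := L) W).restrictScalars K) (CZ.gen L σ n) δ
      simp only [hg] at h1
      exact h1.symm
  have e6 : TA ^ 3 * TA ^ 3 = TA ^ 2 := by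
    rw [← pow_add, show 3 + 3 = 4 + 2 by rfl, pow_add, hTA4, one_mul]
  have hX : (fun s => TA ^ 2 * X s * TA ^ 2) =
      fun s => TA * (TA * X s * TA ^ 3) * TA ^ 3 := by
    funext s
    rw [show TA * (TA * X s * TA ^ 3) * TA ^ 3 = TA * TA * X s * (TA ^ 3 * TA ^ 3) by noncomm_ring,
      e6, ← pow_two]
  rw [hX, (key _).1]
  rcases sq_eq_sq_iff_eq_or_eq_neg.1 hsq with h | h
  · rw [h, ← (key _).2, (key X).1, h, ← (key X).2]
  · rw [h, map_neg, ← (key _).2, (key X).1, h, map_neg, neg_neg, ← (key X).2]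

end inv

/-- polynomials whose discriminant is a constant times a square are scalar valued on matrices of
size two -/
theorem scalar_two {K : Type*} [Field K] [Infinite K] {σ : Type*} {n : ℕ} (hn : 3 ≤ n)
    (hodd : Odd n) (hnK : (n : K) ≠ 0) (h2K : (2 : K) ≠ 0) (g : FreeAlgebra K σ) (δ : PF K σ n)
    (hδ : (gram (FreeAlgebra.lift K (CZ.gen K σ n) g)).det = MvPolynomial.C (nstar K n) * δ ^ 2)
    (X₀ : σ → Matrix (Fin 2) (Fin 2) K) :
    ∃ c : K, FreeAlgebra.lift K X₀ g = Matrix.scalar (Fin 2) c := by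
  classical
  by_contra hcon
  set L := AlgebraicClosure K with hL
  have h2 : (2 : L) ≠ 0 := by
    have := (algebraMap K L).injective.ne h2K
    rwa [map_ofNat, map_zero] at this
  have hnL : (n : L) ≠ 0 := by
    have := (algebraMap K L).injective.ne hnK
    simpa using this
  have : Infinite L := Infinite.of_injective (algebraMap K L) (algebraMap K L).injective
  set P := FreeAlgebra.lift K (gq (σ := σ) (-1 : L) 2) g with hP
  have hns : ∀ c : MvPolynomial (Fin 2) (GA L σ 2), P ≠ c • (1 : PQ 2 (GA L σ 2)) := by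
    intro c hc
    apply hcon
    set ψ := psiq (K := K) (-1 : L) (fun i => (X₀ i).map (algebraMap K L)) with hψ
    have h1 : ψ.mapMatrix P = (FreeAlgebra.lift K X₀ g).map (algebraMap K L) := by
      rw [hP, lift_map]
      have e1 : (fun i => ψ.mapMatrix (gq (-1 : L) 2 i)) =
          fun i => (Algebra.ofId K L).mapMatrix (X₀ i) := by
        funext i
        rw [hψ, psiq_gq (prim_neg_one h2) (by norm_num) (by exact_mod_cast h2)]
        rfl
      rw [e1, ← lift_map]
      rfl
    rw [hc] at h1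
    have e : ∀ i j, ψ c * (1 : Matrix (Fin 2) (Fin 2) L) i j =
        algebraMap K L (FreeAlgebra.lift K X₀ g i j) := by
      intro i j
      have h2 := congrFun (congrFun h1 i) j
      rw [Matrix.map_apply] at h2
      rw [← h2, AlgHom.mapMatrix_apply, Matrix.map_apply, Matrix.smul_apply, smul_eq_mul, map_mul]
      congr 1
      by_cases hij : i = j
      · subst hij; simp
      · simp [Matrix.one_apply_ne hij]
    refine ⟨FreeAlgebra.lift K X₀ g 0 0, ?_⟩
    ext1 i j
    apply (algebraMap K L).injective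
    rw [← e, Matrix.scalar_apply]
    by_cases hij : i = j
    · subst hij
      rw [Matrix.diagonal_apply_eq, ← e]
      simp
    · rw [Matrix.diagonal_apply_ne _ hij, Matrix.one_apply_ne hij, mul_zero, map_zero]
  have hPmem : P ∈ qpl (A := GA L σ 2) K (MvPolynomial.C (-1)) (MvPolynomial.C (-1)) 2 :=
    gq_two_mem g
  have hz : IsPrimitiveRoot (MvPolynomial.C (-1 : L) : GA L σ 2) 2 :=
    (prim_neg_one h2).map_of_injective (MvPolynomial.C_injective _ _)
  have hzz : (MvPolynomial.C (-1 : L) : GA L σ 2) * MvPolynomial.C (-1) = 1 := by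
    rw [← map_mul]
    norm_num
  have h2A : (2 : GA L σ 2) ≠ 0 := by
    have := (MvPolynomial.C_injective (σ × Fin 2 × Fin 2) L).ne h2
    rwa [map_ofNat, map_zero] at this
  obtain ⟨k, rfl, hk⟩ : ∃ k, n = 2 + k ∧ Odd k := by
    obtain ⟨m, hm⟩ := hodd
    exact ⟨n - 2, by omega, m - 1, by omega⟩
  have hpt : HasPt K L σ g k := by
    obtain ⟨j, rfl⟩ := hk
    exact hasPt_odd h2 hns j
  obtain ⟨X', r, hr, htr⟩ := hpt
  set B := MvPolynomial (Fin 2) (GA L σ 2) with hB
  set cst : Matrix (Fin k) (Fin k) L → Matrix (Fin k) (Fin k) B :=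
    fun M => M.map (algebraMap L B) with hcst
  set X : σ → Matrix (Fin (2 + k)) (Fin (2 + k)) B := fun s =>
    blk (gq (-1 : L) 2 s) (cst (X' s)) with hX
  have hXg : FreeAlgebra.lift K X g = blk P (cst (FreeAlgebra.lift K X' g)) := by
    rw [hX, lift_blk]
    congr 1
    exact (lift_map ((Algebra.ofId L B).restrictScalars K).mapMatrix X' g).symm
  set rB : Fin k → B := fun i => MvPolynomial.C (MvPolynomial.C (r i)) with hrB
  have hG : ∀ m : ℕ, (FreeAlgebra.lift K X g ^ m).trace = (P ^ m).trace + ∑ i, rB i ^ m := by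
    intro m
    rw [hXg, blk_pow, trace_blk]
    congr 1
    have h1 : (cst (FreeAlgebra.lift K X' g) ^ m).trace =
        algebraMap L B ((FreeAlgebra.lift K X' g) ^ m).trace := by
      have h3 : cst (FreeAlgebra.lift K X' g) ^ m =
          (algebraMap L B).mapMatrix (FreeAlgebra.lift K X' g ^ m) := by
        rw [map_pow]
        rfl
      rw [h3, Matrix.trace, Matrix.trace, map_sum]
      rfl
    rw [h1, htr, map_sum]
    refine Finset.sum_congr rfl fun i _ => ?_
    rw [map_pow]
    rfl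
  have hdisc := gram_blk P rB _ hG
  have hw : (Wm P rB).det ≠ 0 := by
    refine Wm_det_ne P hns rB ?_ fun i => char_ne hz hzz hPmem hns (Inv.C _)
    intro a b hab
    exact hr (MvPolynomial.C_injective _ _ (MvPolynomial.C_injective _ _ hab))
  have hwI := inv_Wm (k := k) hzz hPmem (fun i => MvPolynomial.C (r i))
  -- the invariance of the value of `δ`
  set η : B := ev X δ with hη
  obtain ⟨ι, hι⟩ := IsAlgClosed.exists_pow_nat_eq (-1 : L) two_pos
  have hscl : ∀ w : Fin 2 → GA L σ 2, ∀ s,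
      ((scl w).restrictScalars K).mapMatrix (X s) = blk ((gq (-1 : L) 2 s).map (scl w))
        (cst (X' s)) := by
    intro w s
    have h1 := blk_map ((scl w : B →ₐ[GA L σ 2] B) : B →+* B) (gq (-1 : L) 2 s) (cst (X' s))
    have h3 : ((scl w : B →ₐ[GA L σ 2] B) : B →+* B).mapMatrix (cst (X' s)) = cst (X' s) := by
      ext1 a b
      exact scl_C w _
    rw [h3] at h1
    exact h1
  have hblkmap : ∀ (U : Matrix (Fin 2) (Fin 2) L),
      (blk U (1 : Matrix (Fin k) (Fin k) L)).map (algebraMap L B) =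
        blk (U.map (algebraMap L B)) 1 := by
    intro U
    have h1 := blk_map (algebraMap L B) U (1 : Matrix (Fin k) (Fin k) L)
    rw [map_one] at h1
    exact h1
  have hinv : ∀ (w : Fin 2 → GA L σ 2) (U : Matrix (Fin 2) (Fin 2) L), U ^ 4 = 1 →
      (∀ s, U.map (algebraMap L B) ^ 2 * gq (-1 : L) 2 s * U.map (algebraMap L B) ^ 2 =
        (gq (-1 : L) 2 s).map (scl w)) → scl w η = η := by
    intro w U hU hUs
    have h1 := inv_sq hnL hδ (blk U (1 : Matrix (Fin k) (Fin k) L))
      (by rw [blk_pow, hU, one_pow, blk_one]) X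
    rw [hblkmap] at h1
    have h3 := ev_map ((scl w).restrictScalars K) X δ
    have h5 : (fun s => ((scl w).restrictScalars K).mapMatrix (X s)) = fun s =>
        blk (U.map (algebraMap L B)) 1 ^ 2 * X s * blk (U.map (algebraMap L B)) 1 ^ 2 := by
      funext s
      rw [hscl, hX, blk_pow, blk_mul, blk_mul, hUs, one_pow, one_mul, mul_one]
    rw [h5, h1] at h3
    exact h3
  have hgq : ∀ s : σ, gq (-1 : L) 2 s ∈
      qpl (A := GA L σ 2) K (MvPolynomial.C (-1)) (MvPolynomial.C (-1)) 2 :=
    fun s => gq_mem (by norm_num) (by norm_num) s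
  have hmapsq : ∀ U : Matrix (Fin 2) (Fin 2) L,
      U.map (algebraMap L B) ^ 2 = (U ^ 2).map (algebraMap L B) := by
    intro U
    have h1 := map_pow ((algebraMap L B).mapMatrix (m := Fin 2)) U 2
    exact h1.symm
  have hη1 : scl ![1, MvPolynomial.C (-1)] η = η := by
    refine hinv _ (Matrix.diagonal ![1, ι]) ?_ fun s => ?_
    · rw [show (4 : ℕ) = 2 * 2 from rfl, pow_mul, U1_sq hι, S1_sq]
    · rw [hmapsq, U1_sq hι, S1_map]
      exact conj_one (by rw [map_neg, map_one]) (hgq s)
  have hη2 : scl ![MvPolynomial.C (-1), 1] η = η := by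
    obtain ⟨c, hc⟩ : ∃ c : L, 2 * c = 1 + ι := ⟨(1 + ι) / 2, by
      rw [mul_div_assoc', mul_div_cancel_left₀ _ h2]⟩
    have hc2 : 2 * (c * c) = ι := by
      have : 2 * (2 * (c * c) - ι) = 0 := by
        linear_combination (2 * c + 1 + ι) * hc + hι
      exact sub_eq_zero.1 ((mul_eq_zero.1 this).resolve_left h2)
    refine hinv _ !![c, -(c * ι); -(c * ι), c] ?_ fun s => ?_
    · rw [show (4 : ℕ) = 2 * 2 from rfl, pow_mul, U2_sq hι hc2, S2_sq]
    · rw [hmapsq, U2_sq hι hc2, S2_map]
      exact conj_two (hgq s)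
  obtain ⟨κ, hκ⟩ := IsAlgClosed.exists_pow_nat_eq (nstar L (2 + k)) two_pos
  have hsI : Inv (MvPolynomial.C (-1) : GA L σ 2) (MvPolynomial.C (-1))
      (MvPolynomial.C (MvPolynomial.C κ) * η) := (Inv.C _).mul ⟨hη1, hη2⟩
  refine disc_ne hz hzz h2A hPmem hns hwI hsI hw ?_
  have h1 := disc_alg hδ X
  rw [hdisc, nstar_alg (L := L), ← hκ, map_pow] at h1
  rw [mul_pow]
  exact h1

end Pool.Agent.U605.CZ
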