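import Pool.Agent.U605.CZ.G2
import Pool.Agent.U605.CZ.Two4

/-!
# Generic matrices: facts over an extension field, invariance under conjugation
-/

set_option autoImplicit false

namespace Pool.Agent.U605.CZ

open Matrix

section facts

variable {K : Type*} [Field K] {σ : Type*} {n : ℕ}

theorem gen_facts [Infinite K] (hn : n.Prime) (hnK : (n : K) ≠ 0)
    (f g : FreeAlgebra K σ)
    (h : ∀ X : σ → Matrix (Fin n) (Fin n) K, ∀ Z : Matrix (Fin n) (Fin n) K,
      FreeAlgebra.lift K X (f ^ n) * Z = Z * FreeAlgebra.lift K X (f ^ n))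
    (hne : ∃ X : σ → Matrix (Fin n) (Fin n) K, ∃ Z : Matrix (Fin n) (Fin n) K,
      FreeAlgebra.lift K X f * Z ≠ Z * FreeAlgebra.lift K X f)
    (h0 : ∃ X : σ → Matrix (Fin n) (Fin n) K, FreeAlgebra.lift K X (f ^ n) ≠ 0)
    (hfg : ∀ X : σ → Matrix (Fin n) (Fin n) K,
      FreeAlgebra.lift K X g * FreeAlgebra.lift K X f =
        FreeAlgebra.lift K X f * FreeAlgebra.lift K X g) :
    ∃ c : PF K σ n, c ≠ 0 ∧
      (FreeAlgebra.lift K (gen K σ n) f).charpoly = Polynomial.X ^ n - Polynomial.C c ∧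
      FreeAlgebra.lift K (gen K σ n) g * FreeAlgebra.lift K (gen K σ n) f =
        FreeAlgebra.lift K (gen K σ n) f * FreeAlgebra.lift K (gen K σ n) g := by
  set F := FreeAlgebra.lift K (gen K σ n) f with hF
  set G := FreeAlgebra.lift K (gen K σ n) g with hG
  have hcoef : ∀ i, 0 < i → i < n → F.charpoly.coeff i = 0 := by
    intro i hi hin
    refine eq_of_ev fun X => ?_
    obtain ⟨d, hd⟩ := Pool.Agent.H552R3.PC.charpoly_of_ncentral hn hnK f h hne X
    have h1 := Matrix.charpoly_map F ((ev X : PF K σ n →ₐ[K] K) : PF K σ n →+* K)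
    have h2 : F.map ((ev X : PF K σ n →ₐ[K] K) : PF K σ n →+* K) = FreeAlgebra.lift K X f :=
      ev_gen X f
    rw [h2, hd] at h1
    have h3 := congrArg (fun q => Polynomial.coeff q i) h1
    simp only [Polynomial.coeff_map, Polynomial.coeff_sub, Polynomial.coeff_X_pow,
      Polynomial.coeff_C, if_neg hin.ne, if_neg hi.ne', sub_zero] at h3
    rw [map_zero]
    exact h3.symm
  set c : PF K σ n := -F.charpoly.coeff 0 with hc
  have hchar : F.charpoly = Polynomial.X ^ n - Polynomial.C c := by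
    have hdeg : F.charpoly.natDegree = n := by
      rw [Matrix.charpoly_natDegree_eq_dim, Fintype.card_fin]
    have hmon := Matrix.charpoly_monic F
    ext1 i
    rw [Polynomial.coeff_sub, Polynomial.coeff_X_pow, Polynomial.coeff_C]
    rcases Nat.eq_zero_or_pos i with rfl | hi
    · rw [if_neg hn.ne_zero.symm, if_pos rfl, hc]; ring
    · rw [if_neg hi.ne', sub_zero]
      rcases lt_trichotomy i n with h1 | h1 | h1
      · rw [hcoef i hi h1, if_neg h1.ne]
      · rw [if_pos h1, h1]
        rw [Polynomial.Monic, Polynomial.leadingCoeff, hdeg] at hmon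
        exact hmon
      · rw [if_neg h1.ne']
        exact Polynomial.coeff_eq_zero_of_natDegree_lt (by rw [hdeg]; exact h1)
  have hFn : F ^ n = c • (1 : Matrix (Fin n) (Fin n) (PF K σ n)) := by
    have h1 := Matrix.aeval_self_charpoly F
    rw [hchar, map_sub, map_pow, Polynomial.aeval_X, Polynomial.aeval_C, sub_eq_zero] at h1
    rw [h1, Algebra.algebraMap_eq_smul_one]
  have hc0 : c ≠ 0 := by
    intro hz
    obtain ⟨X, hX⟩ := h0
    apply hX
    rw [map_pow, ← ev_gen X f, ← map_pow, ← hF, hFn, hz, zero_smul, map_zero]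
  have hGF : G * F = F * G := by
    refine mat_eq_of_ev fun X => ?_
    rw [map_mul, map_mul, hF, hG, ev_gen, ev_gen]
    exact hfg X
  exact ⟨c, hc0, hchar, hGF⟩

variable {L : Type*} [Field L] [Algebra K L]

theorem ev_lift {A : Type*} [CommRing A] [Algebra K A] [Algebra L A] [IsScalarTower K L A]
    (X : σ → Matrix (Fin n) (Fin n) A) (g : FreeAlgebra K σ) :
    (ev (K := L) X).mapMatrix (FreeAlgebra.lift K (gen L σ n) g) = FreeAlgebra.lift K X g := by
  have h1 := Pool.Agent.H552R3.PC.lift_map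
    (((ev (K := L) X).restrictScalars K).mapMatrix (m := Fin n)) (gen L σ n) g
  have hg : (fun s => ((ev (K := L) X).restrictScalars K).mapMatrix (gen L σ n s)) = X := by
    funext s
    ext i j
    simp [gen, ev]
  rw [hg] at h1
  exact h1

theorem gen_facts_L {f g : FreeAlgebra K σ} {c : PF K σ n} (hc : c ≠ 0)
    (hF : (FreeAlgebra.lift K (gen K σ n) f).charpoly = Polynomial.X ^ n - Polynomial.C c)
    (hGF : FreeAlgebra.lift K (gen K σ n) g * FreeAlgebra.lift K (gen K σ n) f =
        FreeAlgebra.lift K (gen K σ n) f * FreeAlgebra.lift K (gen K σ n) g) :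
    ∃ c : PF L σ n, c ≠ 0 ∧
      (FreeAlgebra.lift K (gen L σ n) f).charpoly = Polynomial.X ^ n - Polynomial.C c ∧
      FreeAlgebra.lift K (gen L σ n) g * FreeAlgebra.lift K (gen L σ n) f =
        FreeAlgebra.lift K (gen L σ n) f * FreeAlgebra.lift K (gen L σ n) g := by
  set φ : PF K σ n →ₐ[K] PF L σ n := ev (gen L σ n) with hφ
  refine ⟨φ c, ?_, ?_, ?_⟩
  · have h1 : φ = MvPolynomial.mapAlgHom (Algebra.ofId K L) := by
      refine MvPolynomial.algHom_ext fun q => ?_
      rw [hφ, ev, MvPolynomial.aeval_X, MvPolynomial.mapAlgHom_apply, MvPolynomial.map_X]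
      rfl
    rw [h1]
    intro h2
    apply hc
    refine MvPolynomial.map_injective (algebraMap K L) (algebraMap K L).injective ?_
    rw [map_zero]
    exact h2
  · have h1 := Matrix.charpoly_map (FreeAlgebra.lift K (gen K σ n) f) (φ : PF K σ n →+* PF L σ n)
    have h2 : (FreeAlgebra.lift K (gen K σ n) f).map (φ : PF K σ n →+* PF L σ n) =
        FreeAlgebra.lift K (gen L σ n) f := ev_gen (gen L σ n) f
    rw [h2, hF] at h1
    rw [h1]
    simp
  · rw [← ev_gen (gen L σ n) f, ← ev_gen (gen L σ n) g, ← map_mul, hGF, map_mul]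

end facts

section fix

variable {L : Type*} [Field L] {σ : Type*} {n : ℕ}

/-- conjugation of the generic matrices by a constant matrix -/
noncomputable def cj (T T' : Matrix (Fin n) (Fin n) L) : PF L σ n →ₐ[L] PF L σ n :=
  ev fun s => T.map (algebraMap L (PF L σ n)) * gen L σ n s * T'.map (algebraMap L (PF L σ n))

/-- invariance under conjugation -/
def Fix (p : PF L σ n) : Prop := ∀ T T' : Matrix (Fin n) (Fin n) L, T * T' = 1 → cj T T' p = p

theorem cst_mul_one {A : Type*} [CommRing A] [Algebra L A] {T T' : Matrix (Fin n) (Fin n) L}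
    (h : T * T' = 1) : T.map (algebraMap L A) * T'.map (algebraMap L A) = 1 := by
  have h1 := congrArg ((algebraMap L A).mapMatrix) h
  rw [map_mul, map_one] at h1
  exact h1

theorem Fix.ev_eq {p : PF L σ n} (hp : Fix p) {T T' : Matrix (Fin n) (Fin n) L} (h : T * T' = 1)
    {A : Type*} [CommRing A] [Algebra L A] (X : σ → Matrix (Fin n) (Fin n) A) :
    ev (fun s => T.map (algebraMap L A) * X s * T'.map (algebraMap L A)) p = ev X p := by
  have h1 := ev_map (ev (K := L) X) (fun s => T.map (algebraMap L (PF L σ n)) * gen L σ n s *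
    T'.map (algebraMap L (PF L σ n))) p
  have hg : ∀ s, (ev (K := L) X).mapMatrix (gen L σ n s) = X s := by
    intro s
    ext i j
    simp [gen, ev]
  have hc : ∀ T : Matrix (Fin n) (Fin n) L,
      (ev (K := L) X).mapMatrix (T.map (algebraMap L (PF L σ n))) = T.map (algebraMap L A) := by
    intro T
    ext i j
    simp
  simp only [map_mul, hg, hc] at h1
  rw [← h1]
  congr 1
  exact hp T T' h

variable {K : Type*} [Field K] [Algebra K L]

theorem cj_lift {T T' : Matrix (Fin n) (Fin n) L} (h : T * T' = 1) (g : FreeAlgebra K σ) :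
    (cj T T').mapMatrix (FreeAlgebra.lift K (gen L σ n) g) =
      T.map (algebraMap L (PF L σ n)) * FreeAlgebra.lift K (gen L σ n) g *
        T'.map (algebraMap L (PF L σ n)) := by
  rw [cj, ev_lift]
  exact lift_conj (cst_mul_one h) (cst_mul_one (mul_eq_one_comm.1 h)) _ g

theorem conj_pow' {A : Type*} [Ring A] {T T' M : A} (h : T' * T = 1) (h2 : T * T' = 1) (k : ℕ) :
    (T * M * T') ^ k = T * M ^ k * T' := by
  induction k with
  | zero => simp [h2]
  | succ k ih =>
    rw [pow_succ, ih, pow_succ]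
    calc T * M ^ k * T' * (T * M * T') = T * M ^ k * (T' * T) * M * T' := by noncomm_ring
      _ = _ := by rw [h, mul_one, mul_assoc T]

theorem fix_gram (g : FreeAlgebra K σ) (a b : Fin n) :
    Fix (gram (FreeAlgebra.lift K (gen L σ n) g) a b) := by
  intro T T' h
  have h1 := cst_mul_one (A := PF L σ n) h
  have h2 := cst_mul_one (A := PF L σ n) (mul_eq_one_comm.1 h)
  rw [gram, Matrix.of_apply]
  have h3 := map_trace' ((cj T T' : PF L σ n →ₐ[L] PF L σ n) : PF L σ n →+* PF L σ n)
    (FreeAlgebra.lift K (gen L σ n) g ^ ((a : ℕ) + b))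
  refine h3.trans ?_
  have h4 : ((cj T T' : PF L σ n →ₐ[L] PF L σ n) : PF L σ n →+* PF L σ n).mapMatrix
      (FreeAlgebra.lift K (gen L σ n) g ^ ((a : ℕ) + b)) =
      (T.map (algebraMap L (PF L σ n)) * FreeAlgebra.lift K (gen L σ n) g *
        T'.map (algebraMap L (PF L σ n))) ^ ((a : ℕ) + b) := by
    have h5 := map_pow (((cj T T' : PF L σ n →ₐ[L] PF L σ n) :
      PF L σ n →+* PF L σ n).mapMatrix (m := Fin n)) (FreeAlgebra.lift K (gen L σ n) g)
      ((a : ℕ) + b)
    rw [h5]
    congr 1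
    exact cj_lift h g
  rw [h4, conj_pow' h2 h1, Matrix.trace_mul_comm, ← mul_assoc, h2, one_mul]

theorem fix_det {M : Matrix (Fin n) (Fin n) (PF L σ n)} (hM : ∀ a b, Fix (M a b)) :
    Fix M.det := by
  intro T T' h
  rw [AlgHom.map_det]
  congr 1
  ext1 a b
  exact hM a b T T' h

theorem fix_adjugate {M : Matrix (Fin n) (Fin n) (PF L σ n)} (hM : ∀ a b, Fix (M a b))
    (a b : Fin n) : Fix (M.adjugate a b) := by
  intro T T' h
  have h1 : (cj T T').mapMatrix M = M := by
    ext1 a b
    exact hM a b T T' h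
  have h2 := AlgHom.map_adjugate (cj T T' : PF L σ n →ₐ[L] PF L σ n) M
  rw [h1] at h2
  exact congrFun (congrFun h2 a) b

theorem fix_charpoly (g : FreeAlgebra K σ) (i : ℕ) :
    Fix ((FreeAlgebra.lift K (gen L σ n) g).charpoly.coeff i) := by
  intro T T' h
  have h1 := cst_mul_one (A := PF L σ n) h
  have h2 := cst_mul_one (A := PF L σ n) (mul_eq_one_comm.1 h)
  have h3 := Matrix.charpoly_map (FreeAlgebra.lift K (gen L σ n) g)
    ((cj T T' : PF L σ n →ₐ[L] PF L σ n) : PF L σ n →+* PF L σ n)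
  have h4 : (FreeAlgebra.lift K (gen L σ n) g).map
      ((cj T T' : PF L σ n →ₐ[L] PF L σ n) : PF L σ n →+* PF L σ n) =
      T.map (algebraMap L (PF L σ n)) * FreeAlgebra.lift K (gen L σ n) g *
        T'.map (algebraMap L (PF L σ n)) := cj_lift h g
  let u : (Matrix (Fin n) (Fin n) (PF L σ n))ˣ := ⟨_, _, h1, h2⟩
  have h5 := Matrix.charpoly_units_conj u (FreeAlgebra.lift K (gen L σ n) g)
  rw [h4] at h3
  have h6 : (T.map (algebraMap L (PF L σ n)) * FreeAlgebra.lift K (gen L σ n) g *
        T'.map (algebraMap L (PF L σ n))).charpoly =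
      (FreeAlgebra.lift K (gen L σ n) g).charpoly := by
    rw [← h5, ← Matrix.coe_units_inv]
    rfl
  rw [h6] at h3
  have h7 := congrArg (fun q => Polynomial.coeff q i) h3
  simp only [Polynomial.coeff_map] at h7
  exact h7.symm

theorem fix_Wnum {ζ : L} (f g : FreeAlgebra K σ) (m a : Fin n) :
    Fix (Wnum (algebraMap L (PF L σ n) ζ) (FreeAlgebra.lift K (gen L σ n) f)
      (FreeAlgebra.lift K (gen L σ n) g) m a) := by
  intro T T' h
  have h1 := cst_mul_one (A := PF L σ n) h
  have h2 := cst_mul_one (A := PF L σ n) (mul_eq_one_comm.1 h)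
  have h3 := map_Wnum ((cj T T' : PF L σ n →ₐ[L] PF L σ n) : PF L σ n →+* PF L σ n)
    (algebraMap L (PF L σ n) ζ) (FreeAlgebra.lift K (gen L σ n) f)
    (FreeAlgebra.lift K (gen L σ n) g) m a
  have h4 : ∀ p : FreeAlgebra K σ, ((cj T T' : PF L σ n →ₐ[L] PF L σ n) :
      PF L σ n →+* PF L σ n).mapMatrix (FreeAlgebra.lift K (gen L σ n) p) =
      T.map (algebraMap L (PF L σ n)) * FreeAlgebra.lift K (gen L σ n) p *
        T'.map (algebraMap L (PF L σ n)) := fun p => cj_lift h p
  have h5 : ((cj T T' : PF L σ n →ₐ[L] PF L σ n) : PF L σ n →+* PF L σ n)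
      (algebraMap L (PF L σ n) ζ) = algebraMap L (PF L σ n) ζ := (cj T T').commutes ζ
  refine h3.trans ?_
  rw [h4, h4, h5, Wnum, Wnum]
  refine Finset.sum_congr rfl fun k _ => ?_
  set TR := T.map (algebraMap L (PF L σ n))
  set TR' := T'.map (algebraMap L (PF L σ n))
  set F := FreeAlgebra.lift K (gen L σ n) f
  set G := FreeAlgebra.lift K (gen L σ n) g
  have e1 : ∀ M N : Matrix (Fin n) (Fin n) (PF L σ n),
      (TR * M * TR' * (TR * N * TR')).trace = (M * N).trace := by
    intro M N
    have : TR * M * TR' * (TR * N * TR') = TR * (M * (TR' * TR) * N * TR') := by noncomm_ring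
    rw [this, h2, mul_one, Matrix.trace_mul_comm, mul_assoc, h2, mul_one]
  rw [conj_pow' h2 h1, conj_pow' h2 h1, conj_pow' h2 h1, e1, e1]

theorem fix_of_mul {p q w : PF L σ n} (hp : Fix p) (hq : Fix q) (hp0 : p ≠ 0) (h : p * w = q) :
    Fix w := by
  intro T T' hT
  have h1 := congrArg (cj T T') h
  rw [map_mul, hp T T' hT, hq T T' hT, ← h] at h1
  exact mul_left_cancel₀ hp0 h1

theorem fix_coeff {n' : ℕ} {M : Matrix (Fin n') (Fin n') (PF L σ n)} (hM : ∀ a b, Fix (M a b))
    {w : Fin n' → PF L σ n} (hw : ∀ a, Fix (w a)) (a : Fin n') : Fix ((M *ᵥ w) a) := by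
  intro T T' h
  rw [Matrix.mulVec, dotProduct, map_sum]
  refine Finset.sum_congr rfl fun i _ => ?_
  rw [map_mul, hM a i T T' h, hw i T T' h]

end fix

end Pool.Agent.U605.CZ
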