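import Pool.Agent.U605.CZ.G3

/-!
# Block diagonal matrices, and the quantum plane of any size
-/

set_option autoImplicit false

namespace Pool.Agent.U605.CZ

open Matrix Pool.Agent.H552R3.PC

section blkG

variable {K : Type*} [Field K] {σ : Type*} {A : Type*} [CommRing A] {d e : ℕ}

/-- block diagonal matrices -/
def blkG (U : Matrix (Fin d) (Fin d) A) (V : Matrix (Fin e) (Fin e) A) :
    Matrix (Fin (d + e)) (Fin (d + e)) A :=
  Matrix.reindex finSumFinEquiv finSumFinEquiv (Matrix.fromBlocks U 0 0 V)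

theorem blkG_mul (U U' : Matrix (Fin d) (Fin d) A) (V V' : Matrix (Fin e) (Fin e) A) :
    blkG U V * blkG U' V' = blkG (U * U') (V * V') := by
  rw [blkG, blkG, blkG, Matrix.reindex_apply, Matrix.reindex_apply, Matrix.reindex_apply,
    Matrix.submatrix_mul_equiv, Matrix.fromBlocks_multiply]
  simp

theorem blkG_add (U U' : Matrix (Fin d) (Fin d) A) (V V' : Matrix (Fin e) (Fin e) A) :
    blkG U V + blkG U' V' = blkG (U + U') (V + V') := by
  ext1 i j
  simp only [blkG, Matrix.reindex_apply, Matrix.submatrix_apply, Matrix.add_apply]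
  rcases finSumFinEquiv.symm i with a | a <;> rcases finSumFinEquiv.symm j with b | b <;> simp

theorem blkG_one : blkG (1 : Matrix (Fin d) (Fin d) A) (1 : Matrix (Fin e) (Fin e) A) = 1 := by
  rw [blkG, Matrix.fromBlocks_one, Matrix.reindex_apply, Matrix.submatrix_one_equiv]

theorem blkG_algebraMap [Algebra K A] (c : K) :
    blkG (algebraMap K (Matrix (Fin d) (Fin d) A) c) (algebraMap K (Matrix (Fin e) (Fin e) A) c) =
      algebraMap K (Matrix (Fin (d + e)) (Fin (d + e)) A) c := by
  have h1 : ∀ (m : ℕ), algebraMap K (Matrix (Fin m) (Fin m) A) c =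
      (algebraMap K A c) • (1 : Matrix (Fin m) (Fin m) A) := by
    intro m
    rw [Algebra.algebraMap_eq_smul_one, algebraMap_smul]
  rw [h1, h1, h1, ← blkG_one]
  ext1 i j
  simp only [blkG, Matrix.reindex_apply, Matrix.submatrix_apply, Matrix.smul_apply]
  rcases finSumFinEquiv.symm i with a | a <;> rcases finSumFinEquiv.symm j with b | b
  · simp
    exact Algebra.smul_def _ _
  · simp
  · simp
  · simp
    exact Algebra.smul_def _ _

theorem blkG_map {A' : Type*} [CommRing A'] (φ : A →+* A') (U : Matrix (Fin d) (Fin d) A)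
    (V : Matrix (Fin e) (Fin e) A) :
    φ.mapMatrix (blkG U V) = blkG (φ.mapMatrix U) (φ.mapMatrix V) := by
  ext1 i j
  simp only [blkG, RingHom.mapMatrix_apply, Matrix.map_apply, Matrix.reindex_apply,
    Matrix.submatrix_apply]
  rcases finSumFinEquiv.symm i with a | a <;> rcases finSumFinEquiv.symm j with b | b <;> simp

theorem lift_blkG [Algebra K A] (Y : σ → Matrix (Fin d) (Fin d) A)
    (V : σ → Matrix (Fin e) (Fin e) A) (g : FreeAlgebra K σ) :
    FreeAlgebra.lift K (fun s => blkG (Y s) (V s)) g =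
      blkG (FreeAlgebra.lift K Y g) (FreeAlgebra.lift K V g) := by
  induction g using FreeAlgebra.induction with
  | grade0 c => rw [AlgHom.commutes, AlgHom.commutes, AlgHom.commutes, blkG_algebraMap]
  | grade1 s => rw [FreeAlgebra.lift_ι_apply, FreeAlgebra.lift_ι_apply, FreeAlgebra.lift_ι_apply]
  | mul a b ha hb => rw [map_mul, map_mul, map_mul, ha, hb, blkG_mul]
  | add a b ha hb => rw [map_add, map_add, map_add, ha, hb, blkG_add]

theorem charpoly_blkG (U : Matrix (Fin d) (Fin d) A) (V : Matrix (Fin e) (Fin e) A) :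
    (blkG U V).charpoly = U.charpoly * V.charpoly := by
  rw [blkG, Matrix.charpoly_reindex, Matrix.charpoly_fromBlocks_zero₂₁]

end blkG

section qp

variable {A : Type*} [CommRing A] [IsDomain A] {K : Type*} [CommRing K] [Algebra K A] {z z' : A}
  {d : ℕ} [NeZero d]

theorem qpl_eq_zero_of_det {M : PQ d A} (hz : IsPrimitiveRoot z d) (hz' : z' ≠ 0)
    (hM : M ∈ qpl (A := A) K z z' d) (hd : M.det = 0) : M = 0 := by
  by_contra hM0
  obtain ⟨v, hv0, hv⟩ := Matrix.exists_mulVec_eq_zero_iff.2 hd
  set N : PQ d A := Matrix.of fun i _ => v i with hN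
  have hN0 : N ≠ 0 := by
    intro h
    apply hv0
    funext i
    exact congrFun (congrFun h i) 0
  refine qpl_mul_ne_zero hz hz' hM hM0 hN0 ?_
  ext1 i j
  exact congrFun hv i

theorem Inv.scalar_memG {b : MvPolynomial (Fin 2) A} (hz : IsPrimitiveRoot z d)
    (hzz : z * z' = 1) (hb : Inv z z' b) :
    (Matrix.scalar (Fin d) b : PQ d A) ∈ qpl (A := A) K z z' d := by
  obtain ⟨g, hg⟩ := exists_expand hz hzz b hb.1 hb.2
  rw [← hg]
  refine scalar_mem_qpl hz.pow_eq_one ?_ g
  have h1 : (z * z') ^ d = 1 := by rw [hzz, one_pow]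
  rwa [mul_pow, hz.pow_eq_one, one_mul] at h1

/-- the shift matrix -/
def shf (B : Type*) [CommRing B] (d : ℕ) [NeZero d] : Matrix (Fin d) (Fin d) B :=
  Matrix.of fun j l => if l = j - 1 then 1 else 0

/-- its inverse -/
def shf' (B : Type*) [CommRing B] (d : ℕ) [NeZero d] : Matrix (Fin d) (Fin d) B :=
  Matrix.of fun l k => if l = k - 1 then 1 else 0

omit [IsDomain A] in
theorem shf_mul (B : Type*) [CommRing B] : shf B d * shf' B d = 1 := by
  ext1 j k
  rw [Matrix.mul_apply]
  simp only [shf, shf', Matrix.of_apply, Matrix.one_apply]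
  by_cases h : j = k
  · subst h
    simp
  · rw [if_neg h, Finset.sum_eq_zero]
    intro l _
    by_cases h1 : l = j - 1
    · have h2 : l ≠ k - 1 := by
        intro h3
        exact h (sub_left_injective (h1.symm.trans h3))
      rw [if_neg h2, mul_zero]
    · rw [if_neg h1, zero_mul]

theorem conj_shf {M : PQ d A} (hM : M ∈ qpl (A := A) K z z' d) :
    shf (MvPolynomial (Fin 2) A) d * M * shf' (MvPolynomial (Fin 2) A) d =
      M.map (scl ![z', 1]) := by
  ext1 j k
  rw [Matrix.mul_apply]
  simp only [Matrix.mul_apply, shf, shf', Matrix.of_apply, ite_mul, one_mul, zero_mul,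
    Finset.sum_ite_eq', Finset.mem_univ, if_true, mul_ite, mul_one, mul_zero, Matrix.map_apply]
  rw [hM.2 (j - 1) (k - 1), sub_add_cancel, sub_add_cancel]

theorem conj_diag {M : PQ d A} (hzz : z * z' = 1) (hM : M ∈ qpl (A := A) K z z' d) :
    Matrix.diagonal (fun j : Fin d => (MvPolynomial.C (chi z j) : MvPolynomial (Fin 2) A)) * M *
      Matrix.diagonal (fun j : Fin d => (MvPolynomial.C (chi z' j) : MvPolynomial (Fin 2) A)) =
      M.map (scl ![1, z]) := by
  ext1 j k
  rw [Matrix.mul_diagonal, Matrix.diagonal_mul, hM.1 j k, Matrix.map_apply]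
  have h1 : (MvPolynomial.C (chi z k) : MvPolynomial (Fin 2) A) * MvPolynomial.C (chi z' k) = 1 := by
    rw [← map_mul, chi, chi, ← mul_pow, hzz, one_pow, map_one]
  linear_combination (scl ![1, z] (M j k)) * h1

end qp

end Pool.Agent.U605.CZ
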