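import Pool.Agent.U605.CZ.G4

/-!
# Descent to the fixed field
-/

set_option autoImplicit false

namespace Pool.Agent.U605.CZ

open Polynomial

theorem descend {B : Type*} [CommRing B] [IsDomain B] [IsIntegrallyClosed B] {s1 s2 : B →+* B}
    (h1 : Function.Injective s1) (h2 : Function.Injective s2) {n d : ℕ} (hn : n.Prime)
    {χ χ₁ : B[X]} (hχ₁m : χ₁.Monic) (hdvd : χ₁ ∣ χ) (hdeg : χ.natDegree = n)
    (hdeg1 : χ₁.natDegree = d) (hd0 : 0 < d) (hdn : d < n)
    (hinv : ∀ i, s1 (χ.coeff i) = χ.coeff i ∧ s2 (χ.coeff i) = χ.coeff i)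
    (hinv1 : ∀ i, s1 (χ₁.coeff i) = χ₁.coeff i ∧ s2 (χ₁.coeff i) = χ₁.coeff i)
    {D : B} (hD : D ≠ 0) (hDi : s1 D = D ∧ s2 D = D) {b : Fin n → Fin n → B}
    (hbi : ∀ m a, s1 (b m a) = b m a ∧ s2 (b m a) = b m a)
    (hrel : ∀ x y : AlgebraicClosure (FractionRing B),
      χ.eval₂ (algebraMap B (AlgebraicClosure (FractionRing B))) x = 0 →
      χ.eval₂ (algebraMap B (AlgebraicClosure (FractionRing B))) y = 0 →
      ∏ m : Fin n, (algebraMap B (AlgebraicClosure (FractionRing B)) D * y -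
        ∑ a : Fin n, algebraMap B (AlgebraicClosure (FractionRing B)) (b m a) * x ^ (a : ℕ)) = 0) :
    ∃ b₀ : B, s1 b₀ = b₀ ∧ s2 b₀ = b₀ ∧ χ₁.eval b₀ = 0 := by
  set Q := FractionRing B with hQ
  set E := AlgebraicClosure Q with hE
  set S1 : Q →+* Q := IsFractionRing.map (K := Q) (L := Q) h1 with hS1
  set S2 : Q →+* Q := IsFractionRing.map (K := Q) (L := Q) h2 with hS2
  have e1 : ∀ b, S1 (algebraMap B Q b) = algebraMap B Q (s1 b) := fun b =>
    IsLocalization.map_eq _ b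
  have e2 : ∀ b, S2 (algebraMap B Q b) = algebraMap B Q (s2 b) := fun b =>
    IsLocalization.map_eq _ b
  set k : Subfield Q := S1.eqLocusField (RingHom.id Q) ⊓ S2.eqLocusField (RingHom.id Q) with hk
  have hkmem : ∀ b, s1 b = b ∧ s2 b = b → algebraMap B Q b ∈ k := by
    rintro b ⟨hb1, hb2⟩
    refine Subfield.mem_inf.2 ⟨?_, ?_⟩
    · rw [RingHom.mem_eqLocusField, e1, hb1]
      rfl
    · rw [RingHom.mem_eqLocusField, e2, hb2]
      rfl
  have hBE : ∀ b : B, algebraMap B E b = algebraMap Q E (algebraMap B Q b) := fun b =>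
    IsScalarTower.algebraMap_apply B Q E b
  letI : Algebra k E := ((algebraMap Q E).comp k.subtype).toAlgebra
  have hkE : (algebraMap k E) = (algebraMap Q E).comp k.subtype := rfl
  have hlift : ∀ p : B[X], (∀ i, s1 (p.coeff i) = p.coeff i ∧ s2 (p.coeff i) = p.coeff i) →
      ∃ p' : k[X], p'.map k.subtype = p.map (algebraMap B Q) := by
    intro p hp
    have h3 : p.map (algebraMap B Q) ∈ Polynomial.lifts k.subtype := by
      rw [Polynomial.lifts_iff_coeff_lifts]
      intro i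
      rw [Polynomial.coeff_map]
      exact ⟨⟨_, hkmem _ (hp i)⟩, rfl⟩
    exact (Polynomial.mem_lifts _).1 h3
  have haev : ∀ (p : B[X]) (p' : k[X]), p'.map k.subtype = p.map (algebraMap B Q) → ∀ x : E,
      Polynomial.aeval x p' = p.eval₂ (algebraMap B E) x := by
    intro p p' hp x
    rw [Polynomial.aeval_def, hkE, ← Polynomial.eval₂_map, hp, Polynomial.eval₂_map]
    congr 1
  obtain ⟨χ', hχ'⟩ := hlift χ hinv
  obtain ⟨χ₁', hχ₁'⟩ := hlift χ₁ hinv1
  have hQinj : Function.Injective (algebraMap B Q) := IsFractionRing.injective B Q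
  have hdeg' : χ'.natDegree = n := by
    rw [← Polynomial.natDegree_map k.subtype, hχ', Polynomial.natDegree_map_eq_of_injective hQinj,
      hdeg]
  have hdeg1' : χ₁'.natDegree = d := by
    rw [← Polynomial.natDegree_map k.subtype, hχ₁',
      Polynomial.natDegree_map_eq_of_injective hQinj, hdeg1]
  have hdvd' : χ₁' ∣ χ' := by
    rw [← Polynomial.map_dvd_map' k.subtype, hχ', hχ₁']
    exact Polynomial.map_dvd _ hdvd
  have hrel' : ∀ x y : E, Polynomial.aeval x χ' = 0 → Polynomial.aeval y χ' = 0 →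
      ∃ q : k[X], y = Polynomial.aeval x q := by
    intro x y hx hy
    rw [haev χ χ' hχ'] at hx hy
    obtain ⟨m, _, hm⟩ := Finset.prod_eq_zero_iff.1 (hrel x y hx hy)
    set β : Fin n → k := fun a => ⟨_, hkmem _ (hbi m a)⟩ with hβ
    set Δ : k := ⟨_, hkmem _ hDi⟩ with hΔ
    have hβE : ∀ a, algebraMap k E (β a) = algebraMap B E (b m a) := fun a => (hBE _).symm
    have hΔE : algebraMap k E Δ = algebraMap B E D := (hBE _).symm
    have hD0 : algebraMap B E D ≠ 0 := by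
      rw [hBE]
      intro h0
      exact hD (hQinj ((algebraMap Q E).injective (h0.trans (map_zero _).symm) |>.trans
        (map_zero _).symm))
    refine ⟨∑ a : Fin n, Polynomial.C (Δ⁻¹ * β a) * Polynomial.X ^ (a : ℕ), ?_⟩
    have h3 := sub_eq_zero.1 hm
    have h4 : y = (algebraMap B E D)⁻¹ * ∑ a : Fin n, algebraMap B E (b m a) * x ^ (a : ℕ) := by
      rw [← h3, ← mul_assoc, inv_mul_cancel₀ hD0, one_mul]
    rw [h4, map_sum, Finset.mul_sum]
    refine Finset.sum_congr rfl fun a _ => ?_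
    rw [map_mul, map_pow, Polynomial.aeval_X, Polynomial.aeval_C, map_mul, map_inv₀, hβE, hΔE,
      mul_assoc]
  have hdeg0 : χ₁'.degree ≠ 0 := by
    intro h0
    have := Polynomial.natDegree_eq_zero_iff_degree_le_zero.2 h0.le
    omega
  obtain ⟨x, hx⟩ := IsAlgClosed.exists_aeval_eq_zero E χ₁' hdeg0
  have hxχ : Polynomial.aeval x χ' = 0 := by
    obtain ⟨q, hq⟩ := hdvd'
    rw [hq, map_mul, hx, zero_mul]
  obtain ⟨κ, hκ⟩ := roots_in_base hn hdeg' hdvd' hd0 hdn hdeg1' hrel' hxχ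
  have hκx : algebraMap Q E (κ : Q) = x := hκ
  have hκroot : χ₁.eval₂ (algebraMap B Q) (κ : Q) = 0 := by
    apply (algebraMap Q E).injective
    rw [Polynomial.hom_eval₂, map_zero, hκx]
    have h3 := haev χ₁ χ₁' hχ₁' x
    rw [hx] at h3
    rw [h3]
    congr 1
  have hκint : IsIntegral B (κ : Q) := ⟨χ₁, hχ₁m, hκroot⟩
  obtain ⟨b₀, hb₀⟩ := IsIntegrallyClosed.isIntegral_iff.1 hκint
  have hκ2 := Subfield.mem_inf.1 κ.2
  refine ⟨b₀, hQinj ?_, hQinj ?_, hQinj ?_⟩
  · rw [← e1, hb₀]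
    exact hκ2.1
  · rw [← e2, hb₀]
    exact hκ2.2
  · rw [map_zero, ← hκroot, ← hb₀]
    exact (Polynomial.eval₂_at_apply _ _).symm

end Pool.Agent.U605.CZ
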