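import Pool.Agent.U605.CZ.G5

/-!
# Inseparability on block diagonal matrices
-/

set_option autoImplicit false

namespace Pool.Agent.U605.CZ

open Matrix Pool.Agent.H552R3.PC

theorem gram_det_ne {L : Type*} [Field L] [IsAlgClosed L] {n : ℕ} (M : Matrix (Fin n) (Fin n) L)
    (h : M.charpoly.Separable) : (gram M).det ≠ 0 := by
  obtain ⟨l, hl, hroot⟩ := distinct_roots M h
  obtain ⟨S, hS, hMS⟩ := exists_diag M l hl hroot
  exact gram_ne_zero hS hMS hl

theorem exists_prim {L : Type*} [Field L] [IsAlgClosed L] {m : ℕ} (hm : 0 < m)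
    (hmL : (m : L) ≠ 0) : ∃ ζ : L, IsPrimitiveRoot ζ m := by
  have : NeZero (m : L) := ⟨hmL⟩
  obtain ⟨x, hx⟩ := IsAlgClosed.exists_root (Polynomial.cyclotomic m L)
    (Polynomial.degree_cyclotomic_pos m L hm).ne'
  exact ⟨x, Polynomial.isRoot_cyclotomic_iff.mp hx⟩

theorem scl_inj {A : Type*} [CommRing A] {w w' : Fin 2 → A} (h : ∀ i, w i * w' i = 1) :
    Function.Injective (scl w) := by
  have h1 : (scl w').comp (scl w) = AlgHom.id A _ := by
    refine MvPolynomial.algHom_ext fun i => ?_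
    rw [AlgHom.comp_apply, scl, scl, MvPolynomial.aeval_X, map_mul, MvPolynomial.aeval_X,
      MvPolynomial.aeval_C]
    show MvPolynomial.C (w i) * (MvPolynomial.C (w' i) * MvPolynomial.X i) = MvPolynomial.X i
    rw [← mul_assoc, ← map_mul, h, map_one, one_mul]
  intro x y hxy
  have h2 := congrArg (scl w') hxy
  have h3 : ∀ x, scl w' (scl w x) = x := fun x => DFunLike.congr_fun h1 x
  rwa [h3, h3] at h2

theorem core {K : Type*} [Field K] {σ : Type*} {L : Type*} [Field L] [IsAlgClosed L] [Algebra K L]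
    {d e : ℕ} [NeZero d] (hd2 : 2 ≤ d) (he : 0 < e) (hn : (d + e).Prime)
    (hnL : ((d + e : ℕ) : L) ≠ 0) (hdL : (d : L) ≠ 0) {f g : FreeAlgebra K σ}
    {c : PF L σ (d + e)} (hc : c ≠ 0)
    (hF : (FreeAlgebra.lift K (CZ.gen L σ (d + e)) f).charpoly =
      Polynomial.X ^ (d + e) - Polynomial.C c)
    (hGF : FreeAlgebra.lift K (CZ.gen L σ (d + e)) g * FreeAlgebra.lift K (CZ.gen L σ (d + e)) f =
      FreeAlgebra.lift K (CZ.gen L σ (d + e)) f * FreeAlgebra.lift K (CZ.gen L σ (d + e)) g)
    (A₀ : σ → Matrix (Fin d) (Fin d) L) (A₁ : σ → Matrix (Fin e) (Fin e) L)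
    (hsep : ((FreeAlgebra.lift K A₀ g).charpoly * (FreeAlgebra.lift K A₁ g).charpoly).Separable) :
    False := by
  have : NeZero (d + e) := ⟨hn.ne_zero⟩
  obtain ⟨ζn, hζn⟩ := exists_prim hn.pos hnL
  obtain ⟨ζ, hζ⟩ := exists_prim (NeZero.pos d) hdL
  obtain ⟨ζ', hζζ⟩ : ∃ ζ', ζ * ζ' = 1 := ⟨ζ⁻¹, mul_inv_cancel₀ (hζ.ne_zero (NeZero.ne d))⟩
  set F := FreeAlgebra.lift K (CZ.gen L σ (d + e)) f with hFdef
  set G := FreeAlgebra.lift K (CZ.gen L σ (d + e)) g with hGdef
  have hLR : Function.Injective (algebraMap L (PF L σ (d + e))) :=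
    MvPolynomial.C_injective _ _
  have hnR : ((d + e : ℕ) : PF L σ (d + e)) ≠ 0 := by
    have := hLR.ne hnL
    rwa [map_natCast, map_zero] at this
  have hζR : IsPrimitiveRoot (algebraMap L (PF L σ (d + e)) ζn) (d + e) :=
    hζn.map_of_injective hLR
  -- the quantum plane
  set z : GA L σ d := MvPolynomial.C ζ with hzdef
  set z' : GA L σ d := MvPolynomial.C ζ' with hz'def
  have hz : IsPrimitiveRoot z d := hζ.map_of_injective (MvPolynomial.C_injective _ _)
  have hzz : z * z' = 1 := by rw [hzdef, hz'def, ← map_mul, hζζ, map_one]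
  have hz'0 : z' ≠ 0 := right_ne_zero_of_mul_eq_one hzz
  have hgq : ∀ s : σ, gq ζ d s ∈ qpl (A := GA L σ d) K z z' d :=
    fun s => gq_mem hζ.pow_eq_one hζζ s
  set P := FreeAlgebra.lift K (gq (σ := σ) ζ d) g with hPdef
  have hP : P ∈ qpl (A := GA L σ d) K z z' d := lift_mem _ _ hgq g
  set B := MvPolynomial (Fin 2) (GA L σ d) with hB
  set X : σ → Matrix (Fin (d + e)) (Fin (d + e)) B := fun s =>
    blkG (gq ζ d s) ((A₁ s).map (algebraMap L B)) with hX
  have hXg : FreeAlgebra.lift K X g =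
      blkG P ((FreeAlgebra.lift K A₁ g).map (algebraMap L B)) := by
    rw [hX, lift_blkG]
    congr 1
    exact (lift_map (((Algebra.ofId L B).restrictScalars K).mapMatrix) A₁ g).symm
  set ψ : PF L σ (d + e) →ₐ[L] B := ev (K := L) X with hψ
  have hψG : ψ.mapMatrix G = FreeAlgebra.lift K X g := ev_lift X g
  set χ := (FreeAlgebra.lift K X g).charpoly with hχ
  have hχG : G.charpoly.map (ψ : PF L σ (d + e) →+* B) = χ := by
    rw [← Matrix.charpoly_map, hχ, ← hψG]
    rfl
  have hχP : χ = P.charpoly * ((FreeAlgebra.lift K A₁ g).map (algebraMap L B)).charpoly := by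
    rw [hχ, hXg, charpoly_blkG]
  -- the discriminant at `X`
  set ρ : B →ₐ[L] L := psiq (K := L) ζ' A₀ with hρ
  have hρgq : ∀ s, ρ.mapMatrix (gq ζ d s) = A₀ s := fun s => psiq_gq hζ hζζ hdL A₀ s
  have hρX : ∀ s, ρ.mapMatrix (X s) = blkG (A₀ s) (A₁ s) := by
    intro s
    have h1 := blkG_map (ρ : B →+* L) (gq ζ d s) ((A₁ s).map (algebraMap L B))
    refine h1.trans ?_
    congr 1
    · exact hρgq s
    · ext i j
      exact ρ.commutes _
  have hρg : ρ.mapMatrix (FreeAlgebra.lift K X g) =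
      blkG (FreeAlgebra.lift K A₀ g) (FreeAlgebra.lift K A₁ g) := by
    have h1 := lift_map (((ρ.restrictScalars K).mapMatrix (m := Fin (d + e)))) X g
    have h2 : (fun s => ((ρ.restrictScalars K).mapMatrix (m := Fin (d + e))) (X s)) =
        fun s => blkG (A₀ s) (A₁ s) := by
      funext s
      exact hρX s
    rw [h2] at h1
    exact h1.trans (lift_blkG A₀ A₁ g)
  have hDX : ψ (gram G).det = (gram (FreeAlgebra.lift K X g)).det := by
    have h1 := map_gram (ψ : PF L σ (d + e) →+* B) G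
    have h2 : (ψ : PF L σ (d + e) →+* B).mapMatrix G = FreeAlgebra.lift K X g := hψG
    rw [h2] at h1
    rw [h1]
    exact RingHom.map_det (ψ : PF L σ (d + e) →+* B) (gram G)
  have hDX0 : (gram (FreeAlgebra.lift K X g)).det ≠ 0 := by
    intro h0
    have h1 := map_gram (ρ : B →+* L) (FreeAlgebra.lift K X g)
    have h2 : (ρ : B →+* L).mapMatrix (FreeAlgebra.lift K X g) =
        blkG (FreeAlgebra.lift K A₀ g) (FreeAlgebra.lift K A₁ g) := hρg
    have h3 := gram_det_ne (blkG (FreeAlgebra.lift K A₀ g) (FreeAlgebra.lift K A₁ g))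
      (by rw [charpoly_blkG]; exact hsep)
    apply h3
    rw [← h2, h1, ← RingHom.map_det, h0, map_zero]
  have hD0 : (gram G).det ≠ 0 := by
    intro h0
    apply hDX0
    rw [← hDX, h0, map_zero]
  obtain ⟨b, hb1, r, hr, hchar, hb2⟩ := galois_data hnR hc hζR hF hGF hD0
  -- invariance
  have hfixc : Fix c := by
    intro T T' h
    have h1 := fix_charpoly f 0 T T' h
    have h2 : (FreeAlgebra.lift K (CZ.gen L σ (d + e)) f).charpoly.coeff 0 = -c := by
      rw [hF, Polynomial.coeff_sub, Polynomial.coeff_X_pow, if_neg hn.ne_zero.symm,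
        Polynomial.coeff_C_zero, zero_sub]
    rw [h2, map_neg, neg_inj] at h1
    exact h1
  have hfixb : ∀ m a, Fix (b m a) := by
    intro m a
    obtain ⟨w, hw1, hw2⟩ := hb1 m
    rw [hw1]
    refine fix_coeff (fix_adjugate fun a b => fix_gram g a b) (fun a => ?_) a
    refine fix_of_mul (p := ((d + e : ℕ) : PF L σ (d + e)) * c) ?_ (fix_Wnum f g m a)
      (mul_ne_zero hnR hc) (hw2 a)
    intro T T' h
    rw [map_mul, map_natCast, hfixc T T' h]
  have hblkmap : ∀ (U : Matrix (Fin d) (Fin d) L),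
      (blkG U (1 : Matrix (Fin e) (Fin e) L)).map (algebraMap L B) =
        blkG (U.map (algebraMap L B)) 1 := by
    intro U
    have h1 := blkG_map (algebraMap L B) U (1 : Matrix (Fin e) (Fin e) L)
    rw [map_one] at h1
    exact h1
  have hinv : ∀ (w : Fin 2 → GA L σ d) (U U' : Matrix (Fin d) (Fin d) L), U * U' = 1 →
      (∀ s, U.map (algebraMap L B) * gq ζ d s * U'.map (algebraMap L B) =
        (gq ζ d s).map (scl w)) → ∀ p : PF L σ (d + e), Fix p → scl w (ψ p) = ψ p := by
    intro w U U' hU hUs p hp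
    have h1 := hp.ev_eq (T := blkG U (1 : Matrix (Fin e) (Fin e) L)) (T' := blkG U' 1)
      (by rw [blkG_mul, hU, one_mul, blkG_one]) X
    rw [hblkmap, hblkmap] at h1
    have h3 := ev_map ((scl w).restrictScalars L) X p
    have h5 : (fun s => ((scl w).restrictScalars L).mapMatrix (X s)) = fun s =>
        blkG (U.map (algebraMap L B)) 1 * X s * blkG (U'.map (algebraMap L B)) 1 := by
      funext s
      rw [hX, blkG_mul, blkG_mul, hUs, one_mul, mul_one]
      have h6 := blkG_map ((scl w : B →ₐ[GA L σ d] B) : B →+* B) (gq ζ d s)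
        ((A₁ s).map (algebraMap L B))
      refine h6.trans ?_
      congr 1
      ext1 i j
      exact scl_C w _
    rw [h5, h1] at h3
    exact h3
  have hi1 : ∀ p : PF L σ (d + e), Fix p → scl ![1, z] (ψ p) = ψ p := by
    refine hinv ![1, z] (Matrix.diagonal fun j => chi ζ j) (Matrix.diagonal fun j => chi ζ' j)
      ?_ fun s => ?_
    · rw [Matrix.diagonal_mul_diagonal, ← Matrix.diagonal_one]
      congr 1
      funext j
      rw [chi, chi, ← mul_pow, hζζ, one_pow]
    · rw [← conj_diag hzz (hgq s), Matrix.diagonal_map (map_zero _),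
        Matrix.diagonal_map (map_zero _)]
      have e1 : ∀ j : Fin d, (algebraMap L B) (chi ζ j) = MvPolynomial.C (chi z j) := by
        intro j
        rw [hzdef, chi_map]
        rfl
      have e2 : ∀ j : Fin d, (algebraMap L B) (chi ζ' j) = MvPolynomial.C (chi z' j) := by
        intro j
        rw [hz'def, chi_map]
        rfl
      simp only [e1, e2]
  have hi2 : ∀ p : PF L σ (d + e), Fix p → scl ![z', 1] (ψ p) = ψ p := by
    refine hinv ![z', 1] (shf L d) (shf' L d) (shf_mul L) fun s => ?_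
    rw [← conj_shf (hgq s)]
    have e1 : (shf L d).map (algebraMap L B) = shf B d := by
      ext i j
      simp only [shf, Matrix.map_apply, Matrix.of_apply]
      split_ifs <;> simp
    have e2 : (shf' L d).map (algebraMap L B) = shf' B d := by
      ext i j
      simp only [shf', Matrix.map_apply, Matrix.of_apply]
      split_ifs <;> simp
    rw [e1, e2]
  have hs1 : Function.Injective ((scl ![1, z] : B →ₐ[GA L σ d] B) : B →+* B) :=
    scl_inj (w' := ![1, z']) (by intro i; fin_cases i <;> simp [hzz])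
  have hs2 : Function.Injective ((scl ![z', 1] : B →ₐ[GA L σ d] B) : B →+* B) :=
    scl_inj (w' := ![z, 1]) (by intro i; fin_cases i <;> simp [mul_comm z' z, hzz])
  have hφinj : Function.Injective (algebraMap (PF L σ (d + e))
      (AlgebraicClosure (FractionRing (PF L σ (d + e))))) := by
    rw [IsScalarTower.algebraMap_eq (PF L σ (d + e)) (FractionRing (PF L σ (d + e)))
      (AlgebraicClosure (FractionRing (PF L σ (d + e)))), RingHom.coe_comp]
    exact (algebraMap (FractionRing (PF L σ (d + e))) _).injective.comp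
      (IsFractionRing.injective _ _)
  obtain ⟨b₀, hb01, hb02, hb0⟩ := descend (χ := χ) (χ₁ := P.charpoly) (n := d + e) (d := d)
    (D := ψ (gram G).det) (b := fun m a => ψ (b m a)) hs1 hs2 hn (Matrix.charpoly_monic P)
    ⟨_, hχP⟩ (by rw [hχ, Matrix.charpoly_natDegree_eq_dim, Fintype.card_fin])
    (by rw [Matrix.charpoly_natDegree_eq_dim, Fintype.card_fin]) (by omega) (by omega)
    (fun i => by
      rw [← hχG, Polynomial.coeff_map]
      exact ⟨hi1 _ (fix_charpoly g i), hi2 _ (fix_charpoly g i)⟩)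
    (fun i => ⟨charpoly_inv1 hzz hP i, charpoly_inv2 hP i⟩)
    (by rw [hDX]; exact hDX0)
    ⟨hi1 _ (fix_det fun a b => fix_gram g a b), hi2 _ (fix_det fun a b => fix_gram g a b)⟩
    (fun m a => ⟨hi1 _ (hfixb m a), hi2 _ (hfixb m a)⟩)
    (fun x y hx hy => by
      have h1 := galois_spec hφinj (Matrix.charpoly_monic G) hr hchar hb2
        ((algebraMap B (AlgebraicClosure (FractionRing B))).comp
          (ψ : PF L σ (d + e) →+* B)) (x := x) (y := y)
        (by rw [← Polynomial.eval₂_map, hχG]; exact hx)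
        (by rw [← Polynomial.eval₂_map, hχG]; exact hy)
      exact h1)
  -- an eigenvalue in the centre of the quantum plane
  have hInv : Inv z z' b₀ := ⟨hb01, hb02⟩
  have hmem : (Matrix.scalar (Fin d) b₀ : PQ d (GA L σ d)) - P ∈ qpl (A := GA L σ d) K z z' d :=
    Subalgebra.sub_mem _ (hInv.scalar_memG hz hzz) hP
  have hzero := qpl_eq_zero_of_det hz hz'0 hmem (by rw [← Matrix.eval_charpoly]; exact hb0)
  have hPs : P = Matrix.scalar (Fin d) b₀ := (sub_eq_zero.1 hzero).symm
  have hA0 : FreeAlgebra.lift K A₀ g = Matrix.scalar (Fin d) (ρ b₀) := by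
    have h1 := lift_map (((ρ.restrictScalars K).mapMatrix (m := Fin d))) (gq (σ := σ) ζ d) g
    have h2 : (fun s => ((ρ.restrictScalars K).mapMatrix (m := Fin d)) (gq ζ d s)) = A₀ := by
      funext s
      exact hρgq s
    rw [h2, ← hPdef, hPs] at h1
    rw [← h1]
    ext i j
    by_cases hij : i = j
    · subst hij; simp
    · simp [hij]
  have hsq := hsep.squarefree
  have hdvd : (Polynomial.X - Polynomial.C (ρ b₀)) * (Polynomial.X - Polynomial.C (ρ b₀)) ∣
      (FreeAlgebra.lift K A₀ g).charpoly * (FreeAlgebra.lift K A₁ g).charpoly := by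
    refine Dvd.dvd.mul_right ?_ _
    rw [hA0, Matrix.scalar_apply, Matrix.charpoly_diagonal, Finset.prod_const, Finset.card_univ,
      Fintype.card_fin, ← pow_two]
    exact pow_dvd_pow _ hd2
  exact Polynomial.not_isUnit_X_sub_C _ (hsq _ hdvd)

end Pool.Agent.U605.CZ
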