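import Pool.Agent.U605.CZ.G7

/-!
# Characteristic polynomials split or are cyclic
-/

set_option autoImplicit false

namespace Pool.Agent.U605.CZ

open Matrix Polynomial

universe u

/-- A separable polynomial of prime degree all of whose roots are expressible by each root splits
or is irreducible with a Galois group of prime order. -/
theorem split_or_cyclic {k : Type u} [Field k] {p : k[X]} {n : ℕ} (hn : n.Prime)
    (hp : p.natDegree = n) (hsep : p.Separable)
    (h : ∀ x y : AlgebraicClosure k, aeval x p = 0 → aeval y p = 0 → ∃ q : k[X], y = aeval x q) :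
    p.Splits ∨ (Irreducible p ∧ Nat.card p.Gal = n) := by
  have hp0 : p ≠ 0 := by
    rintro rfl
    rw [Polynomial.natDegree_zero] at hp
    exact hn.ne_zero hp.symm
  have hpu : ¬ IsUnit p := by
    intro hu
    rw [Polynomial.natDegree_eq_zero_of_isUnit hu] at hp
    exact hn.ne_zero hp.symm
  by_cases hirr : Irreducible p
  · right
    refine ⟨hirr, ?_⟩
    rw [Polynomial.Gal.card_of_separable hsep]
    set S := p.SplittingField
    have hsp : (p.map (algebraMap k S)).Splits := Polynomial.SplittingField.splits p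
    obtain ⟨x, hx⟩ : ∃ x : S, aeval x p = 0 := by
      have hd : (p.map (algebraMap k S)).degree ≠ 0 := by
        rw [Polynomial.degree_map, Polynomial.degree_eq_natDegree hp0, hp]
        exact_mod_cast hn.ne_zero
      obtain ⟨x, hx⟩ := hsp.exists_eval_eq_zero hd
      exact ⟨x, by rwa [Polynomial.eval_map, ← Polynomial.aeval_def] at hx⟩
    let φ : S →ₐ[k] AlgebraicClosure k := IsAlgClosed.lift
    have hmem : ∀ y : S, aeval y p = 0 → y ∈ IntermediateField.adjoin k {x} := by
      intro y hy
      obtain ⟨q, hq⟩ := h (φ x) (φ y) (by rw [Polynomial.aeval_algHom_apply, hx, map_zero])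
        (by rw [Polynomial.aeval_algHom_apply, hy, map_zero])
      rw [Polynomial.aeval_algHom_apply] at hq
      rw [φ.toRingHom.injective hq]
      exact IntermediateField.algebra_adjoin_le_adjoin k {x}
        (Polynomial.aeval_mem_adjoin_singleton k x)
    have htop : IntermediateField.adjoin k {x} = ⊤ := by
      rw [eq_top_iff]
      intro z _
      have h1 : z ∈ Algebra.adjoin k (p.rootSet S) := by
        rw [Polynomial.SplittingField.adjoin_rootSet]
        exact Algebra.mem_top
      have h2 : Algebra.adjoin k (p.rootSet S) ≤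
          (IntermediateField.adjoin k {x}).toSubalgebra := by
        refine Algebra.adjoin_le fun y hy => ?_
        exact hmem y (Polynomial.aeval_eq_zero_of_mem_rootSet hy)
      exact h2 h1
    have hxint : IsIntegral k x := (show IsAlgebraic k x from ⟨p, hp0, hx⟩).isIntegral
    have h3 := IntermediateField.adjoin.finrank hxint
    rw [htop, IntermediateField.finrank_top'] at h3
    rw [h3]
    have h4 := minpoly.eq_of_irreducible hirr hx
    rw [← h4, Polynomial.natDegree_mul_C (inv_ne_zero (Polynomial.leadingCoeff_ne_zero.2 hp0)), hp]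
  · left
    rw [irreducible_iff] at hirr
    push Not at hirr
    obtain ⟨a, b, hab, ha, hb⟩ := hirr hpu
    have ha0 : a ≠ 0 := by rintro rfl; exact hp0 (by rw [hab, zero_mul])
    have hb0 : b ≠ 0 := by rintro rfl; exact hp0 (by rw [hab, mul_zero])
    have hda : 0 < a.natDegree := by
      refine Nat.pos_of_ne_zero fun h0 => ha ?_
      rw [Polynomial.natDegree_eq_zero] at h0
      obtain ⟨c, rfl⟩ := h0
      refine Polynomial.isUnit_C.2 (isUnit_iff_ne_zero.2 ?_)
      rintro rfl
      exact ha0 (map_zero _)
    have hdb : 0 < b.natDegree := by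
      refine Nat.pos_of_ne_zero fun h0 => hb ?_
      rw [Polynomial.natDegree_eq_zero] at h0
      obtain ⟨c, rfl⟩ := h0
      refine Polynomial.isUnit_C.2 (isUnit_iff_ne_zero.2 ?_)
      rintro rfl
      exact hb0 (map_zero _)
    have hdab : a.natDegree + b.natDegree = n := by
      rw [← hp, hab, Polynomial.natDegree_mul ha0 hb0]
    refine Polynomial.Splits.of_splits_map (algebraMap k (AlgebraicClosure k))
      (IsAlgClosed.splits _) fun x hx => ?_
    have hx' : aeval x p = 0 := by
      have := Polynomial.isRoot_of_mem_roots hx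
      rwa [Polynomial.IsRoot.def, Polynomial.eval_map, ← Polynomial.aeval_def] at this
    exact roots_in_base hn hp ⟨b, hab⟩ hda (by omega) rfl h hx'

theorem values_split_or_cyclic {K : Type*} [Field K] {σ : Type*} {n : ℕ}
    (hn : n.Prime) (hnK : (n : K) ≠ 0)
    {f g : FreeAlgebra K σ} {c : PF K σ n} (hc : c ≠ 0)
    (hF : (FreeAlgebra.lift K (CZ.gen K σ n) f).charpoly = Polynomial.X ^ n - Polynomial.C c)
    (hGF : FreeAlgebra.lift K (CZ.gen K σ n) g * FreeAlgebra.lift K (CZ.gen K σ n) f =
      FreeAlgebra.lift K (CZ.gen K σ n) f * FreeAlgebra.lift K (CZ.gen K σ n) g)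
    {L : Type*} [Field L] [Algebra K L] {ζ : L} (hζ : IsPrimitiveRoot ζ n)
    (X : σ → Matrix (Fin n) (Fin n) L)
    (hX : (FreeAlgebra.lift K X g).charpoly.Separable) :
    (FreeAlgebra.lift K X g).charpoly.Splits ∨ (Irreducible (FreeAlgebra.lift K X g).charpoly ∧
      Nat.card (FreeAlgebra.lift K X g).charpoly.Gal = n) := by
  have : NeZero n := ⟨hn.ne_zero⟩
  obtain ⟨c', hc', hF', hGF'⟩ := gen_facts_L (L := L) hc hF hGF
  set G := FreeAlgebra.lift K (CZ.gen L σ n) g with hGdef
  have hLR : Function.Injective (algebraMap L (PF L σ n)) :=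
    MvPolynomial.C_injective _ _
  have hnL : (n : L) ≠ 0 := by
    have := (algebraMap K L).injective.ne hnK
    rwa [map_natCast, map_zero] at this
  have hnR : (n : PF L σ n) ≠ 0 := by
    have := hLR.ne hnL
    rwa [map_natCast, map_zero] at this
  have hζR : IsPrimitiveRoot (algebraMap L (PF L σ n) ζ) n := hζ.map_of_injective hLR
  set ψ : PF L σ n →ₐ[L] L := ev (K := L) X with hψ
  have hψG : ψ.mapMatrix G = FreeAlgebra.lift K X g := ev_lift X g
  have hχG : G.charpoly.map (ψ : PF L σ n →+* L) = (FreeAlgebra.lift K X g).charpoly := by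
    rw [← Matrix.charpoly_map, ← hψG]
    rfl
  have hDX : ψ (gram G).det = (gram (FreeAlgebra.lift K X g)).det := by
    have h1 := map_gram (ψ : PF L σ n →+* L) G
    have h2 : (ψ : PF L σ n →+* L).mapMatrix G = FreeAlgebra.lift K X g := hψG
    rw [h2] at h1
    rw [h1]
    exact RingHom.map_det (ψ : PF L σ n →+* L) (gram G)
  have hDX0 : (gram (FreeAlgebra.lift K X g)).det ≠ 0 := by
    intro h0
    have h1 := map_gram (algebraMap L (AlgebraicClosure L)) (FreeAlgebra.lift K X g)
    have h3 := gram_det_ne ((algebraMap L (AlgebraicClosure L)).mapMatrix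
      (FreeAlgebra.lift K X g)) (by
        rw [RingHom.mapMatrix_apply, Matrix.charpoly_map]
        exact hX.map)
    apply h3
    rw [h1, ← RingHom.map_det, h0, map_zero]
  have hD0 : (gram G).det ≠ 0 := by
    intro h0
    apply hDX0
    rw [← hDX, h0, map_zero]
  obtain ⟨b, hb1, r, hr, hchar, hb2⟩ := galois_data hnR hc' hζR hF' hGF' hD0
  have hφinj : Function.Injective (algebraMap (PF L σ n)
      (AlgebraicClosure (FractionRing (PF L σ n)))) := by
    rw [IsScalarTower.algebraMap_eq (PF L σ n) (FractionRing (PF L σ n))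
      (AlgebraicClosure (FractionRing (PF L σ n))), RingHom.coe_comp]
    exact (algebraMap (FractionRing (PF L σ n)) _).injective.comp
      (IsFractionRing.injective _ _)
  refine split_or_cyclic hn (by rw [Matrix.charpoly_natDegree_eq_dim, Fintype.card_fin]) hX ?_
  intro x y hx hy
  have h1 := galois_spec hφinj (Matrix.charpoly_monic G) hr hchar hb2
    ((algebraMap L (AlgebraicClosure L)).comp (ψ : PF L σ n →+* L)) (x := x) (y := y)
    (by rw [← Polynomial.eval₂_map, hχG]; exact hx)
    (by rw [← Polynomial.eval₂_map, hχG]; exact hy)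
  obtain ⟨m, -, hm⟩ := Finset.prod_eq_zero_iff.1 h1
  refine ⟨∑ a : Fin n, Polynomial.C ((ψ (gram G).det)⁻¹ * ψ (b m a)) * Polynomial.X ^ (a : ℕ), ?_⟩
  have hD1 : (algebraMap L (AlgebraicClosure L)) (ψ (gram G).det) ≠ 0 := by
    rw [hDX]
    intro h0
    exact hDX0 ((algebraMap L (AlgebraicClosure L)).injective (h0.trans (map_zero _).symm))
  rw [sub_eq_zero] at hm
  refine mul_left_cancel₀ hD1 ?_
  refine Eq.trans hm ?_
  rw [map_sum, Finset.mul_sum]
  refine Finset.sum_congr rfl fun a _ => ?_
  rw [map_mul, Polynomial.aeval_C, map_pow, Polynomial.aeval_X, map_mul, map_inv₀, mul_assoc,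
    mul_inv_cancel_left₀ hD1]
  rfl

end Pool.Agent.U605.CZ
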