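import Pool.Agent.U605.CZ.Comm

/-!
# Gram matrices of block diagonal matrices with a block of size two
-/

set_option autoImplicit false

namespace Pool.Agent.U605.CZ

open Matrix

variable {B : Type*} [CommRing B]

/-- the coefficients of `P ^ a = p_a + q_a P` for a matrix `P` of size two with trace `t` and
determinant `d` -/
def pq (t d : B) : ℕ → B × B
  | 0 => (1, 0)
  | a + 1 => (-d * (pq t d a).2, (pq t d a).1 + t * (pq t d a).2)

theorem sq_two (P : Matrix (Fin 2) (Fin 2) B) :
    P * P = P.trace • P - P.det • (1 : Matrix (Fin 2) (Fin 2) B) := by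
  rw [Matrix.det_fin_two, Matrix.trace_fin_two]
  ext i j
  fin_cases i <;> fin_cases j <;> simp [Matrix.mul_apply, Fin.sum_univ_two] <;> ring

theorem pow_pq (P : Matrix (Fin 2) (Fin 2) B) (a : ℕ) :
    P ^ a = (pq P.trace P.det a).1 • (1 : Matrix (Fin 2) (Fin 2) B) +
      (pq P.trace P.det a).2 • P := by
  induction a with
  | zero => simp [pq]
  | succ a ih =>
    rw [pow_succ, ih, add_mul, Matrix.smul_mul, Matrix.smul_mul, one_mul, sq_two, pq]
    module

theorem trace_pq (P : Matrix (Fin 2) (Fin 2) B) (a b : ℕ) :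
    (P ^ (a + b)).trace =
      2 * ((pq P.trace P.det a).1 * (pq P.trace P.det b).1) +
      P.trace * ((pq P.trace P.det a).1 * (pq P.trace P.det b).2 +
        (pq P.trace P.det a).2 * (pq P.trace P.det b).1) +
      (P.trace ^ 2 - 2 * P.det) * ((pq P.trace P.det a).2 * (pq P.trace P.det b).2) := by
  rw [pow_add, pow_pq P a, pow_pq P b]
  generalize (pq P.trace P.det a).1 = x1
  generalize (pq P.trace P.det a).2 = x2
  generalize (pq P.trace P.det b).1 = y1
  generalize (pq P.trace P.det b).2 = y2
  rw [add_mul, mul_add, mul_add]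
  simp only [Matrix.smul_mul, Matrix.mul_smul, one_mul, mul_one, sq_two, Matrix.trace_add,
    Matrix.trace_smul, Matrix.trace_sub, Matrix.trace_one, Fintype.card_fin, smul_eq_mul]
  push_cast
  ring

/-- the discriminant of a matrix of size two -/
def disc2 (P : Matrix (Fin 2) (Fin 2) B) : B := P.trace ^ 2 - 4 * P.det

/-- the matrix of the coefficients of the powers -/
def Wm {k : ℕ} (P : Matrix (Fin 2) (Fin 2) B) (r : Fin k → B) :
    Matrix (Fin 2 ⊕ Fin k) (Fin 2 ⊕ Fin k) B :=
  Matrix.of fun a c => Sum.elim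
    ![(pq P.trace P.det ((finSumFinEquiv a : Fin (2 + k)) : ℕ)).1,
      (pq P.trace P.det ((finSumFinEquiv a : Fin (2 + k)) : ℕ)).2]
    (fun i => r i ^ ((finSumFinEquiv a : Fin (2 + k)) : ℕ)) c

theorem gram_blk {k : ℕ} (P : Matrix (Fin 2) (Fin 2) B) (r : Fin k → B)
    (G : Matrix (Fin (2 + k)) (Fin (2 + k)) B)
    (hG : ∀ m : ℕ, (G ^ m).trace = (P ^ m).trace + ∑ i, r i ^ m) :
    (gram G).det = disc2 P * (Wm P r).det ^ 2 := by
  have h1 : (gram G).submatrix finSumFinEquiv finSumFinEquiv = Wm P r *
      Matrix.fromBlocks (!![2, P.trace; P.trace, P.trace ^ 2 - 2 * P.det] :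
        Matrix (Fin 2) (Fin 2) B) 0 0 (1 : Matrix (Fin k) (Fin k) B) * (Wm P r)ᵀ := by
    ext a b
    rw [Matrix.submatrix_apply, gram, Matrix.of_apply, hG, trace_pq, Matrix.mul_apply,
      Fintype.sum_sum_type]
    simp only [Matrix.mul_apply, Fintype.sum_sum_type, Matrix.fromBlocks_apply₁₁,
      Matrix.fromBlocks_apply₁₂, Matrix.fromBlocks_apply₂₁, Matrix.fromBlocks_apply₂₂,
      Matrix.zero_apply, mul_zero, Finset.sum_const_zero, add_zero, zero_add, Wm,
      Matrix.of_apply, Matrix.transpose_apply, Sum.elim_inl, Sum.elim_inr, Fin.sum_univ_two]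
    congr 1
    · simp
      ring
    · refine Finset.sum_congr rfl fun i _ => ?_
      simp [Matrix.one_apply, pow_add]
  have h2 := Matrix.det_submatrix_equiv_self finSumFinEquiv (gram G)
  rw [← h2, h1, Matrix.det_mul, Matrix.det_mul, Matrix.det_transpose,
    Matrix.det_fromBlocks_zero₂₁, Matrix.det_one, mul_one, Matrix.det_fin_two, disc2]
  simp
  ring

theorem Wm_det_ne [IsDomain B] {k : ℕ} (P : Matrix (Fin 2) (Fin 2) B)
    (hP : ∀ c : B, P ≠ c • (1 : Matrix (Fin 2) (Fin 2) B)) (r : Fin k → B)
    (hr : Function.Injective r) (hPr : ∀ i, r i ^ 2 - P.trace * r i + P.det ≠ 0) :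
    (Wm P r).det ≠ 0 := by
  classical
  intro hdet
  obtain ⟨v, hv0, hv⟩ := Matrix.exists_vecMul_eq_zero_iff.2 hdet
  set z : Polynomial B := ∑ a : Fin 2 ⊕ Fin k,
    Polynomial.C (v a) * Polynomial.X ^ ((finSumFinEquiv a : Fin (2 + k)) : ℕ) with hz
  have hcoef : ∀ a : Fin 2 ⊕ Fin k, z.coeff ((finSumFinEquiv a : Fin (2 + k)) : ℕ) = v a := by
    intro a
    rw [hz, Polynomial.finset_sum_coeff, Finset.sum_eq_single a]
    · simp
    · intro b _ hb
      rw [Polynomial.coeff_C_mul, Polynomial.coeff_X_pow, if_neg, mul_zero]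
      intro h
      exact hb (finSumFinEquiv.injective (Fin.ext h)).symm
    · intro h
      exact absurd (Finset.mem_univ _) h
  have hzdeg : z.degree < ((2 + k : ℕ) : WithBot ℕ) := by
    rw [Polynomial.degree_lt_iff_coeff_zero]
    intro m hm
    rw [hz, Polynomial.finset_sum_coeff]
    refine Finset.sum_eq_zero fun a _ => ?_
    rw [Polynomial.coeff_C_mul, Polynomial.coeff_X_pow, if_neg, mul_zero]
    intro h
    have := (finSumFinEquiv a : Fin (2 + k)).2
    omega
  have hv1 : ∀ i : Fin k, z.eval (r i) = 0 := by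
    intro i
    have h1 := congrFun hv (Sum.inr i)
    rw [Matrix.vecMul, dotProduct] at h1
    rw [hz, Polynomial.eval_finset_sum]
    simpa [Wm] using h1
  have hvp : ∑ a, v a * (pq P.trace P.det ((finSumFinEquiv a : Fin (2 + k)) : ℕ)).1 = 0 := by
    have h1 := congrFun hv (Sum.inl 0)
    rw [Matrix.vecMul, dotProduct] at h1
    simpa [Wm] using h1
  have hvq : ∑ a, v a * (pq P.trace P.det ((finSumFinEquiv a : Fin (2 + k)) : ℕ)).2 = 0 := by
    have h1 := congrFun hv (Sum.inl 1)
    rw [Matrix.vecMul, dotProduct] at h1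
    simpa [Wm] using h1
  have hzP : Polynomial.aeval P z = 0 := by
    rw [hz, map_sum]
    have h1 : ∀ a : Fin 2 ⊕ Fin k, Polynomial.aeval P (Polynomial.C (v a) *
        Polynomial.X ^ ((finSumFinEquiv a : Fin (2 + k)) : ℕ)) =
        (v a * (pq P.trace P.det ((finSumFinEquiv a : Fin (2 + k)) : ℕ)).1) •
          (1 : Matrix (Fin 2) (Fin 2) B) +
        (v a * (pq P.trace P.det ((finSumFinEquiv a : Fin (2 + k)) : ℕ)).2) • P := by
      intro a
      rw [map_mul, map_pow, Polynomial.aeval_X, Polynomial.aeval_C, ← Algebra.smul_def,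
        pow_pq, smul_add, smul_smul, smul_smul]
    rw [Finset.sum_congr rfl fun a _ => h1 a, Finset.sum_add_distrib, ← Finset.sum_smul,
      ← Finset.sum_smul, hvp, hvq, zero_smul, zero_smul, add_zero]
  -- division by the characteristic polynomial
  set χ : Polynomial B := Polynomial.X ^ 2 - Polynomial.C P.trace * Polynomial.X +
    Polynomial.C P.det with hχ
  have hχm : χ.Monic := by
    rw [hχ]
    monicity!
  have hχd : χ.natDegree = 2 := by
    rw [hχ]
    compute_degree!
  have hχP : Polynomial.aeval P χ = 0 := by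
    rw [hχ, map_add, map_sub, map_mul, map_pow, Polynomial.aeval_X, Polynomial.aeval_C,
      Polynomial.aeval_C, pow_two, sq_two, ← Algebra.smul_def, Algebra.algebraMap_eq_smul_one]
    abel
  have hmod : z %ₘ χ = 0 := by
    have h1 : Polynomial.aeval P (z %ₘ χ) = 0 := by
      rw [Polynomial.aeval_modByMonic_eq_self_of_root hχP, hzP]
    have h2 : (z %ₘ χ).natDegree < 2 := by
      rw [← hχd]
      exact Polynomial.natDegree_modByMonic_lt _ hχm (by
        intro h3
        rw [h3, Polynomial.natDegree_one] at hχd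
        omega)
    have h3 : z %ₘ χ = Polynomial.C ((z %ₘ χ).coeff 1) * Polynomial.X +
        Polynomial.C ((z %ₘ χ).coeff 0) :=
      Polynomial.eq_X_add_C_of_natDegree_le_one (by omega)
    rw [h3, map_add, map_mul, Polynomial.aeval_X, Polynomial.aeval_C, Polynomial.aeval_C,
      ← Algebra.smul_def, Algebra.algebraMap_eq_smul_one] at h1
    set b := (z %ₘ χ).coeff 1
    set a := (z %ₘ χ).coeff 0
    have e : ∀ i j, b * P i j + a * (1 : Matrix (Fin 2) (Fin 2) B) i j = 0 := by
      intro i j
      have := congrFun (congrFun h1 i) j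
      simpa using this
    have hb : b = 0 := by
      by_contra hb
      apply hP (P 0 0)
      have e01 := e 0 1
      have e10 := e 1 0
      have e00 := e 0 0
      have e11 := e 1 1
      simp at e01 e10 e00 e11
      have h01 : P 0 1 = 0 := e01.resolve_left hb
      have h10 : P 1 0 = 0 := e10.resolve_left hb
      have h11 : P 1 1 = P 0 0 := by
        have : b * (P 1 1 - P 0 0) = 0 := by linear_combination e11 - e00
        exact sub_eq_zero.1 ((mul_eq_zero.1 this).resolve_left hb)
      ext i j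
      fin_cases i <;> fin_cases j <;> simp [h01, h10, h11]
    have ha : a = 0 := by
      have e00 := e 0 0
      rw [hb] at e00
      simpa using e00
    rw [h3, hb, ha]
    simp
  obtain ⟨z1, hz1⟩ := (Polynomial.modByMonic_eq_zero_iff_dvd hχm).1 hmod
  have hz10 : z1 = 0 := by
    by_contra hne
    have h1 : z1.natDegree < k := by
      have h2 : z.natDegree = 2 + z1.natDegree := by
        rw [hz1, hχm.natDegree_mul' hne, hχd]
      have h3 : z ≠ 0 := by
        rw [hz1]
        exact mul_ne_zero hχm.ne_zero hne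
      have h4 := (Polynomial.natDegree_lt_iff_degree_lt h3).2 hzdeg
      omega
    apply hne
    refine Polynomial.eq_zero_of_natDegree_lt_card_of_eval_eq_zero z1 hr (fun i => ?_)
      (by rw [Fintype.card_fin]; exact h1)
    have h2 := hv1 i
    rw [hz1, Polynomial.eval_mul] at h2
    refine (mul_eq_zero.1 h2).resolve_left ?_
    have h3 : χ.eval (r i) = r i ^ 2 - P.trace * r i + P.det := by
      rw [hχ]
      simp
    rw [h3]
    exact hPr i
  apply hv0
  funext a
  rw [← hcoef a, hz1, hz10, mul_zero, Polynomial.coeff_zero]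
  rfl

end Pool.Agent.U605.CZ
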