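import Pool.Agent.U605.CZ.Two
import Pool.Agent.H552R3.PC.Quant3

/-!
# The quantum plane of size two
-/

set_option autoImplicit false

namespace Pool.Agent.U605.CZ

open Matrix Pool.Agent.H552R3.PC

section qp

variable {A : Type*} [CommRing A] [IsDomain A] {K : Type*} [CommRing K] [Algebra K A] {z z' : A}

/-- the invariants -/
def Inv (z z' : A) (b : MvPolynomial (Fin 2) A) : Prop := scl ![1, z] b = b ∧ scl ![z', 1] b = b

theorem Inv.mul {b c : MvPolynomial (Fin 2) A} (hb : Inv z z' b) (hc : Inv z z' c) :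
    Inv z z' (b * c) := ⟨by rw [map_mul, hb.1, hc.1], by rw [map_mul, hb.2, hc.2]⟩

theorem Inv.add {b c : MvPolynomial (Fin 2) A} (hb : Inv z z' b) (hc : Inv z z' c) :
    Inv z z' (b + c) := ⟨by rw [map_add, hb.1, hc.1], by rw [map_add, hb.2, hc.2]⟩

theorem Inv.neg {b : MvPolynomial (Fin 2) A} (hb : Inv z z' b) :
    Inv z z' (-b) := ⟨by rw [map_neg, hb.1], by rw [map_neg, hb.2]⟩

theorem Inv.pow {b : MvPolynomial (Fin 2) A} (hb : Inv z z' b) (m : ℕ) :
    Inv z z' (b ^ m) := ⟨by rw [map_pow, hb.1], by rw [map_pow, hb.2]⟩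

theorem Inv.C (a : A) : Inv z z' (MvPolynomial.C a) := ⟨scl_C _ a, scl_C _ a⟩

theorem Inv.scalar_mem {b : MvPolynomial (Fin 2) A} (hz : IsPrimitiveRoot z 2)
    (hzz : z * z' = 1) (hb : Inv z z' b) :
    (Matrix.scalar (Fin 2) b : PQ 2 A) ∈ qpl (A := A) K z z' 2 := by
  obtain ⟨g, hg⟩ := exists_expand hz hzz b hb.1 hb.2
  rw [← hg]
  refine scalar_mem_qpl hz.pow_eq_one ?_ g
  have h1 : (z * z') ^ 2 = 1 := by rw [hzz, one_pow]
  rwa [mul_pow, hz.pow_eq_one, one_mul] at h1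

theorem inv_trace {M : PQ 2 A} (hzz : z * z' = 1) (hM : M ∈ qpl (A := A) K z z' 2) :
    Inv z z' M.trace := by
  have h1 : M.trace = -M.charpoly.coeff 1 := by
    have := Matrix.trace_eq_neg_charpoly_coeff M
    simpa using this
  rw [h1]
  exact Inv.neg ⟨charpoly_inv1 hzz hM 1, charpoly_inv2 hM 1⟩

theorem inv_det {M : PQ 2 A} (hzz : z * z' = 1) (hM : M ∈ qpl (A := A) K z z' 2) :
    Inv z z' M.det := by
  have h1 : M.det = M.charpoly.coeff 0 := by
    have := Matrix.det_eq_sign_charpoly_coeff M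
    simpa using this
  rw [h1]
  exact ⟨charpoly_inv1 hzz hM 0, charpoly_inv2 hM 0⟩

theorem eq_zero_of_det {M : PQ 2 A} (hz : IsPrimitiveRoot z 2) (hz' : z' ≠ 0)
    (hM : M ∈ qpl (A := A) K z z' 2) (hd : M.det = 0) : M = 0 := by
  by_contra hM0
  have h1 : M * (M.trace • (1 : PQ 2 A) - M) = 0 := by
    rw [mul_sub, sq_two, hd, zero_smul, sub_zero, Matrix.mul_smul, mul_one, sub_self]
  have h2 : M.trace • (1 : PQ 2 A) - M = 0 := by
    by_contra h3
    exact qpl_mul_ne_zero hz hz' hM hM0 h3 h1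
  have h3 : M.trace • (1 : PQ 2 A) = M := sub_eq_zero.1 h2
  have h4 : M.trace ^ 2 = 0 := by
    have h5 := hd
    rw [← h3, Matrix.det_smul, Matrix.det_one, mul_one, Fintype.card_fin] at h5
    exact h5
  have h5 : M.trace = 0 := pow_eq_zero_iff two_ne_zero |>.1 h4
  rw [h5, zero_smul] at h3
  exact hM0 h3.symm

theorem char_ne {P : PQ 2 A} (hz : IsPrimitiveRoot z 2) (hzz : z * z' = 1)
    (hP : P ∈ qpl (A := A) K z z' 2)
    (hns : ∀ c : MvPolynomial (Fin 2) A, P ≠ c • (1 : PQ 2 A))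
    {b : MvPolynomial (Fin 2) A} (hb : Inv z z' b) : b ^ 2 - P.trace * b + P.det ≠ 0 := by
  intro h
  have hz' : z' ≠ 0 := right_ne_zero_of_mul_eq_one hzz
  have hmem : (Matrix.scalar (Fin 2) b : PQ 2 A) - P ∈ qpl (A := A) K z z' 2 :=
    Subalgebra.sub_mem _ (hb.scalar_mem hz hzz) hP
  have h1 := eq_zero_of_det hz hz' hmem (by
    rw [← h, Matrix.det_fin_two, Matrix.det_fin_two, Matrix.trace_fin_two]
    simp
    ring)
  apply hns b
  rw [← sub_eq_zero.1 h1]
  rw [Matrix.scalar_apply, Matrix.smul_one_eq_diagonal]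

theorem disc_ne {P : PQ 2 A} (hz : IsPrimitiveRoot z 2) (hzz : z * z' = 1)
    (h2 : (2 : A) ≠ 0) (hP : P ∈ qpl (A := A) K z z' 2)
    (hns : ∀ c : MvPolynomial (Fin 2) A, P ≠ c • (1 : PQ 2 A))
    {w s : MvPolynomial (Fin 2) A} (hw : Inv z z' w) (hs : Inv z z' s) (hw0 : w ≠ 0) :
    disc2 P * w ^ 2 ≠ s ^ 2 := by
  intro h
  have hz' : z' ≠ 0 := right_ne_zero_of_mul_eq_one hzz
  have hC2 : (MvPolynomial.C (2 : A) : MvPolynomial (Fin 2) A) = 2 := map_ofNat _ 2
  have h2B : (2 : MvPolynomial (Fin 2) A) ≠ 0 := by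
    have := (MvPolynomial.C_injective (Fin 2) A).ne h2
    rwa [hC2, map_zero] at this
  have h2I : Inv z z' (2 : MvPolynomial (Fin 2) A) := by
    have := Inv.C (z := z) (z' := z') (2 : A)
    rwa [hC2] at this
  have hmem : (Matrix.scalar (Fin 2) (2 * w) : PQ 2 A) * P -
      Matrix.scalar (Fin 2) (w * P.trace + s) ∈ qpl (A := A) K z z' 2 :=
    Subalgebra.sub_mem _ (Subalgebra.mul_mem _ ((h2I.mul hw).scalar_mem hz hzz) hP)
      (((hw.mul (inv_trace hzz hP)).add hs).scalar_mem hz hzz)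
  have h1 := eq_zero_of_det hz hz' hmem (by
    rw [disc2, Matrix.det_fin_two, Matrix.trace_fin_two] at h
    rw [Matrix.det_fin_two, Matrix.trace_fin_two]
    simp only [Matrix.sub_apply, Matrix.mul_apply, Matrix.scalar_apply, Fin.sum_univ_two,
      Matrix.diagonal_apply_eq, ne_eq, zero_ne_one, one_ne_zero, not_false_eq_true,
      Matrix.diagonal_apply_ne, zero_mul, add_zero, zero_add, sub_zero]
    linear_combination -h)
  have e01 := congrFun (congrFun h1 0) 1
  have e10 := congrFun (congrFun h1 1) 0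
  have e00 := congrFun (congrFun h1 0) 0
  have e11 := congrFun (congrFun h1 1) 1
  simp only [Matrix.sub_apply, Matrix.mul_apply, Matrix.scalar_apply, Fin.sum_univ_two,
      Matrix.diagonal_apply_eq, ne_eq, zero_ne_one, one_ne_zero, not_false_eq_true,
      Matrix.diagonal_apply_ne, zero_mul, add_zero, zero_add, sub_zero, Matrix.zero_apply]
      at e01 e10 e00 e11
  have hw2 : 2 * w ≠ 0 := mul_ne_zero h2B hw0
  have h01 : P 0 1 = 0 := (mul_eq_zero.1 e01).resolve_left hw2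
  have h10 : P 1 0 = 0 := (mul_eq_zero.1 e10).resolve_left hw2
  have h11 : P 1 1 = P 0 0 := by
    have : 2 * w * (P 1 1 - P 0 0) = 0 := by linear_combination e11 - e00
    exact sub_eq_zero.1 ((mul_eq_zero.1 this).resolve_left hw2)
  apply hns (P 0 0)
  ext1 i j
  fin_cases i <;> fin_cases j <;> simp [h01, h10, h11]

theorem inv_pq {P : PQ 2 A} (hzz : z * z' = 1) (hP : P ∈ qpl (A := A) K z z' 2) (a : ℕ) :
    Inv z z' (pq P.trace P.det a).1 ∧ Inv z z' (pq P.trace P.det a).2 := by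
  have ht := inv_trace hzz hP
  have hd := inv_det hzz hP
  induction a with
  | zero =>
    have h0 := Inv.C (z := z) (z' := z') (0 : A)
    have h1 := Inv.C (z := z) (z' := z') (1 : A)
    rw [map_zero] at h0
    rw [map_one] at h1
    exact ⟨h1, h0⟩
  | succ a ih => exact ⟨hd.neg.mul ih.2, ih.1.add (ht.mul ih.2)⟩

theorem inv_Wm {k : ℕ} {P : PQ 2 A} (hzz : z * z' = 1) (hP : P ∈ qpl (A := A) K z z' 2)
    (r : Fin k → A) : Inv z z' (Wm P (fun i => MvPolynomial.C (r i))).det := by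
  have h1 : ∀ w : Fin 2 → A, (∀ a, scl w (pq P.trace P.det a).1 = (pq P.trace P.det a).1) →
      (∀ a, scl w (pq P.trace P.det a).2 = (pq P.trace P.det a).2) →
      scl w (Wm P (fun i => MvPolynomial.C (r i))).det =
        (Wm P (fun i => MvPolynomial.C (r i))).det := by
    intro w h1 h2
    rw [AlgHom.map_det]
    congr 1
    ext1 a c
    rw [AlgHom.mapMatrix_apply, Matrix.map_apply]
    rcases c with c | c
    · fin_cases c
      · simpa [Wm] using h1 _
      · simpa [Wm] using h2 _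
    · simp [Wm, scl_C]
  exact ⟨h1 _ (fun a => (inv_pq hzz hP a).1.1) (fun a => (inv_pq hzz hP a).2.1),
    h1 _ (fun a => (inv_pq hzz hP a).1.2) (fun a => (inv_pq hzz hP a).2.2)⟩

end qp

end Pool.Agent.U605.CZ
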