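import Pool.Agent.U605.CZ.Two2

/-!
# Block diagonal values
-/

set_option autoImplicit false

namespace Pool.Agent.U605.CZ

open Matrix Pool.Agent.H552R3.PC

section blk

variable {K : Type*} [Field K] {σ : Type*} {A : Type*} [CommRing A] {k : ℕ}

/-- block diagonal matrices -/
def blk (U : Matrix (Fin 2) (Fin 2) A) (V : Matrix (Fin k) (Fin k) A) :
    Matrix (Fin (2 + k)) (Fin (2 + k)) A :=
  Matrix.reindex finSumFinEquiv finSumFinEquiv (Matrix.fromBlocks U 0 0 V)

theorem blk_mul (U U' : Matrix (Fin 2) (Fin 2) A) (V V' : Matrix (Fin k) (Fin k) A) :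
    blk U V * blk U' V' = blk (U * U') (V * V') := by
  rw [blk, blk, blk, Matrix.reindex_apply, Matrix.reindex_apply, Matrix.reindex_apply,
    Matrix.submatrix_mul_equiv, Matrix.fromBlocks_multiply]
  simp

theorem blk_add (U U' : Matrix (Fin 2) (Fin 2) A) (V V' : Matrix (Fin k) (Fin k) A) :
    blk U V + blk U' V' = blk (U + U') (V + V') := by
  ext1 i j
  simp only [blk, Matrix.reindex_apply, Matrix.submatrix_apply, Matrix.add_apply]
  rcases finSumFinEquiv.symm i with a | a <;> rcases finSumFinEquiv.symm j with b | b <;> simp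

theorem blk_one : blk (1 : Matrix (Fin 2) (Fin 2) A) (1 : Matrix (Fin k) (Fin k) A) = 1 := by
  rw [blk, Matrix.fromBlocks_one, Matrix.reindex_apply, Matrix.submatrix_one_equiv]

theorem blk_algebraMap [Algebra K A] (c : K) :
    blk (algebraMap K (Matrix (Fin 2) (Fin 2) A) c) (algebraMap K (Matrix (Fin k) (Fin k) A) c) =
      algebraMap K (Matrix (Fin (2 + k)) (Fin (2 + k)) A) c := by
  have h1 : ∀ (m : ℕ), algebraMap K (Matrix (Fin m) (Fin m) A) c =
      (algebraMap K A c) • (1 : Matrix (Fin m) (Fin m) A) := by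
    intro m
    rw [Algebra.algebraMap_eq_smul_one, algebraMap_smul]
  rw [h1, h1, h1, ← blk_one]
  ext1 i j
  simp only [blk, Matrix.reindex_apply, Matrix.submatrix_apply, Matrix.smul_apply]
  rcases finSumFinEquiv.symm i with a | a <;> rcases finSumFinEquiv.symm j with b | b
  · simp
    exact Algebra.smul_def _ _
  · simp
  · simp
  · simp
    exact Algebra.smul_def _ _

theorem blk_pow (U : Matrix (Fin 2) (Fin 2) A) (V : Matrix (Fin k) (Fin k) A) (m : ℕ) :
    blk U V ^ m = blk (U ^ m) (V ^ m) := by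
  induction m with
  | zero => simp only [pow_zero, blk_one]
  | succ m ih => rw [pow_succ, ih, blk_mul, ← pow_succ, ← pow_succ]

theorem trace_blk (U : Matrix (Fin 2) (Fin 2) A) (V : Matrix (Fin k) (Fin k) A) :
    (blk U V).trace = U.trace + V.trace := by
  have h1 : U.trace + V.trace = ∑ i : Fin 2 ⊕ Fin k, (Matrix.fromBlocks U 0 0 V) i i := by
    rw [Fintype.sum_sum_type]
    rfl
  rw [h1, blk, Matrix.trace]
  refine Fintype.sum_equiv finSumFinEquiv.symm _ _ fun i => ?_
  simp

theorem blk_map {A' : Type*} [CommRing A'] (φ : A →+* A') (U : Matrix (Fin 2) (Fin 2) A)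
    (V : Matrix (Fin k) (Fin k) A) : φ.mapMatrix (blk U V) = blk (φ.mapMatrix U) (φ.mapMatrix V) := by
  ext1 i j
  simp only [blk, RingHom.mapMatrix_apply, Matrix.map_apply, Matrix.reindex_apply,
    Matrix.submatrix_apply]
  rcases finSumFinEquiv.symm i with a | a <;> rcases finSumFinEquiv.symm j with b | b <;> simp

theorem lift_blk [Algebra K A] (Y : σ → Matrix (Fin 2) (Fin 2) A)
    (V : σ → Matrix (Fin k) (Fin k) A) (g : FreeAlgebra K σ) :
    FreeAlgebra.lift K (fun s => blk (Y s) (V s)) g =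
      blk (FreeAlgebra.lift K Y g) (FreeAlgebra.lift K V g) := by
  induction g using FreeAlgebra.induction with
  | grade0 c => rw [AlgHom.commutes, AlgHom.commutes, AlgHom.commutes, blk_algebraMap]
  | grade1 s => rw [FreeAlgebra.lift_ι_apply, FreeAlgebra.lift_ι_apply, FreeAlgebra.lift_ι_apply]
  | mul a b ha hb => rw [map_mul, map_mul, map_mul, ha, hb, blk_mul]
  | add a b ha hb => rw [map_add, map_add, map_add, ha, hb, blk_add]

end blk

theorem exists_point {L : Type*} [Field L] [Infinite L] {τ : Type*}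
    (Q : MvPolynomial (Fin 2) (MvPolynomial τ L)) (hQ : Q ≠ 0) :
    ∃ φ : MvPolynomial (Fin 2) (MvPolynomial τ L) →ₐ[L] L, φ Q ≠ 0 := by
  have : Infinite (MvPolynomial τ L) :=
    Infinite.of_injective (MvPolynomial.C : L → MvPolynomial τ L) (MvPolynomial.C_injective τ L)
  obtain ⟨c, hc⟩ : ∃ c : Fin 2 → MvPolynomial τ L, MvPolynomial.eval c Q ≠ 0 := by
    by_contra h
    push Not at h
    exact hQ (MvPolynomial.funext (fun x => by rw [h x, map_zero]))
  obtain ⟨x, hx⟩ : ∃ x : τ → L, MvPolynomial.eval x (MvPolynomial.eval c Q) ≠ 0 := by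
    by_contra h
    push Not at h
    exact hc (MvPolynomial.funext (fun x => by rw [h x, map_zero]))
  refine ⟨(MvPolynomial.aeval x : MvPolynomial τ L →ₐ[L] L).comp
    ((MvPolynomial.aeval c : MvPolynomial (Fin 2) (MvPolynomial τ L) →ₐ[MvPolynomial τ L]
      MvPolynomial τ L).restrictScalars L), ?_⟩
  simpa [MvPolynomial.coe_aeval_eq_eval] using hx

theorem trace_pow_two {L : Type*} [Field L] (M : Matrix (Fin 2) (Fin 2) L) {α β : L}
    (hα : α ^ 2 - M.trace * α + M.det = 0) (hβ : β ^ 2 - M.trace * β + M.det = 0)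
    (hab : α + β = M.trace) (m : ℕ) : (M ^ m).trace = α ^ m + β ^ m := by
  have h1 : ∀ x : L, x ^ 2 - M.trace * x + M.det = 0 →
      x ^ m = (pq M.trace M.det m).1 + (pq M.trace M.det m).2 * x := by
    intro x hx
    induction m with
    | zero => simp [pq]
    | succ m ih =>
      rw [pow_succ, ih, pq]
      linear_combination (pq M.trace M.det m).2 * hx
  rw [pow_pq, Matrix.trace_add, Matrix.trace_smul, Matrix.trace_smul, Matrix.trace_one, h1 α hα,
    h1 β hβ, smul_eq_mul, smul_eq_mul, Fintype.card_fin, ← hab]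
  push_cast
  ring

/-- `g` has on `k × k` matrices over `L` a value with distinct eigenvalues -/
def HasPt (K : Type*) [Field K] (L : Type*) [Field L] [Algebra K L] (σ : Type*)
    (g : FreeAlgebra K σ) (k : ℕ) : Prop :=
  ∃ X : σ → Matrix (Fin k) (Fin k) L, ∃ r : Fin k → L, Function.Injective r ∧
    ∀ m : ℕ, ((FreeAlgebra.lift K X g) ^ m).trace = ∑ i, r i ^ m

section

variable {K : Type*} [Field K] {L : Type*} [Field L] [Algebra K L] {σ : Type*}
  {g : FreeAlgebra K σ}

theorem hasPt_one : HasPt K L σ g 1 := by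
  refine ⟨fun _ => 0, fun _ => (FreeAlgebra.lift K (fun _ => 0) g : Matrix (Fin 1) (Fin 1) L) 0 0,
    fun i j _ => Subsingleton.elim _ _, fun m => ?_⟩
  set M : Matrix (Fin 1) (Fin 1) L := FreeAlgebra.lift K (fun _ => 0) g
  have h1 : ∀ m : ℕ, (M ^ m) 0 0 = M 0 0 ^ m := by
    intro m
    induction m with
    | zero => simp
    | succ m ih => rw [pow_succ, Matrix.mul_apply, Fin.sum_univ_one, ih, pow_succ]
  rw [Matrix.trace_fin_one, h1]
  simp

theorem prim_neg_one (h2 : (2 : L) ≠ 0) : IsPrimitiveRoot (-1 : L) 2 := by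
  refine IsPrimitiveRoot.mk_of_lt _ two_pos (by norm_num) fun l hl hl2 => ?_
  have : l = 1 := by omega
  subst this
  rw [pow_one]
  intro h
  apply h2
  linear_combination -h

theorem gq_two_mem (g : FreeAlgebra K σ) :
    FreeAlgebra.lift K (gq (σ := σ) (-1 : L) 2) g ∈
      qpl (A := GA L σ 2) K (MvPolynomial.C (-1)) (MvPolynomial.C (-1)) 2 :=
  lift_mem _ _ (fun i => gq_mem (by norm_num) (by norm_num) i) g

theorem hasPt_step [IsAlgClosed L] [Infinite L] (h2 : (2 : L) ≠ 0)
    (hns : ∀ c : MvPolynomial (Fin 2) (GA L σ 2),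
      FreeAlgebra.lift K (gq (σ := σ) (-1 : L) 2) g ≠ c • (1 : PQ 2 (GA L σ 2)))
    {k : ℕ} (h : HasPt K L σ g k) : HasPt K L σ g (2 + k) := by
  obtain ⟨X', r, hr, htr⟩ := h
  set P := FreeAlgebra.lift K (gq (σ := σ) (-1 : L) 2) g with hP
  have hPmem : P ∈ qpl (A := GA L σ 2) K (MvPolynomial.C (-1)) (MvPolynomial.C (-1)) 2 :=
    gq_two_mem g
  have hz : IsPrimitiveRoot (MvPolynomial.C (-1 : L) : GA L σ 2) 2 :=
    (prim_neg_one h2).map_of_injective (MvPolynomial.C_injective _ _)
  have hzz : (MvPolynomial.C (-1 : L) : GA L σ 2) * MvPolynomial.C (-1) = 1 := by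
    rw [← map_mul]
    norm_num
  have h2A : (2 : GA L σ 2) ≠ 0 := by
    have := (MvPolynomial.C_injective (σ × Fin 2 × Fin 2) L).ne h2
    rwa [map_ofNat, map_zero] at this
  have hdisc : disc2 P ≠ 0 := by
    have h1 := Inv.C (z := (MvPolynomial.C (-1 : L) : GA L σ 2))
      (z' := (MvPolynomial.C (-1 : L) : GA L σ 2)) 1
    have h0 := Inv.C (z := (MvPolynomial.C (-1 : L) : GA L σ 2))
      (z' := (MvPolynomial.C (-1 : L) : GA L σ 2)) 0
    rw [map_one] at h1
    rw [map_zero] at h0
    have := disc_ne hz hzz h2A hPmem hns h1 h0 one_ne_zero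
    intro h
    apply this
    rw [h]
    ring
  have hch : ∀ i, (MvPolynomial.C (MvPolynomial.C (r i))) ^ 2 -
      P.trace * (MvPolynomial.C (MvPolynomial.C (r i))) + P.det ≠ 0 :=
    fun i => char_ne hz hzz hPmem hns (Inv.C _)
  obtain ⟨φ, hφ⟩ := exists_point (disc2 P * ∏ i, ((MvPolynomial.C (MvPolynomial.C (r i))) ^ 2 -
      P.trace * (MvPolynomial.C (MvPolynomial.C (r i))) + P.det))
    (mul_ne_zero hdisc (Finset.prod_ne_zero_iff.2 fun i _ => hch i))
  rw [map_mul, map_prod] at hφ
  set Y : σ → Matrix (Fin 2) (Fin 2) L := fun s => φ.mapMatrix (gq (-1) 2 s) with hY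
  have hYP : FreeAlgebra.lift K Y g = φ.mapMatrix P := by
    rw [hP]
    exact (lift_map ((φ.restrictScalars K).mapMatrix (m := Fin 2)) _ g).symm
  set M := FreeAlgebra.lift K Y g with hM
  have ht : φ P.trace = M.trace := by
    rw [hYP, Matrix.trace, Matrix.trace, map_sum]
    rfl
  have hd : φ P.det = M.det := by
    rw [hYP, AlgHom.map_det]
  have hφC : ∀ x : L, φ (MvPolynomial.C (MvPolynomial.C x)) = x := fun x => φ.commutes x
  have hdM : M.trace ^ 2 - 4 * M.det ≠ 0 := by
    have h1 := left_ne_zero_of_mul hφ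
    rw [disc2, map_sub, map_mul, map_pow, ht, hd, map_ofNat] at h1
    exact h1
  have hcM : ∀ i, r i ^ 2 - M.trace * r i + M.det ≠ 0 := by
    intro i
    have h1 := Finset.prod_ne_zero_iff.1 (right_ne_zero_of_mul hφ) i (Finset.mem_univ i)
    rw [map_add, map_sub, map_mul, map_pow, ht, hd, hφC] at h1
    exact h1
  obtain ⟨s, hs⟩ := IsAlgClosed.exists_pow_nat_eq (M.trace ^ 2 - 4 * M.det) two_pos
  have hs0 : s ≠ 0 := by
    rintro rfl
    apply hdM
    rw [← hs]
    ring
  obtain ⟨α, hα⟩ : ∃ α : L, 2 * α = M.trace + s := ⟨(M.trace + s) / 2, by field_simp⟩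
  obtain ⟨β, hβ⟩ : ∃ β : L, 2 * β = M.trace - s := ⟨(M.trace - s) / 2, by field_simp⟩
  have h4 : (4 : L) ≠ 0 := by
    have : (4 : L) = 2 * 2 := by norm_num
    rw [this]
    exact mul_ne_zero h2 h2
  have hα2 : α ^ 2 - M.trace * α + M.det = 0 := by
    have : 4 * (α ^ 2 - M.trace * α + M.det) = 0 := by
      linear_combination (2 * α - M.trace + s) * hα + hs
    exact (mul_eq_zero.1 this).resolve_left h4
  have hβ2 : β ^ 2 - M.trace * β + M.det = 0 := by
    have : 4 * (β ^ 2 - M.trace * β + M.det) = 0 := by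
      linear_combination (2 * β - M.trace - s) * hβ + hs
    exact (mul_eq_zero.1 this).resolve_left h4
  have hab : α + β = M.trace := by
    have : 2 * (α + β - M.trace) = 0 := by linear_combination hα + hβ
    exact sub_eq_zero.1 ((mul_eq_zero.1 this).resolve_left h2)
  have hne : α ≠ β := by
    rintro rfl
    have : 2 * s = 0 := by linear_combination hβ - hα
    exact hs0 ((mul_eq_zero.1 this).resolve_left h2)
  refine ⟨fun s => blk (Y s) (X' s), Fin.append ![α, β] r, ?_, fun m => ?_⟩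
  · rw [Fin.append_injective_iff]
    refine ⟨?_, hr, ?_⟩
    · intro i j hij
      fin_cases i <;> fin_cases j <;> simp_all
    · intro i j hij
      apply hcM j
      rw [← hij]
      fin_cases i
      · exact hα2
      · exact hβ2
  · rw [lift_blk, blk_pow, trace_blk, trace_pow_two M hα2 hβ2 hab, htr, Fin.sum_univ_add]
    simp [Fin.append_left, Fin.append_right, Fin.sum_univ_two]

theorem hasPt_odd [IsAlgClosed L] [Infinite L] (h2 : (2 : L) ≠ 0)
    (hns : ∀ c : MvPolynomial (Fin 2) (GA L σ 2),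
      FreeAlgebra.lift K (gq (σ := σ) (-1 : L) 2) g ≠ c • (1 : PQ 2 (GA L σ 2)))
    (j : ℕ) : HasPt K L σ g (2 * j + 1) := by
  induction j with
  | zero => exact hasPt_one
  | succ j ih =>
    have : 2 * (j + 1) + 1 = 2 + (2 * j + 1) := by ring
    rw [this]
    exact hasPt_step h2 hns ih

end

end Pool.Agent.U605.CZ
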