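import Pool.Agent.U605.CZ.Dom

/-!
# A family of matrices whose discriminant has odd degree
-/

set_option autoImplicit false

namespace Pool.Agent.U605.CZ

open Matrix Polynomial

variable {n : ℕ}

/-- the companion matrix of `T ^ n - s T` -/
def Zm {A : Type*} [CommRing A] (n : ℕ) (s : A) : Matrix (Fin n) (Fin n) A :=
  Matrix.of fun i j => if (j : ℕ) = i + 1 then 1 else if (i : ℕ) = n - 1 ∧ (j : ℕ) = 1 then s else 0

theorem Zm_self {A : Type*} [CommRing A] (hn : 3 ≤ n) (s : A) (i : Fin n) : Zm n s i i = 0 := by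
  rw [Zm, Matrix.of_apply, if_neg (by omega), if_neg (by omega)]

theorem map_Zm {A B : Type*} [CommRing A] [CommRing B] (φ : A →+* B) (s : A) :
    φ.mapMatrix (Zm n s) = Zm n (φ s) := by
  ext i j
  simp only [Zm, RingHom.mapMatrix_apply, Matrix.map_apply, Matrix.of_apply]
  split_ifs <;> simp

theorem Zm_scale {A : Type*} [CommRing A] (u : A) :
    Zm n (u ^ (n - 1)) * diagonal (fun i : Fin n => u ^ (i : ℕ)) =
      u • (diagonal (fun i : Fin n => u ^ (i : ℕ)) * Zm n (1 : A)) := by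
  ext i j
  rw [Matrix.mul_diagonal, Matrix.smul_apply, Matrix.diagonal_mul, smul_eq_mul]
  simp only [Zm, Matrix.of_apply]
  split_ifs with h1 h2
  · rw [h1]; ring
  · rw [h2.1, h2.2]; ring
  · ring

theorem Zm_scale_pow {A : Type*} [CommRing A] (u : A) (m : ℕ) :
    Zm n (u ^ (n - 1)) ^ m * diagonal (fun i : Fin n => u ^ (i : ℕ)) =
      u ^ m • (diagonal (fun i : Fin n => u ^ (i : ℕ)) * Zm n (1 : A) ^ m) := by
  induction m with
  | zero => simp
  | succ m ih =>
    rw [pow_succ, mul_assoc, Zm_scale, Matrix.mul_smul, ← mul_assoc, ih, Matrix.smul_mul,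
      smul_smul, mul_assoc, ← pow_succ, ← pow_succ']

theorem trace_Zm {A : Type*} [CommRing A] [IsDomain A] {u : A} (hu : u ≠ 0) (m : ℕ) :
    (Zm n (u ^ (n - 1)) ^ m).trace = u ^ m * (Zm n (1 : A) ^ m).trace := by
  rw [Matrix.trace, Matrix.trace, Finset.mul_sum]
  refine Finset.sum_congr rfl fun i _ => ?_
  have h := congrFun (congrFun (Zm_scale_pow u m) i) i
  rw [Matrix.mul_diagonal, Matrix.smul_apply, Matrix.diagonal_mul, smul_eq_mul] at h
  rw [Matrix.diag_apply, Matrix.diag_apply]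
  refine mul_right_cancel₀ (pow_ne_zero (i : ℕ) hu) ?_
  rw [h]
  ring

theorem gram_Zm {A : Type*} [CommRing A] [IsDomain A] {u : A} (hu : u ≠ 0) :
    (gram (Zm n (u ^ (n - 1)))).det = u ^ (n * (n - 1)) * (gram (Zm n (1 : A))).det := by
  have h1 : gram (Zm n (u ^ (n - 1))) = diagonal (fun i : Fin n => u ^ (i : ℕ)) *
      gram (Zm n (1 : A)) * diagonal (fun i : Fin n => u ^ (i : ℕ)) := by
    ext a b
    rw [Matrix.mul_diagonal, Matrix.diagonal_mul, gram, Matrix.of_apply, trace_Zm hu, gram,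
      Matrix.of_apply]
    ring
  rw [h1, Matrix.det_mul, Matrix.det_mul, Matrix.det_diagonal, Finset.prod_pow_eq_pow_sum]
  have h2 : (∑ i : Fin n, (i : ℕ)) * 2 = n * (n - 1) := by
    rw [← Finset.sum_range (fun i => i), Finset.sum_range_id_mul_two]
  rw [← h2, pow_mul]
  ring

section

variable {Ω : Type*} [Field Ω]

theorem root_data' [IsAlgClosed Ω] (hn : 3 ≤ n) (hnΩ : ((n - 1 : ℕ) : Ω) ≠ 0) :
    ∃ r : Fin n → Ω, Function.Injective r ∧ ∀ i, r i ^ n = r i := by
  obtain ⟨ζ, hζ⟩ : ∃ ζ : Ω, IsPrimitiveRoot ζ (n - 1) := by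
    have : NeZero ((n - 1 : ℕ) : Ω) := ⟨hnΩ⟩
    obtain ⟨x, hx⟩ := IsAlgClosed.exists_root (Polynomial.cyclotomic (n - 1) Ω)
      (Polynomial.degree_cyclotomic_pos (n - 1) Ω (by omega)).ne'
    exact ⟨x, Polynomial.isRoot_cyclotomic_iff.mp hx⟩
  have hζ0 : ζ ≠ 0 := hζ.ne_zero (by omega)
  refine ⟨fun i => if (i : ℕ) = 0 then 0 else ζ ^ ((i : ℕ) - 1), ?_, ?_⟩
  · intro i j hij
    simp only at hij
    split_ifs at hij with h1 h2 h2
    · exact Fin.ext (by omega)
    · exact absurd hij.symm (pow_ne_zero _ hζ0)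
    · exact absurd hij (pow_ne_zero _ hζ0)
    · have h3 := hζ.pow_inj (i := (i : ℕ) - 1) (j := (j : ℕ) - 1) (by omega) (by omega) hij
      exact Fin.ext (by omega)
  · intro i
    simp only
    split_ifs with h1
    · rw [zero_pow (by omega)]
    · have h2 : ζ ^ n = ζ := by
        have : n = (n - 1) + 1 := by omega
        rw [this, pow_succ, hζ.pow_eq_one, one_mul]
      rw [← pow_mul, mul_comm, pow_mul, h2]

theorem Zm_vandermonde (hn : 3 ≤ n) {r : Fin n → Ω} (hr : ∀ i, r i ^ n = r i) :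
    Zm n (1 : Ω) * (vandermonde r)ᵀ = (vandermonde r)ᵀ * diagonal r := by
  ext i k
  rw [Matrix.mul_diagonal, Matrix.mul_apply]
  simp only [Matrix.transpose_apply, Matrix.vandermonde_apply, Zm, Matrix.of_apply]
  by_cases hi : (i : ℕ) = n - 1
  · rw [Finset.sum_eq_single (⟨1, by omega⟩ : Fin n)]
    · simp only
      rw [if_neg (by omega), if_pos ⟨hi, trivial⟩, one_mul, pow_one, ← pow_succ, hi]
      have : n - 1 + 1 = n := by omega
      rw [this, hr]
    · intro j _ hj
      have hj1 : (j : ℕ) ≠ 1 := fun h => hj (Fin.ext h)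
      rw [if_neg (by omega), if_neg (by omega), zero_mul]
    · intro h; exact absurd (Finset.mem_univ _) h
  · rw [Finset.sum_eq_single (⟨(i : ℕ) + 1, by omega⟩ : Fin n)]
    · simp only
      rw [if_pos trivial, one_mul, ← pow_succ]
    · intro j _ hj
      have hj1 : (j : ℕ) ≠ i + 1 := fun h => hj (Fin.ext h)
      rw [if_neg hj1, if_neg (by omega), zero_mul]
    · intro h; exact absurd (Finset.mem_univ _) h

theorem isUnit_vandermonde {r : Fin n → Ω} (hr : Function.Injective r) :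
    IsUnit (vandermonde r)ᵀ := by
  rw [Matrix.isUnit_transpose, Matrix.isUnit_iff_isUnit_det, isUnit_iff_ne_zero]
  exact Matrix.det_vandermonde_ne_zero_iff.2 hr

/-- the Gram determinant of a diagonalisable matrix with distinct eigenvalues -/
theorem gram_ne_zero {G S : Matrix (Fin n) (Fin n) Ω} {r : Fin n → Ω}
    (hS : IsUnit S) (hG : G * S = S * diagonal r) (hr : Function.Injective r) :
    (gram G).det ≠ 0 := by
  have h1 : gram G = (vandermonde r)ᵀ * vandermonde r := by
    ext a b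
    rw [gram, Matrix.of_apply, trace_diag hS (pow_diag hG _), Matrix.mul_apply]
    refine Finset.sum_congr rfl fun i _ => ?_
    simp [Matrix.vandermonde_apply, pow_add]
  rw [h1, Matrix.det_mul, Matrix.det_transpose]
  have := Matrix.det_vandermonde_ne_zero_iff.2 hr
  exact mul_ne_zero this this

/-- the degree of the discriminant of the family -/
theorem natDegree_gram [IsAlgClosed Ω] (hn : 3 ≤ n) (hnΩ : ((n - 1 : ℕ) : Ω) ≠ 0) :
    (gram (Zm n (X : Polynomial Ω))).det.natDegree = n ∧ (gram (Zm n (X : Polynomial Ω))).det ≠ 0 := by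
  obtain ⟨r, hr, hr2⟩ := root_data' hn hnΩ
  have h0 : (gram (Zm n (1 : Ω))).det ≠ 0 :=
    gram_ne_zero (isUnit_vandermonde hr) (Zm_vandermonde hn hr2) hr
  set e := (gram (Zm n (X : Polynomial Ω))).det with he
  have h1 : e.comp (X ^ (n - 1)) = X ^ (n * (n - 1)) * C (gram (Zm n (1 : Ω))).det := by
    have h2 : e.comp (X ^ (n - 1)) = (compRingHom (X ^ (n - 1) : Polynomial Ω)) e := by simp
    rw [h2, he, RingHom.map_det, ← map_gram, map_Zm]
    have h3 : (compRingHom (X ^ (n - 1) : Polynomial Ω)) X = X ^ (n - 1) := by simp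
    rw [h3, gram_Zm X_ne_zero]
    congr 1
    rw [show (C (gram (Zm n (1 : Ω))).det : Polynomial Ω) = (C : Ω →+* Polynomial Ω) (gram (Zm n (1 : Ω))).det
      from rfl, RingHom.map_det, ← map_gram, map_Zm, map_one]
  have h2 := congrArg natDegree h1
  rw [natDegree_comp, natDegree_pow, natDegree_X, mul_one, natDegree_mul
    (pow_ne_zero _ X_ne_zero) (C_ne_zero.2 h0), natDegree_pow, natDegree_X, mul_one, natDegree_C,
    add_zero] at h2
  refine ⟨Nat.eq_of_mul_eq_mul_right (by omega) h2, ?_⟩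
  intro hz
  rw [hz, zero_comp] at h1
  exact mul_ne_zero (pow_ne_zero _ X_ne_zero) (C_ne_zero.2 h0) h1.symm

/-- the parity argument -/
theorem parity {n : ℕ} (hodd : Odd n) {P e d : Polynomial Ω} {κ : Ω} (hP : P ≠ 0) (he : e ≠ 0)
    (hdeg : e.natDegree = n) (h : P ^ 2 * e = C κ * d ^ 2) : False := by
  have h1 : P ^ 2 * e ≠ 0 := mul_ne_zero (pow_ne_zero 2 hP) he
  have h2 : C κ * d ^ 2 ≠ 0 := h ▸ h1
  have h3 := congrArg natDegree h
  rw [natDegree_mul (pow_ne_zero 2 hP) he, natDegree_pow, hdeg,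
    natDegree_mul (left_ne_zero_of_mul h2) (right_ne_zero_of_mul h2), natDegree_C, natDegree_pow]
    at h3
  obtain ⟨m, hm⟩ := hodd
  omega

end

end Pool.Agent.U605.CZ
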